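import Mathlib

/-!
# Motives with an isolated Hodge number: definitions
-/

set_option autoImplicit false

namespace Pool.Agent.H4.HW

open Matrix Filter Topology

/-- the matrix `M` is block diagonal: `blk t` is the block of the index `t` -/
def IsBlock {F T B : Type} [Zero F] (blk : T → B) (M : Matrix T T F) : Prop :=
  ∀ s t, blk s ≠ blk t → M s t = 0

/-- the vectors of the block `b` -/
def space (F : Type) [Field F] {T B : Type} (blk : T → B) (b : B) : Submodule F (T → F) where
  carrier := {x | ∀ t, blk t ≠ b → x t = 0}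
  add_mem' := by
    intro x y hx hy t ht
    rw [Pi.add_apply, hx t ht, hy t ht, add_zero]
  zero_mem' := fun _ _ => rfl
  smul_mem' := by
    intro c x hx t ht
    rw [Pi.smul_apply, hx t ht, smul_zero]

theorem mem_space {F : Type} [Field F] {T B : Type} {blk : T → B} {b : B} {x : T → F} :
    x ∈ space F blk b ↔ ∀ t, blk t ≠ b → x t = 0 := Iff.rfl

/-- The Lie algebra of the image of a representation of a compact group: the set of the limits of
`(ρ (σ k) - 1) / ℓ ^ k` for sequences `σ k` in the group. -/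
def LieImage {ℓ : ℕ} [Fact ℓ.Prime] {Γ T : Type} [Group Γ] [Fintype T] [DecidableEq T]
    (ρ : Γ → Matrix T T ℚ_[ℓ]) : Set (Matrix T T ℚ_[ℓ]) :=
  {Z | ∃ σ : ℕ → Γ, Tendsto (fun k : ℕ => ((ℓ : ℚ_[ℓ]) ^ k)⁻¹ • (ρ (σ k) - 1)) atTop (𝓝 Z)}

/-- the extension of a space of matrices over `k` to the field `F` -/
def extend (F : Type) {k T : Type} [Field k] [Field F] [Algebra k F] (L : Set (Matrix T T k)) :
    Submodule F (Matrix T T F) :=
  Submodule.span F ((fun X : Matrix T T k => X.map (algebraMap k F)) '' L)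

/-- The Lie algebra of the Mumford-Tate group: the smallest Lie algebra over `ℚ` whose extension to
`ℂ` contains the Hodge operator `D`. -/
def mtLie {T : Type} [Fintype T] [DecidableEq T] (D : Matrix T T ℂ) : Submodule ℚ (Matrix T T ℚ) :=
  sInf {L | (∀ X ∈ L, ∀ Y ∈ L, X * Y - Y * X ∈ L) ∧ D ∈ extend ℂ (L : Set (Matrix T T ℚ))}

/-- The Mumford-Tate conjecture: the Lie algebra of the image of the Galois group is the extension to
`ℚ_ℓ` of the Lie algebra of the Mumford-Tate group. -/
def MumfordTate {ℓ : ℕ} [Fact ℓ.Prime] {Γ T : Type} [Group Γ] [Fintype T] [DecidableEq T]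
    (D : Matrix T T ℂ) (ρ : Γ → Matrix T T ℚ_[ℓ]) : Prop :=
  LieImage ρ = extend ℚ_[ℓ] (mtLie D : Set (Matrix T T ℚ))

/-- The motivated Mumford-Tate conjecture: the Lie algebra `𝔪` of the motivic Galois group is the Lie
algebra of the Mumford-Tate group, and its extension to `ℚ_ℓ` is the Lie algebra of the image of the
Galois group. -/
def Motivated {ℓ : ℕ} [Fact ℓ.Prime] {Γ T : Type} [Group Γ] [Fintype T] [DecidableEq T]
    (D : Matrix T T ℂ) (𝔪 : Submodule ℚ (Matrix T T ℚ)) (ρ : Γ → Matrix T T ℚ_[ℓ]) : Prop :=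
  mtLie D = 𝔪 ∧ (extend ℚ_[ℓ] (𝔪 : Set (Matrix T T ℚ)) : Set (Matrix T T ℚ_[ℓ])) = LieImage ρ

/-- The data of the Betti realization of a motive `M = ⨁ M_b`, in a basis indexed by `T`. -/
structure Betti (T B : Type) where
  /-- the summand `M_b` of a vector of the basis -/
  blk : T → B
  /-- the matrix of the polarization forms -/
  E : Matrix T T ℚ
  /-- the weight of the summand `M_b` -/
  wt : B → ℤ
  /-- the columns of `P` are a basis of `V ⊗ ℂ` adapted to the Hodge decomposition -/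
  P : Matrix T T ℂ
  /-- the Hodge weights: the column `t` of `P` is of type `(hdg t, wt (blk t) - hdg t)` -/
  hdg : T → ℤ
  /-- the vector which spans the Tate motive `ℚ(-1)` -/
  o : T

namespace Betti

variable {T B : Type} [Fintype T] [DecidableEq T] (M : Betti T B)

/-- the Hodge operator: it acts as `p` on the classes of type `(p, q)` -/
noncomputable def D : Matrix T T ℂ :=
  M.P * diagonal (fun t => (M.hdg t : ℂ)) * M.P⁻¹

/-- the form with coefficients in `F` -/
def EF (F : Type) [Field F] [CharZero F] : Matrix T T F := M.E.map (algebraMap ℚ F)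

/-- `C` acts on the summand `M_b`, and as zero on the other summands -/
def ActsOn {F : Type} [Field F] (b : B) (C : Matrix T T F) : Prop :=
  ∀ s t, C s t ≠ 0 → M.blk s = b ∧ M.blk t = b

/-- `C` acts as a scalar on `M_b` -/
def IsScalarOn {F : Type} [Field F] (b : B) (C : Matrix T T F) : Prop :=
  ∃ c : F, ∀ x ∈ space F M.blk b, C *ᵥ x = c • x

/-- the Hodge structure `M_b` is simple -/
def Simple (b : B) : Prop :=
  ∀ W : Submodule ℚ (T → ℚ), W ≤ space ℚ M.blk b →
    (∀ x ∈ W, M.D *ᵥ (fun t => (x t : ℂ)) ∈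
      Submodule.span ℂ ((fun (y : T → ℚ) (t : T) => (y t : ℂ)) '' W)) →
    W = ⊥ ∨ W = space ℚ M.blk b

/-- the endomorphisms of the Hodge structure `M_b` are the rational numbers -/
def TrivialEnd (b : B) : Prop :=
  ∀ C : Matrix T T ℚ, M.ActsOn b C →
    C.map (algebraMap ℚ ℂ) * M.D = M.D * C.map (algebraMap ℚ ℂ) → M.IsScalarOn b C

/-- The motive `M_b` is polarised, with trivial endomorphisms, and the Hodge number `h^{a, w - a}`
(`a` the Hodge weight of the vector `v` of the Hodge basis, `w` the weight of `M_b`) is isolated. -/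
structure Isolated (b : B) (v : T) : Prop where
  /-- the form is symmetric or alternating -/
  sign : ∃ ε : ℚ, (ε = 1 ∨ ε = -1) ∧ ∀ s t, M.blk s = b → M.E t s = ε * M.E s t
  /-- the form is a morphism of Hodge structures `M_b ⊗ M_b → ℚ(-w)` -/
  polar : ∀ s t, M.blk s = b →
    (M.Dᵀ * M.EF ℂ + M.EF ℂ * M.D) s t = M.wt b * M.EF ℂ s t
  simple : M.Simple b
  trivialEnd : M.TrivialEnd b
  mem : M.blk v = b
  /-- the Hodge number is one -/
  one : ∀ t, M.blk t = b → M.hdg t = M.hdg v → t = v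
  /-- it is isolated in `M_b` -/
  isolated : ∀ r s t, M.blk r = b → M.blk s = b → M.blk t = b →
    M.hdg v + M.hdg r = M.hdg s + M.hdg t → s = v ∨ t = v ∨ M.hdg v + M.hdg r = M.wt b
  /-- its differences with the other Hodge weights of `M_b` do not occur in the other summands -/
  across : ∀ r s t, M.blk t = b → t ≠ v → M.blk r = M.blk s → M.blk r ≠ b →
    M.hdg t - M.hdg v ≠ M.hdg r - M.hdg s

/-- The Betti realization of a motive: `o` spans a summand `ℚ(-1)`, and for `b ∈ S` the motive `M_b` has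
an isolated Hodge number. -/
structure IsBetti (S : Set B) : Prop where
  /-- the Hodge decomposition is compatible with the decomposition `M = ⨁ M_b` -/
  basis : IsUnit M.P.det ∧ IsBlock M.blk M.P
  /-- the form is nondegenerate and compatible with the decomposition (on the summands `M_b` with
  `b ∉ S` it is an arbitrary invertible matrix) -/
  form : IsUnit M.E.det ∧ IsBlock M.blk M.E
  tate : (∀ t, M.blk t = M.blk M.o → t = M.o) ∧ M.hdg M.o = 1 ∧ M.blk M.o ∉ S
  isolated : ∀ b ∈ S, ∃ v, M.Isolated b v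

/-- The `ℓ`-adic realization of the motive: a representation of a compact group (a Galois group). -/
structure IsRealization (S : Set B) {ℓ : ℕ} [Fact ℓ.Prime] {Γ : Type} [Group Γ]
    [TopologicalSpace Γ] (ρ : Γ →* Matrix T T ℚ_[ℓ]) : Prop where
  continuous : Continuous ρ
  block : ∀ g, IsBlock M.blk (ρ g)
  /-- the form is a morphism `M_b ⊗ M_b → ℚ_ℓ(-w)` -/
  polar : ∀ g, ∀ b ∈ S, ∀ s t, M.blk s = b →
    ((ρ g)ᵀ * M.EF ℚ_[ℓ] * ρ g) s t = (ρ g M.o M.o) ^ (M.wt b) * M.EF ℚ_[ℓ] s t
  /-- Faltings and Sen: there is a Hodge-Tate decomposition, and the Hodge-Tate operator is in the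
  extension to `ℂ_ℓ` of the Lie algebra of the image -/
  sen : ∃ Q : Matrix T T ℂ_[ℓ], IsUnit Q.det ∧ IsBlock M.blk Q ∧
    Q * diagonal (fun t => (M.hdg t : ℂ_[ℓ])) * Q⁻¹ ∈ extend ℂ_[ℓ] (LieImage ρ)

/-- The properties of the Lie algebra `𝔪` of the motivic Galois group of the motive. -/
structure IsMotivic (S : Set B) {ℓ : ℕ} [Fact ℓ.Prime] {Γ : Type} [Group Γ]
    (ρ : Γ →* Matrix T T ℚ_[ℓ]) (𝔪 : Submodule ℚ (Matrix T T ℚ)) : Prop where
  bracket : ∀ X ∈ 𝔪, ∀ Y ∈ 𝔪, X * Y - Y * X ∈ 𝔪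
  block : ∀ X ∈ 𝔪, IsBlock M.blk X
  /-- the form is a morphism of motives `M_b ⊗ M_b → ℚ(-w)` -/
  polar : ∀ X ∈ 𝔪, ∀ b ∈ S, ∀ s t, M.blk s = b →
    (Xᵀ * M.E + M.E * X) s t = M.wt b * X M.o M.o * M.E s t
  /-- the Mumford-Tate group is contained in the motivic Galois group -/
  hodge : M.D ∈ extend ℂ (𝔪 : Set (Matrix T T ℚ))
  /-- an open subgroup of the Galois group acts through the motivic Galois group -/
  tate : LieImage ρ ⊆ extend ℚ_[ℓ] (𝔪 : Set (Matrix T T ℚ))

/-- The Tate conjecture for the endomorphisms of `M_b` and the semisimplicity: the representation on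
`M_b` is irreducible, and only scalars commute with an open subgroup. -/
structure TateEnd {ℓ : ℕ} [Fact ℓ.Prime] {Γ : Type} [Group Γ] [TopologicalSpace Γ] (b : B)
    (ρ : Γ →* Matrix T T ℚ_[ℓ]) : Prop where
  irreducible : ∀ W : Submodule ℚ_[ℓ] (T → ℚ_[ℓ]), W ≤ space ℚ_[ℓ] M.blk b →
    (∀ g, ∀ x ∈ W, ρ g *ᵥ x ∈ W) → W = ⊥ ∨ W = space ℚ_[ℓ] M.blk b
  scalar : ∀ U : Subgroup Γ, IsOpen (U : Set Γ) → ∀ C : Matrix T T ℚ_[ℓ], M.ActsOn b C →
    (∀ g ∈ U, C * ρ g = ρ g * C) → M.IsScalarOn b C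

/-- the part of a matrix on the summands `M_b`, `b ∈ J` -/
def part {F : Type} (J : Set B) (X : Matrix T T F) :
    Matrix {t // M.blk t ∈ J} {t // M.blk t ∈ J} F :=
  X.submatrix Subtype.val Subtype.val

/-- the parts of the elements of a space of matrices -/
def parts {F : Type} [Field F] (J : Set B) (L : Submodule F (Matrix T T F)) :
    Submodule F (Matrix {t // M.blk t ∈ J} {t // M.blk t ∈ J} F) where
  carrier := {Y | ∃ X ∈ L, M.part J X = Y}
  add_mem' := by
    rintro _ _ ⟨X, hX, rfl⟩ ⟨Y, hY, rfl⟩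
    exact ⟨X + Y, L.add_mem hX hY, rfl⟩
  zero_mem' := ⟨0, L.zero_mem, rfl⟩
  smul_mem' := by
    rintro c _ ⟨X, hX, rfl⟩
    exact ⟨c • X, L.smul_mem c hX, rfl⟩

end Betti

end Pool.Agent.H4.HW
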