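import Pool.Agent.H4.HW.Mt

/-!
# The theorem
-/

set_option autoImplicit false
set_option linter.unusedSectionVars false

namespace Pool.Agent.H4.HW

open Matrix

namespace Betti

variable {T B : Type} [Fintype T] [DecidableEq T] (M : Betti T B)
  {ℓ : ℕ} [Fact ℓ.Prime] {Γ : Type} [Group Γ] [TopologicalSpace Γ]

theorem EF_block (hM : IsBlock M.blk M.E) {F : Type} [Field F] [CharZero F] :
    IsBlock M.blk (M.EF F) := by
  intro s t hst
  rw [EF, map_apply, hM s t hst, map_zero]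

theorem EF_unit (hu : IsUnit M.E.det) {F : Type} [Field F] [CharZero F] :
    IsUnit (M.EF F).det := by
  rw [EF, ← RingHom.mapMatrix_apply, ← RingHom.map_det]
  exact hu.map _

variable {M}

/-- the similitude equation for the Lie algebra of the image -/
theorem IsRealization.pol {S : Set B} {ρ : Γ →* Matrix T T ℚ_[ℓ]} (hM : M.IsBetti S)
    (hρ : M.IsRealization S ρ) : ∀ Z ∈ Lie.sub ρ, M.Pol S Z := by
  intro Z hZ b hb s t hs
  exact Lie.polar ρ hM.tate.1 hρ.block (fun g s t hs => hρ.polar g b hb s t hs) Z hZ s t hs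

theorem ext_pol {S : Set B} {k F : Type} [Field k] [CharZero k] [Field F] [CharZero F]
    [Algebra k F] {𝔤 : Submodule k (Matrix T T k)} (h : ∀ Z ∈ 𝔤, M.Pol S Z) :
    ∀ Z ∈ extk F 𝔤, M.Pol S Z := by
  intro X hX
  induction hX using Submodule.span_induction with
  | mem x hx =>
    obtain ⟨x, hx, rfl⟩ := hx
    exact (h x hx).map M
  | zero => exact Pol.zero M
  | add x y _ _ h1 h2 => exact h1.add M h2
  | smul c x _ h1 => exact h1.smul M c

variable [IsTopologicalGroup Γ]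

/-- the Lie algebra of the image contains the skew operators -/
theorem IsRealization.str {S : Set B} {ρ : Γ →* Matrix T T ℚ_[ℓ]} (hM : M.IsBetti S)
    (hρ : M.IsRealization S ρ) (hT : ∀ b ∈ S, M.TateEnd b ρ) : M.Str S (Lie.sub ρ) := by
  refine ⟨Lie.block ρ hρ.block, hρ.pol hM, ?_⟩
  intro b hb X hX hsk
  obtain ⟨v, hv⟩ := hM.isolated b hb
  obtain ⟨ε, hε, hsym⟩ := hv.sign
  obtain ⟨Q, hQ1, hQ2, hQ3⟩ := hρ.sen
  have habs : AbsIrr M.blk b (Lie.sub ρ) :=
    Lie.absIrr ρ hρ.continuous hρ.block ⟨(hT b hb).irreducible, (hT b hb).scalar⟩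
  have H : CoreHyp (F := ℂ_[ℓ]) M.blk b (M.EF ℚ_[ℓ]) (algebraMap ℚ ℚ_[ℓ] ε) (Lie.sub ρ) Q
      (fun t => (M.hdg t : ℂ_[ℓ])) (M.wt b) v := by
    refine ⟨?_, M.EF_block hM.form.2, M.EF_unit hM.form.1, ?_, fun Z hZ Z' hZ' =>
      Lie.brack ρ hZ hZ', ?_, habs, hQ2, hQ1, hQ3, ?_, hv.mem, ?_, ?_, ?_⟩
    · rcases hε with h1 | h1
      · left; rw [h1, map_one]
      · right; rw [h1, map_neg, map_one]
    · intro s t hs
      rw [EF, map_apply, map_apply, hsym s t hs, map_mul]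
    · intro Z hZ
      exact ⟨M.wt b * Z M.o M.o, fun s t hs => hρ.pol hM Z hZ b hb s t hs⟩
    · intro s t hs
      have h1 := ext_pol (hρ.pol hM) _ hQ3 b hb s t hs
      have h2 : (Q * diagonal (fun t => (M.hdg t : ℂ_[ℓ])) * Q⁻¹) M.o M.o = 1 := by
        rw [diag_oo hQ1 hQ2 hM.tate.1, hM.tate.2.1, Int.cast_one]
      rw [h2, mul_one] at h1
      rw [M.EF_map]
      exact h1
    · intro t ht he
      exact hv.one t ht (by exact_mod_cast he)
    · intro r s t hr hs ht he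
      rcases hv.isolated r s t hr hs ht (by exact_mod_cast he) with h | h | h
      · exact Or.inl h
      · exact Or.inr (Or.inl h)
      · right; right
        exact_mod_cast h
    · intro t r s ht hne hrs hr he
      exact hv.across r s t ht hne hrs hr (by exact_mod_cast he)
  exact H.skew_mem X hX hsk

/-! ### Direct summands -/

section summands

variable (M)

theorem adapted (J : Set B) {F : Type} [Field F] {X : Matrix T T F} (hX : IsBlock M.blk X) :
    Lie.Adapted (fun t => M.blk t ∈ J) X := by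
  intro s t hst
  apply hX
  intro h
  apply hst
  show M.blk s ∈ J ↔ M.blk t ∈ J
  rw [h]

theorem part_mul (J : Set B) [DecidablePred fun t => M.blk t ∈ J] {F : Type} [Field F]
    {X Y : Matrix T T F} (hX : IsBlock M.blk X) : M.part J (X * Y) = M.part J X * M.part J Y :=
  Lie.pt_mul _ (M.adapted J hX)

/-- the Lie algebra of the Mumford-Tate group of a direct summand -/
theorem mt_part (J : Set B) [DecidablePred fun t => M.blk t ∈ J]
    (hP : IsUnit M.P.det ∧ IsBlock M.blk M.P) :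
    mtLie (M.part J M.D) = M.parts J (mtLie M.D) := by
  have hDb := M.D_block hP
  obtain ⟨r, c, Dk, hc, hD⟩ := exists_comp M.D
  have hDp : M.part J M.D = ∑ k, c k • (M.part J (Dk k)).map (algebraMap ℚ ℂ) := by
    rw [hD]
    ext s t
    simp only [part, submatrix_apply, Matrix.sum_apply, Matrix.smul_apply, map_apply]
  -- the components are block diagonal
  have hblk : mtLie M.D ≤ M.simil (∅ : Set B) := by
    refine mtLie_le ?_ ?_
    · rintro X ⟨h1, h2⟩ Y ⟨h3, h4⟩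
      refine ⟨?_, fun b hb => absurd hb (Set.notMem_empty b)⟩
      intro s t hst
      rw [Matrix.sub_apply, (h1.mul h3) s t hst, (h3.mul h1) s t hst, sub_zero]
    · rw [hD]
      refine (mem_extk_iff hc _).2 fun k => ?_
      rw [hD] at hDb
      exact M.comp_simil hc hDb (fun b hb => absurd hb (Set.notMem_empty b)) k
  apply le_antisymm
  · refine mtLie_le ?_ ?_
    · rintro _ ⟨X, hX, rfl⟩ _ ⟨Y, hY, rfl⟩
      refine ⟨X * Y - Y * X, mtLie_brack _ X hX Y hY, ?_⟩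
      rw [part_sub, M.part_mul J (hblk hX).1, M.part_mul J (hblk hY).1]
    · rw [hDp]
      refine (mem_extk_iff hc _).2 fun k => ⟨Dk k, ?_, rfl⟩
      rw [hD]
      exact comp_mem hc k
  · rintro _ ⟨X, hX, rfl⟩
    -- the matrices whose part is in the Lie algebra
    obtain ⟨L, hL⟩ : ∃ L : Submodule ℚ (Matrix T T ℚ), ∀ X, X ∈ L ↔
        IsBlock M.blk X ∧ M.part J X ∈ mtLie (M.part J M.D) := by
      refine ⟨{ carrier := {X | IsBlock M.blk X ∧ M.part J X ∈ mtLie (M.part J M.D)}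
                add_mem' := ?_
                zero_mem' := ?_
                smul_mem' := ?_ }, fun X => Iff.rfl⟩
      · rintro X Y ⟨h1, h2⟩ ⟨h3, h4⟩
        refine ⟨fun s t hst => by rw [Matrix.add_apply, h1 s t hst, h3 s t hst, add_zero], ?_⟩
        exact add_mem h2 h4
      · refine ⟨fun _ _ _ => rfl, ?_⟩
        exact zero_mem _
      · rintro c X ⟨h1, h2⟩
        refine ⟨fun s t hst => by rw [Matrix.smul_apply, h1 s t hst, smul_zero], ?_⟩
        exact Submodule.smul_mem _ c h2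
    have h1 : mtLie M.D ≤ L := by
      refine mtLie_le ?_ ?_
      · intro X hX Y hY
        rw [hL] at hX hY ⊢
        refine ⟨?_, ?_⟩
        · intro s t hst
          rw [Matrix.sub_apply, (hX.1.mul hY.1) s t hst, (hY.1.mul hX.1) s t hst, sub_zero]
        · rw [part_sub, M.part_mul J hX.1, M.part_mul J hY.1]
          exact mtLie_brack _ _ hX.2 _ hY.2
      · rw [hD]
        refine (mem_extk_iff hc _).2 fun k => ?_
        rw [hL]
        constructor
        · apply (hblk _).1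
          rw [hD]
          exact comp_mem hc k
        · rw [hDp]
          exact comp_mem hc k
    exact ((hL X).1 (h1 hX)).2

theorem parts_ext (J : Set B) {k F : Type} [Field k] [Field F] [Algebra k F]
    (𝔤 : Submodule k (Matrix T T k)) : extk F (M.parts J 𝔤) = M.parts J (extk F 𝔤) := by
  apply le_antisymm
  · rw [extk, Submodule.span_le]
    rintro _ ⟨_, ⟨X, hX, rfl⟩, rfl⟩
    exact ⟨X.map (algebraMap k F), Submodule.subset_span ⟨X, hX, rfl⟩, rfl⟩
  · rintro _ ⟨X, hX, rfl⟩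
    induction hX using Submodule.span_induction with
    | mem x hx =>
      obtain ⟨x, hx, rfl⟩ := hx
      exact Submodule.subset_span ⟨M.part J x, ⟨x, hx, rfl⟩, rfl⟩
    | zero => exact zero_mem _
    | add x y _ _ h1 h2 => exact add_mem h1 h2
    | smul c x _ h1 => exact Submodule.smul_mem _ c h1

/-- the Lie algebra of the image on a direct summand -/
theorem lie_part [CompactSpace Γ] (J : Set B) [DecidablePred fun t => M.blk t ∈ J]
    {ρ : Γ →* Matrix T T ℚ_[ℓ]} (hc : Continuous ρ) (hb : ∀ g, IsBlock M.blk (ρ g)) :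
    LieImage (fun g => M.part J (ρ g)) = M.parts J (Lie.sub ρ) := by
  have h1 := Lie.part_image ρ (fun t => M.blk t ∈ J) hc (fun g => M.adapted J (hb g))
  refine Eq.trans h1 ?_
  ext Z
  exact Iff.rfl

variable {M}

/-- the conjecture for a direct summand -/
theorem mumfordTate_part [CompactSpace Γ] (J : Set B) [DecidablePred fun t => M.blk t ∈ J]
    {ρ : Γ →* Matrix T T ℚ_[ℓ]} (hP : IsUnit M.P.det ∧ IsBlock M.blk M.P) (hc : Continuous ρ)
    (hb : ∀ g, IsBlock M.blk (ρ g)) (h : MumfordTate M.D ρ) :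
    MumfordTate (M.part J M.D) (fun g => M.part J (ρ g)) := by
  have h1 : Lie.sub ρ = extk ℚ_[ℓ] (mtLie M.D) := SetLike.coe_injective h
  show _ = _
  rw [M.lie_part J hc hb, h1, ← M.parts_ext, M.mt_part J hP]
  rfl

/-- the motivated conjecture for a direct summand -/
theorem motivated_part [CompactSpace Γ] (J : Set B) [DecidablePred fun t => M.blk t ∈ J]
    {ρ : Γ →* Matrix T T ℚ_[ℓ]} {𝔪 : Submodule ℚ (Matrix T T ℚ)}
    (hP : IsUnit M.P.det ∧ IsBlock M.blk M.P) (hc : Continuous ρ)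
    (hb : ∀ g, IsBlock M.blk (ρ g)) (h : Motivated M.D 𝔪 ρ) :
    Motivated (M.part J M.D) (M.parts J 𝔪) (fun g => M.part J (ρ g)) := by
  obtain ⟨h1, h2⟩ := h
  have h3 : MumfordTate M.D ρ := by
    show _ = _
    rw [← h2, h1]
  have h4 := mumfordTate_part J hP hc hb h3
  rw [MumfordTate, M.mt_part J hP, h1] at h4
  exact ⟨by rw [M.mt_part J hP, h1], h4.symm⟩

end summands

/-! ### The equivalences -/

/-- the conjecture implies the Tate conjecture for endomorphisms -/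
theorem tateEnd_of [CompactSpace Γ] {S : Set B} {ρ : Γ →* Matrix T T ℚ_[ℓ]} (hM : M.IsBetti S)
    (hρ : M.IsRealization S ρ) (h : ∀ Z ∈ mtLie M.D, Z.map (algebraMap ℚ ℚ_[ℓ]) ∈ Lie.sub ρ) :
    ∀ b ∈ S, M.TateEnd b ρ := by
  intro b hb
  have habs := M.mt_absIrr hM hb
  refine ⟨fun W hW hst => ?_, fun U hU C hC hcomm => ?_⟩
  · refine habs.ext W hW fun Z hZ x hx => ?_
    exact Lie.stable ρ W hst _ (h Z hZ) x hx
  · refine habs.comm_ext C hC fun Z hZ => ?_
    exact Lie.comm_open ρ hρ.continuous U hU hcomm _ (h Z hZ)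

theorem mt_le_ext {S : Set B} (hM : M.IsBetti S) :
    M.Str S (extk ℚ_[ℓ] (mtLie M.D)) := by
  refine (M.mt_str hM).ext M hM.form.2 hM.form.1 fun b hb => ?_
  obtain ⟨v, hv⟩ := hM.isolated b hb
  exact hv.sign

theorem main₁ [CompactSpace Γ] {S : Set B} [DecidablePred fun t => M.blk t ∈ Sᶜ]
    {ρ : Γ →* Matrix T T ℚ_[ℓ]} (hM : M.IsBetti S) (hρ : M.IsRealization S ρ) :
    MumfordTate M.D ρ ↔ (∀ b ∈ S, M.TateEnd b ρ) ∧
      MumfordTate (M.part Sᶜ M.D) (fun g => M.part Sᶜ (ρ g)) := by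
  constructor
  · intro h
    refine ⟨tateEnd_of hM hρ fun Z hZ => ?_, mumfordTate_part _ hM.basis hρ.continuous hρ.block h⟩
    have h1 : Lie.sub ρ = extk ℚ_[ℓ] (mtLie M.D) := SetLike.coe_injective h
    rw [h1]
    exact extk_mem hZ
  · rintro ⟨h1, h2⟩
    have h3 : M.parts Sᶜ (Lie.sub ρ) = M.parts Sᶜ (extk ℚ_[ℓ] (mtLie M.D)) := by
      apply SetLike.coe_injective
      rw [← M.lie_part Sᶜ hρ.continuous hρ.block, ← M.parts_ext, ← M.mt_part Sᶜ hM.basis]
      exact h2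
    have hs1 := hρ.str hM h1
    have hs2 : M.Str S (extk ℚ_[ℓ] (mtLie M.D)) := mt_le_ext hM
    have h4 : Lie.sub ρ = extk ℚ_[ℓ] (mtLie M.D) :=
      le_antisymm (hs1.le M hs2 hM.form.2 hM.tate.2.2 h3.le)
        (hs2.le M hs1 hM.form.2 hM.tate.2.2 h3.ge)
    exact congrArg (fun L : Submodule ℚ_[ℓ] (Matrix T T ℚ_[ℓ]) => (L : Set (Matrix T T ℚ_[ℓ]))) h4

theorem main₂ [CompactSpace Γ] {S : Set B} [DecidablePred fun t => M.blk t ∈ Sᶜ]
    {ρ : Γ →* Matrix T T ℚ_[ℓ]} (hM : M.IsBetti S) (hρ : M.IsRealization S ρ)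
    {𝔪 : Submodule ℚ (Matrix T T ℚ)} (hm : M.IsMotivic S ρ 𝔪) :
    Motivated M.D 𝔪 ρ ↔ (∀ b ∈ S, M.TateEnd b ρ) ∧
      Motivated (M.part Sᶜ M.D) (M.parts Sᶜ 𝔪) (fun g => M.part Sᶜ (ρ g)) := by
  have hle : mtLie M.D ≤ 𝔪 := mtLie_le hm.bracket hm.hodge
  have hms : M.Str S 𝔪 := by
    refine ⟨hm.block, ?_, ?_⟩
    · intro X hX b hb s t hs
      rw [EF_rat]
      exact hm.polar X hX b hb s t hs
    · intro b hb X hX hsk
      exact hle ((M.mt_str hM).full b hb X hX hsk)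
  constructor
  · rintro ⟨h1, h2⟩
    have h3 : MumfordTate M.D ρ := by
      show _ = _
      rw [← h2, h1]
    obtain ⟨h4, h5⟩ := (main₁ hM hρ).1 h3
    refine ⟨h4, ?_, ?_⟩
    · rw [M.mt_part Sᶜ hM.basis, h1]
    · have h6 := h5
      rw [MumfordTate, M.mt_part Sᶜ hM.basis, h1] at h6
      exact h6.symm
  · rintro ⟨h1, h2, h3⟩
    rw [M.mt_part Sᶜ hM.basis] at h2
    have h4 : mtLie M.D = 𝔪 :=
      le_antisymm hle (hms.le M (M.mt_str hM) hM.form.2 hM.tate.2.2 h2.ge)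
    refine ⟨h4, ?_⟩
    have h5 : MumfordTate M.D ρ := by
      refine (main₁ hM hρ).2 ⟨h1, ?_⟩
      rw [MumfordTate, ← h3, M.mt_part Sᶜ hM.basis, h4]
    rw [← h4]
    exact h5.symm

/-- a nonzero space of matrices with one entry -/
theorem eq_top_of {F N : Type} [Field F] {L : Submodule F (Matrix N N F)} {i : N}
    (hN : ∀ j, j = i) (h : ∃ X ∈ L, X i i ≠ 0) : L = ⊤ := by
  obtain ⟨X, hX, h0⟩ := h
  rw [eq_top_iff]
  intro Y _
  have h1 : Y = (Y i i / X i i) • X := by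
    ext a c
    rw [hN a, hN c, Matrix.smul_apply, smul_eq_mul, div_mul_cancel₀ _ h0]
  rw [h1]
  exact L.smul_mem _ hX

/-- an element of the extension with a nonzero entry comes from an element with a nonzero entry -/
theorem entry_of {k F N : Type} [Field k] [Field F] [Algebra k F] {L : Submodule k (Matrix N N k)}
    {i : N} {X : Matrix N N F} (hX : X ∈ extend F (L : Set (Matrix N N k))) (h0 : X i i ≠ 0) :
    ∃ Z ∈ L, Z i i ≠ 0 := by
  by_contra hc
  push Not at hc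
  apply h0
  unfold extend at hX
  induction hX using Submodule.span_induction with
  | mem x hx =>
    obtain ⟨x, hx, rfl⟩ := hx
    show algebraMap k F (x i i) = 0
    rw [hc x hx, map_zero]
  | zero => rfl
  | add x y _ _ h1 h2 =>
    have e1 : x i i = 0 := by
      by_contra h
      exact h (h1 h)
    have e2 : y i i = 0 := by
      by_contra h
      exact h (h2 h)
    rw [Matrix.add_apply, e1, e2, add_zero]
  | smul c x _ h1 =>
    have e1 : x i i = 0 := by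
      by_contra h
      exact h (h1 h)
    rw [Matrix.smul_apply, e1, smul_zero]

/-- the conjecture for the Tate motive -/
theorem tate_part [CompactSpace Γ] {S : Set B} [DecidablePred fun t => M.blk t ∈ Sᶜ]
    {ρ : Γ →* Matrix T T ℚ_[ℓ]} (hM : M.IsBetti S) (hρ : M.IsRealization S ρ)
    (hS : ∀ t, M.blk t ∈ S ∨ t = M.o) :
    MumfordTate (M.part Sᶜ M.D) (fun g => M.part Sᶜ (ρ g)) ∧
    mtLie (M.part Sᶜ M.D) = ⊤ := by
  have hN : ∀ j : {t // M.blk t ∈ Sᶜ}, j = ⟨M.o, hM.tate.2.2⟩ := by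
    rintro ⟨j, hj⟩
    apply Subtype.ext
    rcases hS j with h | h
    · exact absurd h hj
    · exact h
  have h1 : mtLie (M.part Sᶜ M.D) = ⊤ := by
    rw [M.mt_part Sᶜ hM.basis]
    refine eq_top_of hN ?_
    obtain ⟨X, hX, h0⟩ := entry_of (i := M.o) (mtLie_ext M.D) (by
      rw [D, diag_oo hM.basis.1 hM.basis.2 hM.tate.1, hM.tate.2.1, Int.cast_one]
      exact one_ne_zero)
    exact ⟨_, ⟨X, hX, rfl⟩, h0⟩
  refine ⟨?_, h1⟩
  have h2 : M.parts Sᶜ (Lie.sub ρ) = ⊤ := by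
    refine eq_top_of hN ?_
    obtain ⟨Q, hQ1, hQ2, hQ3⟩ := hρ.sen
    have hQ4 : Q * diagonal (fun t => (M.hdg t : ℂ_[ℓ])) * Q⁻¹ ∈
        extend ℂ_[ℓ] ((Lie.sub ρ : Submodule ℚ_[ℓ] (Matrix T T ℚ_[ℓ])) :
          Set (Matrix T T ℚ_[ℓ])) := hQ3
    obtain ⟨X, hX, h0⟩ := entry_of (i := M.o) hQ4 (by
      rw [diag_oo hQ1 hQ2 hM.tate.1, hM.tate.2.1, Int.cast_one]
      exact one_ne_zero)
    exact ⟨_, ⟨X, hX, rfl⟩, h0⟩
  rw [MumfordTate, M.lie_part Sᶜ hρ.continuous hρ.block, h2, h1]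
  have h3 : extend ℚ_[ℓ] ((⊤ : Submodule ℚ (Matrix {t // M.blk t ∈ Sᶜ} {t // M.blk t ∈ Sᶜ} ℚ)) :
      Set (Matrix {t // M.blk t ∈ Sᶜ} {t // M.blk t ∈ Sᶜ} ℚ)) = ⊤ := by
    refine eq_top_of hN ⟨(1 : Matrix {t // M.blk t ∈ Sᶜ} {t // M.blk t ∈ Sᶜ} ℚ).map
      (algebraMap ℚ ℚ_[ℓ]), Submodule.subset_span ⟨1, trivial, rfl⟩, ?_⟩
    rw [map_apply, Matrix.one_apply_eq, map_one]
    exact one_ne_zero
  rw [h3]

theorem main₃ [CompactSpace Γ] {S : Set B} [DecidablePred fun t => M.blk t ∈ Sᶜ]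
    {ρ : Γ →* Matrix T T ℚ_[ℓ]} (hM : M.IsBetti S) (hρ : M.IsRealization S ρ)
    (hS : ∀ t, M.blk t ∈ S ∨ t = M.o) :
    (MumfordTate M.D ρ ↔ ∀ b ∈ S, M.TateEnd b ρ) ∧
    ∀ 𝔪, M.IsMotivic S ρ 𝔪 → (Motivated M.D 𝔪 ρ ↔ ∀ b ∈ S, M.TateEnd b ρ) := by
  obtain ⟨h1, h2⟩ := tate_part hM hρ hS
  refine ⟨⟨fun h => ((main₁ hM hρ).1 h).1, fun h => (main₁ hM hρ).2 ⟨h, h1⟩⟩, ?_⟩
  intro 𝔪 hm
  refine ⟨fun h => ((main₂ hM hρ hm).1 h).1, fun h => (main₂ hM hρ hm).2 ⟨h, ?_, ?_⟩⟩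
  · rw [h2]
    symm
    rw [eq_top_iff, ← h2, M.mt_part Sᶜ hM.basis]
    rintro _ ⟨X, hX, rfl⟩
    exact ⟨X, mtLie_le hm.bracket hm.hodge hX, rfl⟩
  · have h3 : M.parts Sᶜ 𝔪 = mtLie (M.part Sᶜ M.D) := by
      rw [h2, eq_top_iff, ← h2, M.mt_part Sᶜ hM.basis]
      rintro _ ⟨X, hX, rfl⟩
      exact ⟨X, mtLie_le hm.bracket hm.hodge hX, rfl⟩
    rw [h3]
    exact h1.symm

end Betti

end Pool.Agent.H4.HW
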