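import Pool.Agent.H4.HW.Irr

/-!
# The core theorem over a field which is not algebraically closed
-/

set_option autoImplicit false
set_option linter.unusedSectionVars false

namespace Pool.Agent.H4.HW

open Matrix

variable {k F T B : Type} [Field k] [CharZero k] [Field F] [CharZero F] [Algebra k F] [Fintype T]
  [DecidableEq T]

theorem IsBlock.mul {blk : T → B} {M N : Matrix T T F} (hM : IsBlock blk M) (hN : IsBlock blk N) :
    IsBlock blk (M * N) := by
  intro s t hst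
  rw [mul_apply]
  refine Finset.sum_eq_zero fun r _ => ?_
  by_cases h : blk s = blk r
  · rw [hN r t (by rw [← h]; exact hst), mul_zero]
  · rw [hM s r h, zero_mul]

theorem IsBlock.transpose {blk : T → B} {M : Matrix T T F} (hM : IsBlock blk M) :
    IsBlock blk Mᵀ := fun s t hst => hM t s fun h => hst h.symm

theorem IsBlock.map {blk : T → B} {M : Matrix T T k} (hM : IsBlock blk M) :
    IsBlock blk (M.map (algebraMap k F)) := by
  intro s t hst
  rw [map_apply, hM s t hst, map_zero]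

theorem IsBlock.diagonal {blk : T → B} (d : T → F) : IsBlock blk (diagonal d) := by
  intro s t hst
  rw [Matrix.diagonal_apply_ne]
  rintro rfl
  exact hst rfl

theorem IsBlock.inv {blk : T → B} {M : Matrix T T F} (hM : IsBlock blk M) (hu : IsUnit M.det) :
    IsBlock blk M⁻¹ := by
  classical
  intro s t hst
  obtain ⟨Pb, hPb⟩ : ∃ Pb : Matrix T T F, Pb = Matrix.diagonal fun r => if blk r = blk s then 1 else 0 :=
    ⟨_, rfl⟩
  have h1 : Pb * M = M * Pb := by
    ext a c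
    rw [hPb, diagonal_mul, mul_diagonal]
    by_cases hac : blk a = blk c
    · rw [hac, mul_comm]
    · rw [hM a c hac, mul_zero, zero_mul]
  have h2 : M⁻¹ * Pb = Pb * M⁻¹ := by
    calc M⁻¹ * Pb = M⁻¹ * Pb * (M * M⁻¹) := by rw [Matrix.mul_nonsing_inv _ hu, mul_one]
      _ = M⁻¹ * (Pb * M) * M⁻¹ := by noncomm_ring
      _ = (M⁻¹ * M) * Pb * M⁻¹ := by rw [h1]; noncomm_ring
      _ = Pb * M⁻¹ := by rw [Matrix.nonsing_inv_mul _ hu, one_mul]
  have h3 := congrFun (congrFun h2 s) t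
  rw [hPb, diagonal_mul, mul_diagonal, if_pos rfl, one_mul, if_neg (fun h => hst h.symm),
    mul_zero] at h3
  exact h3.symm

theorem conj_rows {blk : T → B} {b : B} {Q Y E : Matrix T T F} (hQ : IsBlock blk Q) (c : F)
    (h : ∀ s t, blk s = b → Y s t = c * E s t) :
    ∀ s t, blk s = b → (Qᵀ * Y * Q) s t = c * (Qᵀ * E * Q) s t := by
  intro s t hs
  rw [mul_apply, mul_apply, Finset.mul_sum]
  refine Finset.sum_congr rfl fun r _ => ?_
  rw [mul_apply, mul_apply, Finset.sum_mul, Finset.sum_mul, Finset.mul_sum]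
  refine Finset.sum_congr rfl fun a _ => ?_
  rw [transpose_apply]
  by_cases ha : blk a = b
  · rw [h a r ha]
    ring
  · rw [hQ a s (by rw [hs]; exact ha)]
    ring

/-- the skew operators are combinations of the operators `R x y` -/
theorem skew_of_R {blk : T → B} {b : B} {E : Matrix T T k} {ε : k}
    {𝔤 : Submodule k (Matrix T T k)} (eps : ε = 1 ∨ ε = -1) (blkE : IsBlock blk E)
    (unitE : IsUnit E.det) (sym : ∀ s t, blk s = b → E t s = ε * E s t)
    (hR : ∀ x ∈ space k blk b, ∀ y ∈ space k blk b, R E ε x y ∈ 𝔤) (X : Matrix T T k)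
    (hX : ∀ s t, X s t ≠ 0 → blk s = b ∧ blk t = b) (hs : Xᵀ * E + E * X = 0) : X ∈ 𝔤 := by
  have hE1 : E * E⁻¹ = 1 := Matrix.mul_nonsing_inv _ unitE
  have hE2 : E⁻¹ * E = 1 := Matrix.nonsing_inv_mul _ unitE
  have hε : ε * ε = 1 := by rcases eps with h | h <;> rw [h] <;> ring
  have h1 : ∀ i, R E ε (X *ᵥ e i) (e i ᵥ* E⁻¹) ∈ 𝔤 := by
    intro i
    by_cases hi : blk i = b
    · refine hR _ ?_ _ ?_
      · intro s hs'
        rw [mulVec_e]
        by_contra h2
        exact hs' (hX s i h2).1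
      · intro s hs'
        rw [e, single_one_vecMul, row_apply]
        exact (blkE.inv unitE) i s (by rw [hi]; exact fun h => hs' h.symm)
    · have h2 : X *ᵥ e i = 0 := by
        ext s
        rw [mulVec_e]
        by_contra h2
        exact hi (hX s i h2).2
      rw [h2, R_zero_left]
      exact zero_mem _
  have h2 : Eᵀ * X = ε • (E * X) := by
    ext s t
    rw [mul_apply, Matrix.smul_apply, mul_apply, smul_eq_mul, Finset.mul_sum]
    refine Finset.sum_congr rfl fun r _ => ?_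
    rw [transpose_apply]
    by_cases hr : X r t = 0
    · rw [hr]
      ring
    · have h3 := sym r s (hX r t hr).1
      rw [h3]
      linear_combination (-(E r s * X r t)) * hε
  have h3 : (E⁻¹)ᵀ * (E * X) = ε • X := by
    have h4 : E * X = ε • (Eᵀ * X) := by
      rw [h2, smul_smul, hε, one_smul]
    rw [h4, mul_smul_comm, ← mul_assoc, ← transpose_mul, hE1, transpose_one, one_mul]
  have h4 : ∑ i, R E ε (X *ᵥ e i) (e i ᵥ* E⁻¹) = (2 : k) • X := by
    have h5 : ∀ i, R E ε (X *ᵥ e i) (e i ᵥ* E⁻¹) = vecMulVec (X *ᵥ e i) (e i) -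
        ε • vecMulVec (e i ᵥ* E⁻¹) ((X *ᵥ e i) ᵥ* E) := by
      intro i
      rw [R, vecMul_vecMul, hE2, vecMul_one]
    have h6 : ∑ i, vecMulVec (X *ᵥ e i) (e i) = X := by
      ext s t
      rw [Matrix.sum_apply, Finset.sum_eq_single t]
      · rw [vecMulVec_apply, mulVec_e, e_self, mul_one]
      · intro i _ hi
        rw [vecMulVec_apply, e_ne (fun h => hi h.symm), mul_zero]
      · intro h
        exact absurd (Finset.mem_univ _) h
    have h7 : ∑ i, vecMulVec (e i ᵥ* E⁻¹) ((X *ᵥ e i) ᵥ* E) = -(ε • X) := by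
      have h8 : ∑ i, vecMulVec (e i ᵥ* E⁻¹) ((X *ᵥ e i) ᵥ* E) = (E⁻¹)ᵀ * (Xᵀ * E) := by
        ext s t
        rw [Matrix.sum_apply, mul_apply]
        refine Finset.sum_congr rfl fun i _ => ?_
        rw [vecMulVec_apply, transpose_apply, mul_apply]
        congr 1
        · rw [e, single_one_vecMul, row_apply]
        · simp only [vecMul, dotProduct]
          refine Finset.sum_congr rfl fun r _ => ?_
          rw [mulVec_e, transpose_apply]
      rw [h8, eq_neg_of_add_eq_zero_left hs, mul_neg, h3]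
    simp only [h5, Finset.sum_sub_distrib]
    rw [h6, ← Finset.smul_sum, h7, smul_neg, smul_smul, hε, one_smul, sub_neg_eq_add, two_smul]
  have h5 : (2 : k) • X ∈ 𝔤 := by
    rw [← h4]
    exact Submodule.sum_mem _ fun i _ => h1 i
  exact (𝔤.smul_mem_iff two_ne_zero).1 h5

/-- the data for a block over the field `k`, with the diagonalization over `F` -/
structure CoreHyp (blk : T → B) (b : B) (E : Matrix T T k) (ε : k)
    (𝔤 : Submodule k (Matrix T T k)) (Q : Matrix T T F) (h : T → F) (w : F) (o₁ : T) : Prop where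
  eps : ε = 1 ∨ ε = -1
  blkE : IsBlock blk E
  unitE : IsUnit E.det
  sym : ∀ s t, blk s = b → E t s = ε * E s t
  brack : ∀ Z ∈ 𝔤, ∀ Z' ∈ 𝔤, Z * Z' - Z' * Z ∈ 𝔤
  sim : ∀ Z ∈ 𝔤, ∃ c : k, ∀ s t, blk s = b → (Zᵀ * E + E * Z) s t = c * E s t
  abs : AbsIrr blk b 𝔤
  blkQ : IsBlock blk Q
  unitQ : IsUnit Q.det
  theta : Q * diagonal h * Q⁻¹ ∈ extk F 𝔤
  wt : ∀ s t, blk s = b → ((Q * diagonal h * Q⁻¹)ᵀ * E.map (algebraMap k F) +
    E.map (algebraMap k F) * (Q * diagonal h * Q⁻¹)) s t = w * E.map (algebraMap k F) s t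
  ob : blk o₁ = b
  iso1 : ∀ t, blk t = b → h t = h o₁ → t = o₁
  iso2 : ∀ r s t, blk r = b → blk s = b → blk t = b → h o₁ + h r = h s + h t →
    s = o₁ ∨ t = o₁ ∨ h o₁ + h r = w
  across : ∀ t r s, blk t = b → t ≠ o₁ → blk r = blk s → blk r ≠ b → h t - h o₁ ≠ h r - h s

/-- conjugation `Z ↦ Q Z Q⁻¹` -/
noncomputable def cjm (Q : Matrix T T F) : Matrix T T F →ₗ[F] Matrix T T F where
  toFun Z := Q * Z * Q⁻¹
  map_add' Z Z' := by rw [mul_add, add_mul]
  map_smul' c Z := by rw [mul_smul_comm, smul_mul_assoc, RingHom.id_apply]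

namespace CoreHyp

variable {blk : T → B} {b : B} {E : Matrix T T k} {ε : k}
    {𝔤 : Submodule k (Matrix T T k)} {Q : Matrix T T F} {h : T → F} {w : F} {o₁ : T}

theorem extBlk (H : CoreHyp blk b E ε 𝔤 Q h w o₁) : ∀ Z ∈ extk F 𝔤, IsBlock blk Z := by
  intro Z hZ s t hst
  induction hZ using Submodule.span_induction with
  | mem x hx =>
    obtain ⟨x, hx, rfl⟩ := hx
    exact (H.abs.blkg x hx).map s t hst
  | zero => rfl
  | add x y _ _ h1 h2 => rw [Matrix.add_apply, h1, h2, add_zero]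
  | smul c x _ h1 => rw [Matrix.smul_apply, h1, smul_zero]

theorem extSim (H : CoreHyp blk b E ε 𝔤 Q h w o₁) : ∀ Z ∈ extk F 𝔤, ∃ c : F, ∀ s t, blk s = b →
    (Zᵀ * E.map (algebraMap k F) + E.map (algebraMap k F) * Z) s t =
      c * E.map (algebraMap k F) s t := by
  intro Z hZ
  induction hZ using Submodule.span_induction with
  | mem x hx =>
    obtain ⟨x, hx, rfl⟩ := hx
    obtain ⟨c, hc⟩ := H.sim x hx
    refine ⟨algebraMap k F c, fun s t hs => ?_⟩
    have h1 := congrArg (algebraMap k F) (hc s t hs)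
    rw [map_mul, Matrix.add_apply, map_add] at h1
    rw [Matrix.add_apply, map_apply, ← h1]
    congr 1
    · rw [← transpose_map, ← map_mul', map_apply]
    · rw [← map_mul', map_apply]
  | zero =>
    refine ⟨0, fun s t _ => ?_⟩
    rw [transpose_zero, zero_mul, mul_zero, add_zero, Matrix.zero_apply, zero_mul]
  | add x y _ _ h1 h2 =>
    obtain ⟨c, hc⟩ := h1
    obtain ⟨c', hc'⟩ := h2
    refine ⟨c + c', fun s t hs => ?_⟩
    have h3 := hc s t hs
    have h4 := hc' s t hs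
    rw [Matrix.add_apply] at h3 h4
    rw [transpose_add, add_mul, mul_add]
    simp only [Matrix.add_apply]
    linear_combination h3 + h4
  | smul a x _ h1 =>
    obtain ⟨c, hc⟩ := h1
    refine ⟨a * c, fun s t hs => ?_⟩
    have h3 := hc s t hs
    rw [Matrix.add_apply] at h3
    rw [transpose_smul, smul_mul_assoc, mul_smul_comm]
    simp only [Matrix.add_apply, Matrix.smul_apply, smul_eq_mul]
    linear_combination a * h3

theorem hyp (H : CoreHyp blk b E ε 𝔤 Q h w o₁) :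
    Hyp blk b (Qᵀ * E.map (algebraMap k F) * Q) (algebraMap k F ε) w h
      ((extk F 𝔤).comap (cjm Q)) o₁ := by
  have hQ1 : Q * Q⁻¹ = 1 := Matrix.mul_nonsing_inv _ H.unitQ
  have hQ2 : Q⁻¹ * Q = 1 := Matrix.nonsing_inv_mul _ H.unitQ
  have hQi : IsBlock blk Q⁻¹ := H.blkQ.inv H.unitQ
  have key : ∀ Z : Matrix T T F, Zᵀ * (Qᵀ * E.map (algebraMap k F) * Q) +
      (Qᵀ * E.map (algebraMap k F) * Q) * Z =
      Qᵀ * ((Q * Z * Q⁻¹)ᵀ * E.map (algebraMap k F) + E.map (algebraMap k F) * (Q * Z * Q⁻¹)) * Q := by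
    intro Z
    have hQt : Qᵀ * (Q⁻¹)ᵀ = 1 := by rw [← transpose_mul, hQ2, transpose_one]
    calc Zᵀ * (Qᵀ * E.map (algebraMap k F) * Q) + (Qᵀ * E.map (algebraMap k F) * Q) * Z =
        1 * Zᵀ * Qᵀ * E.map (algebraMap k F) * Q + Qᵀ * E.map (algebraMap k F) * Q * Z * 1 := by
          noncomm_ring
      _ = Qᵀ * (Q⁻¹)ᵀ * Zᵀ * Qᵀ * E.map (algebraMap k F) * Q +
        Qᵀ * E.map (algebraMap k F) * Q * Z * (Q⁻¹ * Q) := by rw [hQt, hQ2]
      _ = _ := by
        rw [transpose_mul, transpose_mul]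
        noncomm_ring
  refine ⟨?_, ?_, ?_, ?_, ?_, ?_, ?_, ?_, ?_, ?_, H.ob, H.iso1, H.iso2, H.across⟩
  · rcases H.eps with h1 | h1
    · left; rw [h1, map_one]
    · right; rw [h1, map_neg, map_one]
  · exact (H.blkQ.transpose.mul H.blkE.map).mul H.blkQ
  · rw [det_mul, det_mul, det_transpose]
    have h1 : IsUnit (E.map (algebraMap k F)).det := by
      rw [← RingHom.mapMatrix_apply, ← RingHom.map_det]
      exact H.unitE.map _
    exact (H.unitQ.mul h1).mul H.unitQ
  · intro s t hs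
    have h1 := conj_rows (b := b) (Y := (E.map (algebraMap k F))ᵀ) (E := E.map (algebraMap k F))
      H.blkQ (algebraMap k F ε) (by
        intro s t hs
        rw [transpose_apply, map_apply, map_apply, H.sym s t hs, map_mul]) s t hs
    rw [← h1, ← transpose_apply (Qᵀ * E.map (algebraMap k F) * Q), transpose_mul, transpose_mul,
      transpose_transpose, mul_assoc]
  · intro s t hs h0
    have h1 := conj_rows (b := b) H.blkQ w H.wt s t hs
    rw [← key, Matrix.add_apply, diagonal_transpose, diagonal_mul, mul_diagonal] at h1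
    have h2 : (h s + h t - w) * (Qᵀ * E.map (algebraMap k F) * Q) s t = 0 := by
      linear_combination h1
    rcases mul_eq_zero.1 h2 with h3 | h3
    · linear_combination h3
    · exact absurd h3 h0
  · intro Z hZ
    have h1 : IsBlock blk (Q * Z * Q⁻¹) := H.extBlk _ hZ
    have h2 : Z = Q⁻¹ * (Q * Z * Q⁻¹) * Q := by
      calc Z = (Q⁻¹ * Q) * Z * (Q⁻¹ * Q) := by rw [hQ2, one_mul, mul_one]
        _ = _ := by noncomm_ring
    rw [h2]
    exact (hQi.mul h1).mul H.blkQ
  · intro Z hZ Z' hZ'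
    have h1 := extk_brack (F := F) H.brack _ hZ _ hZ'
    rw [Submodule.mem_comap]
    show Q * (Z * Z' - Z' * Z) * Q⁻¹ ∈ extk F 𝔤
    have h2 : Q * (Z * Z' - Z' * Z) * Q⁻¹ = (Q * Z * Q⁻¹) * (Q * Z' * Q⁻¹) -
        (Q * Z' * Q⁻¹) * (Q * Z * Q⁻¹) := by
      calc Q * (Z * Z' - Z' * Z) * Q⁻¹ = Q * Z * 1 * Z' * Q⁻¹ - Q * Z' * 1 * Z * Q⁻¹ := by
            noncomm_ring
        _ = Q * Z * (Q⁻¹ * Q) * Z' * Q⁻¹ - Q * Z' * (Q⁻¹ * Q) * Z * Q⁻¹ := by rw [hQ2]
        _ = _ := by noncomm_ring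
    rw [h2]
    exact h1
  · exact H.theta
  · intro Z hZ
    obtain ⟨c, hc⟩ := H.extSim _ hZ
    refine ⟨c, fun s t hs => ?_⟩
    rw [key]
    exact conj_rows H.blkQ c hc s t hs
  · intro W hW hst
    have h1 := H.abs.ext (F := F) (W.map (Matrix.toLin' Q)) (by
      rintro _ ⟨x, hx, rfl⟩
      rw [toLin'_apply]
      exact act_space H.blkQ (hW hx)) (by
      rintro Z hZ _ ⟨x, hx, rfl⟩
      rw [toLin'_apply]
      refine ⟨(Q⁻¹ * Z.map (algebraMap k F) * Q) *ᵥ x, hst _ ?_ x hx, ?_⟩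
      · rw [Submodule.mem_comap]
        show Q * (Q⁻¹ * Z.map (algebraMap k F) * Q) * Q⁻¹ ∈ extk F 𝔤
        have h2 : Q * (Q⁻¹ * Z.map (algebraMap k F) * Q) * Q⁻¹ = Z.map (algebraMap k F) := by
          calc Q * (Q⁻¹ * Z.map (algebraMap k F) * Q) * Q⁻¹ =
              (Q * Q⁻¹) * Z.map (algebraMap k F) * (Q * Q⁻¹) := by noncomm_ring
            _ = _ := by rw [hQ1, one_mul, mul_one]
        rw [h2]
        exact extk_mem hZ
      · rw [toLin'_apply, mulVec_mulVec, mulVec_mulVec]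
        congr 1
        calc Q * (Q⁻¹ * Z.map (algebraMap k F) * Q) =
            (Q * Q⁻¹) * Z.map (algebraMap k F) * Q := by noncomm_ring
          _ = _ := by rw [hQ1, one_mul])
    rcases h1 with h1 | h1
    · left
      rw [eq_bot_iff]
      intro x hx
      have h2 : Matrix.toLin' Q x ∈ W.map (Matrix.toLin' Q) := ⟨x, hx, rfl⟩
      rw [h1, Submodule.mem_bot, toLin'_apply] at h2
      have h3 : Q⁻¹ *ᵥ (Q *ᵥ x) = 0 := by rw [h2, mulVec_zero]
      rw [mulVec_mulVec, hQ2, one_mulVec] at h3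
      exact h3
    · right
      apply le_antisymm hW
      intro x hx
      have h2 : Q *ᵥ x ∈ W.map (Matrix.toLin' Q) := by
        rw [h1]
        exact act_space H.blkQ hx
      obtain ⟨y, hy, hyx⟩ := h2
      rw [toLin'_apply] at hyx
      have h3 : y = x := by
        have h4 : Q⁻¹ *ᵥ (Q *ᵥ y) = Q⁻¹ *ᵥ (Q *ᵥ x) := by rw [hyx]
        rwa [mulVec_mulVec, mulVec_mulVec, hQ2, one_mulVec, one_mulVec] at h4
      rw [← h3]
      exact hy

/-- the operators of rank two are in `𝔤` -/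
theorem R_mem (H : CoreHyp blk b E ε 𝔤 Q h w o₁) (x y : T → k) (hx : x ∈ space k blk b)
    (hy : y ∈ space k blk b) : R E ε x y ∈ 𝔤 := by
  apply descent (F := F)
  have hQ1 : Q * Q⁻¹ = 1 := Matrix.mul_nonsing_inv _ H.unitQ
  have hQi : IsBlock blk Q⁻¹ := H.blkQ.inv H.unitQ
  have hm : ∀ z : T → k, z ∈ space k blk b → (fun s => algebraMap k F (z s)) ∈ space F blk b := by
    intro z hz s hs
    show algebraMap k F (z s) = 0
    rw [hz s hs, map_zero]
  have h1 := H.hyp.all (Q⁻¹ *ᵥ fun s => algebraMap k F (x s)) (act_space hQi (hm x hx))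
    (Q⁻¹ *ᵥ fun s => algebraMap k F (y s)) (act_space hQi (hm y hy))
  have h2 : Q * R (Qᵀ * E.map (algebraMap k F) * Q) (algebraMap k F ε)
      (Q⁻¹ *ᵥ fun s => algebraMap k F (x s)) (Q⁻¹ *ᵥ fun s => algebraMap k F (y s)) * Q⁻¹ ∈
      extk F 𝔤 := h1
  have h3 : ∀ z : T → F, (Q⁻¹ *ᵥ z) ᵥ* (Qᵀ * E.map (algebraMap k F) * Q) ᵥ* Q⁻¹ =
      z ᵥ* E.map (algebraMap k F) := by
    intro z
    rw [vecMul_vecMul, ← vecMul_transpose, vecMul_vecMul]
    congr 1
    calc (Q⁻¹)ᵀ * (Qᵀ * E.map (algebraMap k F) * Q * Q⁻¹) =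
        ((Q⁻¹)ᵀ * Qᵀ) * E.map (algebraMap k F) * (Q * Q⁻¹) := by noncomm_ring
      _ = _ := by rw [← transpose_mul, hQ1, transpose_one, one_mul, mul_one]
  have h4 : ∀ z : T → F, Q *ᵥ (Q⁻¹ *ᵥ z) = z := by
    intro z
    rw [mulVec_mulVec, hQ1, one_mulVec]
  have h5 : Q * R (Qᵀ * E.map (algebraMap k F) * Q) (algebraMap k F ε)
      (Q⁻¹ *ᵥ fun s => algebraMap k F (x s)) (Q⁻¹ *ᵥ fun s => algebraMap k F (y s)) * Q⁻¹ =
      (R E ε x y).map (algebraMap k F) := by
    have h6 : ∀ z : T → k, (fun s => algebraMap k F (z s)) ᵥ* E.map (algebraMap k F) =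
        fun s => algebraMap k F ((z ᵥ* E) s) := by
      intro z
      ext s
      simp only [vecMul, dotProduct, map_sum, map_mul, map_apply]
    simp only [R]
    rw [mul_sub, sub_mul, mul_smul_comm, smul_mul_assoc, mul_vecMulVec, mul_vecMulVec,
      vecMulVec_mul, vecMulVec_mul, h3, h3, h4, h4, h6, h6]
    ext s t
    simp only [Matrix.sub_apply, Matrix.smul_apply, vecMulVec_apply, smul_eq_mul, map_apply,
      map_sub, map_mul]
  rw [← h5]
  exact h2

/-- **The core theorem.** All skew operators of the block are in the Lie algebra. -/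
theorem skew_mem (H : CoreHyp blk b E ε 𝔤 Q h w o₁) (X : Matrix T T k)
    (hX : ∀ s t, X s t ≠ 0 → blk s = b ∧ blk t = b) (hs : Xᵀ * E + E * X = 0) : X ∈ 𝔤 :=
  skew_of_R H.eps H.blkE H.unitE H.sym (fun x hx y hy => H.R_mem x y hx hy) X hX hs

end CoreHyp

end Pool.Agent.H4.HW
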