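import Pool.Agent.H4.HW.LieIrr

/-!
# The Lie algebra of the image: similitudes, direct summands, open subgroups
-/

set_option autoImplicit false
set_option linter.unusedSectionVars false

namespace Pool.Agent.H4.HW

open Matrix Filter Topology
open scoped Matrix.Norms.Elementwise

namespace Lie

variable {ℓ : ℕ} [Fact ℓ.Prime] {Γ T B : Type} [Group Γ] [Fintype T] [DecidableEq T]
  (ρ : Γ →* Matrix T T ℚ_[ℓ])

/-- `c k = 1 + ℓ ^ k z + o (ℓ ^ k)` -/
def Dn (c : ℕ → ℚ_[ℓ]) (z : ℚ_[ℓ]) : Prop :=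
  Tendsto (fun k : ℕ => ((ℓ : ℚ_[ℓ]) ^ k)⁻¹ * (c k - 1)) atTop (𝓝 z)

theorem Dn.lim {c : ℕ → ℚ_[ℓ]} {z : ℚ_[ℓ]} (h : Dn c z) : Tendsto c atTop (𝓝 1) := by
  have h1 := (l_lim (ℓ := ℓ)).mul h
  rw [zero_mul] at h1
  have h2 := h1.add_const (1 : ℚ_[ℓ])
  rw [zero_add] at h2
  refine h2.congr fun k => ?_
  rw [mul_inv_cancel_left₀ (l_ne k), sub_add_cancel]

theorem Dn.pow {c : ℕ → ℚ_[ℓ]} {z : ℚ_[ℓ]} (h : Dn c z) (n : ℕ) :
    Dn (fun k => c k ^ n) (n * z) := by
  induction n with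
  | zero =>
    unfold Dn
    simp only [pow_zero, sub_self, mul_zero, Nat.cast_zero, zero_mul]
    exact tendsto_const_nhds
  | succ n ih =>
    have h1 : Tendsto (fun k : ℕ => ((ℓ : ℚ_[ℓ]) ^ k)⁻¹ * (c k ^ n - 1) * c k +
        ((ℓ : ℚ_[ℓ]) ^ k)⁻¹ * (c k - 1)) atTop (𝓝 (n * z * 1 + z)) :=
      (Tendsto.mul ih h.lim).add h
    have h2 : (n : ℚ_[ℓ]) * z * 1 + z = ((n + 1 : ℕ) : ℚ_[ℓ]) * z := by
      push_cast
      ring
    rw [h2] at h1
    refine h1.congr fun k => ?_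
    show _ = ((ℓ : ℚ_[ℓ]) ^ k)⁻¹ * (c k ^ (n + 1) - 1)
    rw [pow_succ]
    ring

theorem Dn.zpow {c : ℕ → ℚ_[ℓ]} {z : ℚ_[ℓ]} (h : Dn c z) (hc : ∀ k, c k ≠ 0) (w : ℤ) :
    Dn (fun k => c k ^ w) (w * z) := by
  obtain ⟨n, rfl | rfl⟩ := w.eq_nat_or_neg
  · have := h.pow n
    simpa using this
  · have h1 := h.pow n
    have h2 : Tendsto (fun k => (c k ^ n)⁻¹) atTop (𝓝 1) := by
      have := (h1.lim).inv₀ one_ne_zero
      rwa [inv_one] at this
    have h3 : Tendsto (fun k : ℕ => -((((ℓ : ℚ_[ℓ]) ^ k)⁻¹ * (c k ^ n - 1)) * (c k ^ n)⁻¹)) atTop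
        (𝓝 (-(n * z * 1))) := (Tendsto.mul h1 h2).neg
    have h4 : -((n : ℚ_[ℓ]) * z * 1) = ((-(n : ℤ) : ℤ) : ℚ_[ℓ]) * z := by
      push_cast
      ring
    rw [h4] at h3
    refine h3.congr fun k => ?_
    show _ = ((ℓ : ℚ_[ℓ]) ^ k)⁻¹ * (c k ^ (-(n : ℤ)) - 1)
    rw [_root_.zpow_neg, zpow_natCast]
    have h5 : c k ^ n ≠ 0 := pow_ne_zero _ (hc k)
    field_simp
    ring

/-- the derivative of the similitude equation -/
theorem polar {blk : T → B} {b : B} {E : Matrix T T ℚ_[ℓ]} {o : T} {w : ℤ}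
    (ho : ∀ t, blk t = blk o → t = o)
    (hb : ∀ g, IsBlock blk (ρ g))
    (hp : ∀ g, ∀ s t, blk s = b → ((ρ g)ᵀ * E * ρ g) s t = (ρ g o o) ^ w * E s t) :
    ∀ Z ∈ sub ρ, ∀ s t, blk s = b → (Zᵀ * E + E * Z) s t = w * Z o o * E s t := by
  intro Z hZ s t hs
  obtain ⟨σ, hσ⟩ := (mem_iff ρ Z).1 hZ
  -- the left side
  have h1 : Tendsto (fun k : ℕ => (((ℓ : ℚ_[ℓ]) ^ k)⁻¹ • (ρ (σ k) - 1))ᵀ * E * ρ (σ k) +
      E * (((ℓ : ℚ_[ℓ]) ^ k)⁻¹ • (ρ (σ k) - 1))) atTop (𝓝 (Zᵀ * E * 1 + E * Z)) := by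
    apply Tendsto.add
    · apply Tendsto.mul _ hσ.lim
      apply Tendsto.mul _ tendsto_const_nhds
      exact ((Continuous.matrix_transpose continuous_id).tendsto _).comp hσ
    · exact tendsto_const_nhds.mul hσ
  rw [mul_one] at h1
  have h2 := ((continuous_id.matrix_elem s t).tendsto _).comp h1
  -- the right side
  have hoo : Dn (fun k => ρ (σ k) o o) (Z o o) := by
    have h3 := ((continuous_id.matrix_elem o o).tendsto _).comp hσ
    refine h3.congr fun k => ?_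
    simp only [Function.comp_apply, id, Matrix.smul_apply, Matrix.sub_apply, Matrix.one_apply_eq,
      smul_eq_mul]
  have hne : ∀ g, ρ g o o ≠ 0 := by
    intro g h0
    have h3 := congrFun (congrFun (inv1 ρ g) o) o
    rw [mul_apply, Matrix.one_apply_eq, Finset.sum_eq_single o, h0, zero_mul] at h3
    · exact zero_ne_one h3
    · intro r _ hr
      rw [hb g o r (fun h => hr (ho r h.symm)), zero_mul]
    · intro h
      exact absurd (Finset.mem_univ _) h
  have h3 := (hoo.zpow (fun k => hne _) w).mul_const (E s t)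
  refine tendsto_nhds_unique (h2.congr fun k => ?_) h3
  simp only [Function.comp_apply, id]
  have h4 := hp (σ k) s t hs
  generalize ρ (σ k) = A at *
  rw [transpose_smul, smul_mul_assoc, smul_mul_assoc, mul_smul_comm, ← smul_add,
    Matrix.smul_apply, smul_eq_mul]
  have h5 : (A - 1)ᵀ * E * A + E * (A - 1) = Aᵀ * E * A - E := by
    rw [transpose_sub, transpose_one]
    noncomm_ring
  rw [h5, Matrix.sub_apply, h4]
  ring

/-- the Lie algebra of an open subgroup -/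
theorem comm_open [TopologicalSpace Γ] [IsTopologicalGroup Γ] [CompactSpace Γ] (hρ : Continuous ρ)
    (U : Subgroup Γ) (hU : IsOpen (U : Set Γ)) {C : Matrix T T ℚ_[ℓ]}
    (h : ∀ g ∈ U, C * ρ g = ρ g * C) : ∀ Z ∈ sub ρ, C * Z = Z * C := by
  intro Z hZ
  obtain ⟨σ, hσ⟩ := (mem_iff ρ Z).1 hZ
  obtain ⟨g, hg, he⟩ := Pool.Agent.NH56.HY.Cnv.lift ρ hρ U hU U.one_mem σ hσ.lim
  have h1 : Tendsto (fun k : ℕ => C * (((ℓ : ℚ_[ℓ]) ^ k)⁻¹ • (ρ (σ k) - 1))) atTop
      (𝓝 (C * Z)) := tendsto_const_nhds.mul hσ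
  have h2 : Tendsto (fun k : ℕ => (((ℓ : ℚ_[ℓ]) ^ k)⁻¹ • (ρ (σ k) - 1)) * C) atTop
      (𝓝 (Z * C)) := Tendsto.mul hσ tendsto_const_nhds
  refine tendsto_nhds_unique h1 (h2.congr' ?_)
  filter_upwards [he] with k hk
  have h3 := h (g k) (hg k)
  rw [hk] at h3
  rw [mul_smul_comm, smul_mul_assoc, mul_sub, sub_mul, h3, mul_one, one_mul]

/-- a subspace stable under the group is stable under the Lie algebra -/
theorem stable (W : Submodule ℚ_[ℓ] (T → ℚ_[ℓ])) (hW : ∀ g, ∀ x ∈ W, ρ g *ᵥ x ∈ W) :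
    ∀ Z ∈ sub ρ, ∀ x ∈ W, Z *ᵥ x ∈ W := by
  intro Z hZ x hx
  obtain ⟨σ, hσ⟩ := (mem_iff ρ Z).1 hZ
  have h1 : Tendsto (fun k : ℕ => (((ℓ : ℚ_[ℓ]) ^ k)⁻¹ • (ρ (σ k) - 1)) *ᵥ x) atTop
      (𝓝 (Z *ᵥ x)) :=
    (((Continuous.matrix_mulVec continuous_id continuous_const).tendsto Z).comp hσ)
  have hcl : IsClosed (W : Set (T → ℚ_[ℓ])) := W.closed_of_finiteDimensional
  refine hcl.mem_of_tendsto h1 (Eventually.of_forall fun k => ?_)
  rw [smul_mulVec, sub_mulVec, one_mulVec]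
  exact W.smul_mem _ (sub_mem (hW _ x hx) hx)

section part

variable (p : T → Prop) [DecidablePred p]

/-- the part of a block diagonal matrix -/
def pt {F : Type} (p : T → Prop) (X : Matrix T T F) : Matrix {t // p t} {t // p t} F :=
  X.submatrix Subtype.val Subtype.val

/-- `X` has no entries between `p` and its complement -/
def Adapted {F : Type} [Zero F] (p : T → Prop) (X : Matrix T T F) : Prop :=
  ∀ s t, ¬ (p s ↔ p t) → X s t = 0

theorem pt_mul {F : Type} [Field F] {A C : Matrix T T F} (hA : Adapted p A) :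
    pt p (A * C) = pt p A * pt p C := by
  ext a b
  simp only [pt, submatrix_apply, mul_apply]
  have h1 : ∑ c, A a c * C c b = ∑ c ∈ Finset.univ.filter (fun c => p c), A a c * C c b := by
    symm
    apply Finset.sum_subset (Finset.subset_univ _)
    intro c _ hc
    have hc' : ¬ p c := by
      intro he
      apply hc
      simp only [Finset.mem_filter, Finset.mem_univ, true_and]
      exact he
    rw [hA a c (fun h => hc' (h.1 a.2)), zero_mul]
  rw [h1]
  exact Finset.sum_subtype _ (by simp) _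

theorem pt_one {F : Type} [Field F] : pt p (1 : Matrix T T F) = 1 := by
  ext a b
  simp only [pt, submatrix_apply, one_apply, Subtype.ext_iff]

theorem pt_pow {F : Type} [Field F] {A : Matrix T T F} (hA : Adapted p A) (n : ℕ) :
    pt p (A ^ n) = (pt p A) ^ n := by
  induction n with
  | zero => simp [pt_one]
  | succ n ih => rw [pow_succ', pt_mul p hA, ih, pow_succ']

theorem pt_smul_sub {F : Type} [Field F] (c : F) (A : Matrix T T F) :
    pt p (c • (A - 1)) = c • (pt p A - 1) := by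
  ext a b
  simp only [pt, submatrix_apply, Matrix.smul_apply, Matrix.sub_apply, one_apply, Subtype.ext_iff]

theorem pt_cont {F : Type} [TopologicalSpace F] : Continuous fun A : Matrix T T F => pt p A :=
  Continuous.matrix_submatrix continuous_id _ _

/-- the projection as a linear map -/
def ptl (F : Type) [Field F] (p : T → Prop) :
    Matrix T T F →ₗ[F] Matrix {t // p t} {t // p t} F where
  toFun X := pt p X
  map_add' _ _ := rfl
  map_smul' _ _ := rfl

/-- the representation on a summand -/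
noncomputable def prt (hA : ∀ g, Adapted p (ρ g)) : Γ →* Matrix {t // p t} {t // p t} ℚ_[ℓ] where
  toFun g := pt p (ρ g)
  map_one' := by rw [map_one, pt_one]
  map_mul' g g' := by rw [map_mul, pt_mul p (hA g)]

/-- the Lie algebra of the image on a direct summand is the projection of the Lie algebra -/
theorem part_image [TopologicalSpace Γ] [IsTopologicalGroup Γ] [CompactSpace Γ]
    (hρ : Continuous ρ) (hA : ∀ g, Adapted p (ρ g)) :
    LieImage (fun g => pt p (ρ g)) = (fun Z => pt p Z) '' LieImage ρ := by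
  apply Set.Subset.antisymm
  · intro Z hZ
    have hZ' : Z ∈ LieImage (prt ρ p hA) := hZ
    obtain ⟨σ, hσ⟩ := (mem_iff _ Z).1 hZ'
    obtain ⟨V, hV, h1V, hVs⟩ := nhd ρ hρ
    have hc : Continuous (prt ρ p hA) := (pt_cont p).comp hρ
    obtain ⟨g, hg, he⟩ := Pool.Agent.NH56.HY.Cnv.lift (prt ρ p hA) hc V hV h1V σ hσ.lim
    have hgs : ∀ k, g k ∈ small ρ := fun k => hVs _ (hg k)
    choose L hL hL2 hL3 using fun k => log_mem ρ (g k) (small_entry ρ (hgs k))
    -- the logarithms on the summand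
    have hs : ∀ k, ∀ i j, ‖(pt p (ρ (g k)) - 1) i j‖ ≤ ((ℓ : ℝ) ^ 2)⁻¹ := by
      intro k i j
      have h1 := pt_smul_sub p (1 : ℚ_[ℓ]) (ρ (g k))
      rw [one_smul, one_smul] at h1
      rw [← h1]
      exact small_entry ρ (hgs k) i j
    have hN : ∀ k, ‖pt p (ρ (g k)) - 1‖ ≤ ((ℓ : ℝ) ^ 2)⁻¹ := fun k =>
      (Matrix.norm_le_iff (by positivity)).2 (hs k)
    choose M hM1 hM2 hM3 using fun k => Pool.Agent.NH56.HY.t_LOG ℓ {t // p t} (pt p (ρ (g k)))
      ‖pt p (ρ (g k)) - 1‖ (hN k) (fun i j => Matrix.norm_entry_le_entrywise_sup_norm _)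
    have hLM : ∀ k, pt p (L k) = M k := by
      intro k
      have h3 := ((pt_cont p).tendsto (L k)).comp (hL2 k)
      refine tendsto_nhds_unique h3 ((hM1 k).congr fun m => ?_)
      simp only [Function.comp_apply]
      rw [pt_smul_sub, pt_pow p (hA _)]
    have hσ' : Tendsto (fun k : ℕ => ((ℓ : ℚ_[ℓ]) ^ k)⁻¹ • (pt p (ρ (g k)) - 1)) atTop (𝓝 Z) := by
      refine Tendsto.congr' ?_ hσ
      filter_upwards [he] with k hk
      have h1 : pt p (ρ (g k)) = prt ρ p hA (σ k) := hk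
      rw [h1]
    have h3 : Tendsto (fun k : ℕ => ((ℓ : ℚ_[ℓ]) ^ k)⁻¹ • M k) atTop (𝓝 Z) := by
      refine Pool.Agent.NH56.HY.Cnv.lim_sq _ _ _ 2 hσ' fun k => ?_
      refine (Matrix.norm_le_iff (by positivity)).2 fun a b => ?_
      exact hM2 k a b
    -- the projection is closed
    have hcl : IsClosed (((sub ρ).map (ptl ℚ_[ℓ] p) : Submodule ℚ_[ℓ]
        (Matrix {t // p t} {t // p t} ℚ_[ℓ])) : Set (Matrix {t // p t} {t // p t} ℚ_[ℓ])) :=
      Submodule.closed_of_finiteDimensional _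
    have h4 := hcl.mem_of_tendsto h3 (Eventually.of_forall fun k => by
      refine Submodule.smul_mem _ _ ?_
      rw [← hLM]
      exact ⟨L k, hL k, rfl⟩)
    obtain ⟨X, hX, hXZ⟩ := h4
    exact ⟨X, hX, hXZ⟩
  · rintro _ ⟨Z, ⟨σ, hσ⟩, rfl⟩
    refine ⟨σ, ?_⟩
    have h1 := ((pt_cont p).tendsto Z).comp hσ
    refine h1.congr fun k => ?_
    exact pt_smul_sub p _ _

end part

end Lie

end Pool.Agent.H4.HW
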