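import Pool.Agent.H4.HW.Core

/-!
# Burnside's theorem, and irreducibility after extension of the field
-/

set_option autoImplicit false
set_option linter.unusedSectionVars false

namespace Pool.Agent.H4.HW

open Matrix

/-- a set of operators which acts irreducibly with scalar commutant generates all operators -/
theorem burnside {k V : Type} [Field k] [AddCommGroup V] [Module k V] [FiniteDimensional k V]
    [Nontrivial V] (S : Set (Module.End k V))
    (irr : ∀ W : Submodule k V, (∀ f ∈ S, ∀ x ∈ W, f x ∈ W) → W = ⊥ ∨ W = ⊤)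
    (comm : ∀ C : Module.End k V, (∀ f ∈ S, C * f = f * C) → ∃ c : k, C = c • (1 : Module.End k V)) :
    Algebra.adjoin k S = ⊤ := by
  classical
  obtain ⟨𝒜, h𝒜⟩ : ∃ 𝒜, 𝒜 = Algebra.adjoin k S := ⟨_, rfl⟩
  have hS : ∀ f ∈ S, f ∈ 𝒜 := fun f hf => by rw [h𝒜]; exact Algebra.subset_adjoin hf
  have hsimple : IsSimpleModule 𝒜 V := by
    rw [isSimpleModule_iff]
    refine { exists_pair_ne := ⟨⊥, ⊤, bot_ne_top⟩, eq_bot_or_eq_top := ?_ }
    intro W
    rcases irr (W.restrictScalars k) (fun f hf x hx => W.smul_mem (⟨f, hS f hf⟩ : 𝒜) hx) with h | h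
    · left
      rw [eq_bot_iff]
      intro x hx
      have h1 : x ∈ W.restrictScalars k := hx
      rw [h] at h1
      exact h1
    · right
      rw [eq_top_iff]
      intro x _
      have h1 : x ∈ W.restrictScalars k := by rw [h]; trivial
      exact h1
  have hscal : ∀ φ : Module.End 𝒜 V, ∃ c : k, ∀ x, φ x = c • x := by
    intro φ
    obtain ⟨c, hc⟩ := comm (φ.restrictScalars k) (by
      intro f hf
      ext x
      exact φ.map_smul (⟨f, hS f hf⟩ : 𝒜) x)
    exact ⟨c, fun x => congrArg (fun g : Module.End k V => g x) hc⟩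
  rw [← h𝒜, eq_top_iff]
  intro g _
  let f : Module.End (Module.End 𝒜 V) V :=
    { toFun := g
      map_add' := map_add g
      map_smul' := by
        intro φ x
        obtain ⟨c, hc⟩ := hscal φ
        show g (φ x) = φ (g x)
        rw [hc, hc, map_smul] }
  obtain ⟨r, hr⟩ := jacobson_density (R := 𝒜) (M := V) f
    (Finset.univ.image (Module.finBasis k V))
  have h1 : g = (r : Module.End k V) := by
    apply (Module.finBasis k V).ext
    intro i
    exact hr _ (Finset.mem_image_of_mem _ (Finset.mem_univ i))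
  rw [h1]
  exact r.2

end Pool.Agent.H4.HW
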