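import Pool.Agent.H4.HW.Def

/-!
# Lie algebras which contain an operator with an isolated eigenvalue: the diagonal case
-/

set_option autoImplicit false
set_option linter.unusedSectionVars false

namespace Pool.Agent.H4.HW

open Matrix

section R

variable {F T B : Type} [Field F] [Fintype T] [DecidableEq T]

/-- the operator `z ↦ B(y, z) x - ε B(x, z) y` -/
def R (E : Matrix T T F) (ε : F) (x y : T → F) : Matrix T T F :=
  vecMulVec x (y ᵥ* E) - ε • vecMulVec y (x ᵥ* E)

variable (E : Matrix T T F) (ε : F)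

theorem R_apply (x y : T → F) (s t : T) :
    R E ε x y s t = x s * (y ᵥ* E) t - ε * (y s * (x ᵥ* E) t) := by
  simp only [R, Matrix.sub_apply, Matrix.smul_apply, vecMulVec_apply, smul_eq_mul]

theorem R_add_left (x x' y : T → F) : R E ε (x + x') y = R E ε x y + R E ε x' y := by
  ext s t
  simp only [R_apply, Matrix.add_apply, Pi.add_apply, Matrix.add_vecMul]
  ring

theorem R_smul_left (c : F) (x y : T → F) : R E ε (c • x) y = c • R E ε x y := by
  ext s t
  simp only [R_apply, Matrix.smul_apply, Pi.smul_apply, Matrix.smul_vecMul, smul_eq_mul]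
  ring

theorem R_add_right (x y y' : T → F) : R E ε x (y + y') = R E ε x y + R E ε x y' := by
  ext s t
  simp only [R_apply, Matrix.add_apply, Pi.add_apply, Matrix.add_vecMul]
  ring

theorem R_smul_right (c : F) (x y : T → F) : R E ε x (c • y) = c • R E ε x y := by
  ext s t
  simp only [R_apply, Matrix.smul_apply, Pi.smul_apply, Matrix.smul_vecMul, smul_eq_mul]
  ring

theorem R_zero_left (y : T → F) : R E ε 0 y = 0 := by
  have := R_smul_left E ε 0 0 y
  rwa [zero_smul, zero_smul] at this

theorem R_zero_right (x : T → F) : R E ε x 0 = 0 := by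
  have := R_smul_right E ε 0 x 0
  rwa [zero_smul, zero_smul] at this

theorem R_swap (hε : ε * ε = 1) (x y : T → F) : R E ε y x = (-ε) • R E ε x y := by
  ext s t
  simp only [R_apply, Matrix.smul_apply, smul_eq_mul]
  linear_combination (-(y s * (x ᵥ* E) t)) * hε

/-- the bilinear form -/
def bf (x y : T → F) : F := x ⬝ᵥ (E *ᵥ y)

theorem bf_add_left (x x' y : T → F) : bf E (x + x') y = bf E x y + bf E x' y := by
  simp only [bf, add_dotProduct]

theorem bf_smul_left (c : F) (x y : T → F) : bf E (c • x) y = c * bf E x y := by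
  simp only [bf, smul_dotProduct, smul_eq_mul]

theorem bf_add_right (x y y' : T → F) : bf E x (y + y') = bf E x y + bf E x y' := by
  simp only [bf, mulVec_add, dotProduct_add]

theorem bf_smul_right (c : F) (x y : T → F) : bf E x (c • y) = c * bf E x y := by
  simp only [bf, mulVec_smul, dotProduct_smul, smul_eq_mul]

theorem bf_vecMul (x y : T → F) : (x ᵥ* E) ⬝ᵥ y = bf E x y := by
  rw [bf, dotProduct_mulVec]

theorem R_mulVec (x y z : T → F) :
    R E ε x y *ᵥ z = bf E y z • x - (ε * bf E x z) • y := by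
  simp only [R, sub_mulVec, smul_mulVec, vecMulVec_mulVec, bf_vecMul]
  ext t
  simp only [Pi.sub_apply, Pi.smul_apply, smul_eq_mul, MulOpposite.smul_eq_mul_unop,
    MulOpposite.unop_op]
  ring

/-- the commutator with a similitude -/
theorem R_comm (Z : Matrix T T F) (c : F) (x y : T → F)
    (hx : x ᵥ* (E * Z) = c • (x ᵥ* E) - (Z *ᵥ x) ᵥ* E)
    (hy : y ᵥ* (E * Z) = c • (y ᵥ* E) - (Z *ᵥ y) ᵥ* E) :
    Z * R E ε x y - R E ε x y * Z = R E ε (Z *ᵥ x) y + R E ε x (Z *ᵥ y) - c • R E ε x y := by
  simp only [R, mul_sub, sub_mul, mul_smul_comm, smul_mul_assoc, mul_vecMulVec, vecMulVec_mul,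
    vecMul_vecMul, hx, hy]
  ext s t
  simp only [Matrix.sub_apply, Matrix.add_apply, Matrix.smul_apply, vecMulVec_apply, smul_eq_mul,
    Pi.sub_apply, Pi.smul_apply]
  ring

end R

end Pool.Agent.H4.HW
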