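import Pool.Agent.H4.HW.Core

/-!
# The diagonal case: the data, and the operators of rank two
-/

set_option autoImplicit false
set_option linter.unusedSectionVars false

namespace Pool.Agent.H4.HW

open Matrix

variable {F T B : Type} [Field F] [CharZero F] [Fintype T] [DecidableEq T]

/-- a Lie algebra `𝔤` of block diagonal matrices which contains the diagonal matrix `h` and acts on the
block `b` irreducibly and by similitudes, and an isolated eigenvalue `h o₁` -/
structure Hyp (blk : T → B) (b : B) (E : Matrix T T F) (ε w : F) (h : T → F)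
    (𝔤 : Submodule F (Matrix T T F)) (o₁ : T) : Prop where
  eps : ε = 1 ∨ ε = -1
  blkE : IsBlock blk E
  unitE : IsUnit E.det
  sym : ∀ s t, blk s = b → E t s = ε * E s t
  wt : ∀ s t, blk s = b → E s t ≠ 0 → h s + h t = w
  blkg : ∀ Z ∈ 𝔤, IsBlock blk Z
  brack : ∀ Z ∈ 𝔤, ∀ Z' ∈ 𝔤, Z * Z' - Z' * Z ∈ 𝔤
  theta : diagonal h ∈ 𝔤
  sim : ∀ Z ∈ 𝔤, ∃ c : F, ∀ s t, blk s = b → (Zᵀ * E + E * Z) s t = c * E s t
  irr : ∀ W : Submodule F (T → F), W ≤ space F blk b → (∀ Z ∈ 𝔤, ∀ x ∈ W, Z *ᵥ x ∈ W) →
    W = ⊥ ∨ W = space F blk b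
  ob : blk o₁ = b
  iso1 : ∀ t, blk t = b → h t = h o₁ → t = o₁
  iso2 : ∀ r s t, blk r = b → blk s = b → blk t = b → h o₁ + h r = h s + h t →
    s = o₁ ∨ t = o₁ ∨ h o₁ + h r = w
  across : ∀ t r s, blk t = b → t ≠ o₁ → blk r = blk s → blk r ≠ b → h t - h o₁ ≠ h r - h s

/-- a subspace stable under the commutator with a diagonal matrix is stable under the functions of
this commutator -/
theorem interp (h : T → F) (𝔤 : Submodule F (Matrix T T F))
    (hs : ∀ Z ∈ 𝔤, diagonal h * Z - Z * diagonal h ∈ 𝔤) (f : F → F) (Z : Matrix T T F)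
    (hZ : Z ∈ 𝔤) : (Matrix.of fun s t => f (h s - h t) * Z s t) ∈ 𝔤 := by
  classical
  have h1 : ∀ p : Polynomial F, (Matrix.of fun s t => p.eval (h s - h t) * Z s t) ∈ 𝔤 := by
    intro p
    induction p using Polynomial.induction_on' with
    | add p q hp hq =>
      have : (Matrix.of fun s t => (p + q).eval (h s - h t) * Z s t) =
          (Matrix.of fun s t => p.eval (h s - h t) * Z s t) +
          (Matrix.of fun s t => q.eval (h s - h t) * Z s t) := by
        ext s t
        simp only [of_apply, Matrix.add_apply, Polynomial.eval_add]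
        ring
      rw [this]
      exact add_mem hp hq
    | monomial n a =>
      induction n with
      | zero =>
        have : (Matrix.of fun s t => (Polynomial.monomial 0 a).eval (h s - h t) * Z s t) =
            a • Z := by
          ext s t
          simp only [of_apply, Matrix.smul_apply, Polynomial.eval_monomial, pow_zero, mul_one,
            smul_eq_mul]
        rw [this]
        exact 𝔤.smul_mem _ hZ
      | succ n ih =>
        have := hs _ ih
        convert this using 1
        ext s t
        simp only [of_apply, Matrix.sub_apply, Polynomial.eval_monomial, pow_succ,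
          diagonal_mul, mul_diagonal]
        ring
  let D : Finset F := Finset.univ.image fun p : T × T => h p.1 - h p.2
  have h2 := h1 (Lagrange.interpolate D id f)
  convert h2 using 1
  ext s t
  simp only [of_apply]
  congr 1
  have h3 : h s - h t ∈ D := Finset.mem_image.2 ⟨(s, t), Finset.mem_univ _, rfl⟩
  have h4 := Lagrange.eval_interpolate_at_node (s := D) (v := (id : F → F)) f
    (Function.injective_id.injOn) h3
  simp only [id] at h4
  exact h4.symm

namespace Hyp

variable {blk : T → B} {b : B} {E : Matrix T T F} {ε w : F} {h : T → F}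
  {𝔤 : Submodule F (Matrix T T F)} {o₁ : T}

theorem eps2 (H : Hyp blk b E ε w h 𝔤 o₁) : ε * ε = 1 := by
  rcases H.eps with h | h <;> rw [h] <;> ring

theorem eps0 (H : Hyp blk b E ε w h 𝔤 o₁) : ε ≠ 0 := by
  intro h0
  have := H.eps2
  rw [h0, zero_mul] at this
  exact zero_ne_one this

theorem fn (H : Hyp blk b E ε w h 𝔤 o₁) (f : F → F) {Z : Matrix T T F}
    (hZ : Z ∈ 𝔤) : (Matrix.of fun s t => f (h s - h t) * Z s t) ∈ 𝔤 :=
  interp h 𝔤 (fun _ hZ => H.brack _ H.theta _ hZ) f Z hZ

/-- the entries of the form are in the block -/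
theorem blkE' (H : Hyp blk b E ε w h 𝔤 o₁) {s t : T} (h1 : E s t ≠ 0) : blk s = blk t := by
  by_contra h2
  exact h1 (H.blkE s t h2)

/-- every index of the block has a dual index -/
theorem dual (H : Hyp blk b E ε w h 𝔤 o₁) (t : T) (ht : blk t = b) :
    ∃ t', blk t' = b ∧ h t' = w - h t ∧ E t t' ≠ 0 := by
  by_contra hc
  push Not at hc
  have h1 : ∀ t', E t t' = 0 := by
    intro t'
    by_contra h2
    have h3 := H.wt t t' ht h2
    exact h2 (hc t' ((H.blkE' h2).symm.trans ht) (by linear_combination h3))
  have h2 : E.det = 0 := Matrix.det_eq_zero_of_row_eq_zero t h1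
  have h3 := H.unitE
  rw [h2] at h3
  exact not_isUnit_zero h3

/-- a vector of the block orthogonal to the block is zero -/
theorem nondeg (H : Hyp blk b E ε w h 𝔤 o₁) (x : T → F) (hx : x ∈ space F blk b)
    (hy : ∀ y ∈ space F blk b, bf E x y = 0) : x = 0 := by
  have h1 : x ᵥ* E = 0 := by
    ext t
    by_cases ht : blk t = b
    · have h2 := hy (Pi.single t 1) (by
        intro s hs
        rw [Pi.single_apply, if_neg]
        rintro rfl
        exact hs ht)
      rw [← bf_vecMul, dotProduct_single, mul_one] at h2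
      rw [h2]
      rfl
    · simp only [vecMul, dotProduct, Pi.zero_apply]
      refine Finset.sum_eq_zero fun s _ => ?_
      by_cases hs : blk s = b
      · rw [H.blkE s t (by rw [hs]; exact fun h => ht h.symm), mul_zero]
      · rw [hx s hs, zero_mul]
  have h2 : x ᵥ* (E * E⁻¹) = 0 := by
    rw [← vecMul_vecMul, h1, zero_vecMul]
  rwa [Matrix.mul_nonsing_inv _ H.unitE, vecMul_one] at h2

/-- the dual of the isolated index -/
theorem exists_o₂ (H : Hyp blk b E ε w h 𝔤 o₁) : ∃ o₂, blk o₂ = b ∧ h o₂ = w - h o₁ ∧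
    E o₂ o₁ ≠ 0 ∧ ∀ t, blk t = b → h t = h o₂ → t = o₂ := by
  obtain ⟨o₂, h1, h2, h3⟩ := H.dual o₁ H.ob
  refine ⟨o₂, h1, h2, ?_, ?_⟩
  · rw [H.sym o₁ o₂ H.ob]
    exact mul_ne_zero H.eps0 h3
  · intro t ht htt
    by_contra hne
    -- the vector `E o₁ t • e_{o₂} - E o₁ o₂ • e_t` is orthogonal to the block
    have h4 : (E o₁ t • Pi.single o₂ 1 - E o₁ o₂ • Pi.single t 1 : T → F) = 0 := by
      apply H.nondeg
      · refine sub_mem (Submodule.smul_mem _ _ ?_) (Submodule.smul_mem _ _ ?_)
        · intro s hs
          rw [Pi.single_apply, if_neg]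
          rintro rfl
          exact hs h1
        · intro s hs
          rw [Pi.single_apply, if_neg]
          rintro rfl
          exact hs ht
      · intro y hy
        rw [← bf_vecMul]
        have h5 : (E o₁ t • Pi.single o₂ 1 - E o₁ o₂ • Pi.single t 1 : T → F) ᵥ* E = 
            fun r => E o₁ t * E o₂ r - E o₁ o₂ * E t r := by
          ext r
          simp only [sub_vecMul, smul_vecMul, single_one_vecMul, Pi.sub_apply, Pi.smul_apply,
            smul_eq_mul, row_apply]
        rw [h5]
        refine Finset.sum_eq_zero fun r _ => ?_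
        show (E o₁ t * E o₂ r - E o₁ o₂ * E t r) * y r = 0
        by_cases hr : r = o₁
        · rw [hr, H.sym o₁ o₂ H.ob, H.sym o₁ t H.ob]
          ring
        · have h6 : E o₂ r = 0 := by
            by_contra h7
            have h8 := H.wt o₂ r h1 h7
            exact hr (H.iso1 r ((H.blkE' h7).symm.trans h1) (by linear_combination h8 - h2))
          have h7 : E t r = 0 := by
            by_contra h7
            have h8 := H.wt t r ht h7
            exact hr (H.iso1 r ((H.blkE' h7).symm.trans ht) (by linear_combination h8 - h2 - htt))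
          rw [h6, h7, mul_zero, mul_zero, sub_zero, zero_mul]
    have h5 := congrFun h4 t
    simp only [Pi.sub_apply, Pi.smul_apply, Pi.single_apply, smul_eq_mul, if_neg hne, if_pos,
      mul_zero, mul_one, zero_sub, Pi.zero_apply, neg_eq_zero] at h5
    exact h3 h5

/-- the dual of the isolated index is isolated -/
theorem symm (H : Hyp blk b E ε w h 𝔤 o₁) {o₂ : T} (h1 : blk o₂ = b) (h2 : h o₂ = w - h o₁)
    (h3 : ∀ t, blk t = b → h t = h o₂ → t = o₂) : Hyp blk b E ε w h 𝔤 o₂ := by
  refine { H with ob := h1, iso1 := h3, iso2 := ?_, across := ?_ }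
  · intro r s t hr hs ht he
    obtain ⟨r', hr1, hr2, -⟩ := H.dual r hr
    obtain ⟨s', hs1, hs2, -⟩ := H.dual s hs
    obtain ⟨t', ht1, ht2, -⟩ := H.dual t ht
    have h4 : h o₁ + h r' = h s' + h t' := by
      rw [hr2, hs2, ht2]
      linear_combination (-1 : F) * he + h2
    rcases H.iso2 r' s' t' hr1 hs1 ht1 h4 with h5 | h5 | h5
    · left
      apply h3 s hs
      rw [h5] at hs2
      linear_combination hs2 - h2
    · right; left
      apply h3 t ht
      rw [h5] at ht2
      linear_combination ht2 - h2
    · right; right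
      rw [hr2] at h5
      linear_combination h2 - h5
  · intro t r s ht hne hrs hr he
    obtain ⟨t', ht1, ht2, -⟩ := H.dual t ht
    refine H.across t' s r ht1 ?_ hrs.symm (by rwa [← hrs]) ?_
    · intro h4
      apply hne
      apply h3 t ht
      rw [h4] at ht2
      linear_combination ht2 - h2
    · rw [ht2]
      linear_combination (-1 : F) * he - h2

/-- the data of the dual index -/
structure Dual (blk : T → B) (b : B) (E : Matrix T T F) (w : F) (h : T → F) (o₁ o₂ : T) : Prop where
  ob : blk o₂ = b
  ho : h o₂ = w - h o₁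
  ne : E o₂ o₁ ≠ 0
  uniq : ∀ t, blk t = b → h t = h o₂ → t = o₂

theorem Dual.symm (H : Hyp blk b E ε w h 𝔤 o₁) {o₂ : T} (D : Dual blk b E w h o₁ o₂) :
    Dual blk b E w h o₂ o₁ where
  ob := H.ob
  ho := by rw [D.ho]; ring
  ne := by
    intro h1
    apply D.ne
    rw [H.sym o₁ o₂ H.ob, h1, mul_zero]
  uniq := H.iso1

theorem row₂ (H : Hyp blk b E ε w h 𝔤 o₁) {o₂ : T} (D : Dual blk b E w h o₁ o₂) {t : T}
    (ht : t ≠ o₁) : E o₂ t = 0 := by
  by_contra h1
  have h2 := H.wt o₂ t D.ob h1
  exact ht (H.iso1 t ((H.blkE' h1).symm.trans D.ob) (by linear_combination h2 - D.ho))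

theorem row₁ (H : Hyp blk b E ε w h 𝔤 o₁) {o₂ : T} (D : Dual blk b E w h o₁ o₂) {t : T}
    (ht : t ≠ o₂) : E o₁ t = 0 := by
  by_contra h1
  have h2 := H.wt o₁ t H.ob h1
  exact ht (D.uniq t ((H.blkE' h1).symm.trans H.ob) (by linear_combination h2 - D.ho))

theorem col₂ (H : Hyp blk b E ε w h 𝔤 o₁) {o₂ : T} (D : Dual blk b E w h o₁ o₂) {t : T}
    (ht : t ≠ o₁) : E t o₂ = 0 := by
  rw [H.sym o₂ t D.ob, H.row₂ D ht, mul_zero]

theorem col₁ (H : Hyp blk b E ε w h 𝔤 o₁) {o₂ : T} (D : Dual blk b E w h o₁ o₂) {t : T}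
    (ht : t ≠ o₂) : E t o₁ = 0 := by
  rw [H.sym o₁ t H.ob, H.row₁ D ht, mul_zero]

/-- the column `o₁` of `Z` without the diagonal entry -/
noncomputable def col (blk : T → B) (b : B) (Z : Matrix T T F) (o₁ : T) : T → F :=
  open scoped Classical in fun s => if blk s = b ∧ s ≠ o₁ then Z s o₁ else 0

theorem col_pos {Z : Matrix T T F} {s : T} (h1 : blk s = b) (h2 : s ≠ o₁) :
    col blk b Z o₁ s = Z s o₁ := if_pos ⟨h1, h2⟩

theorem col_neg {Z : Matrix T T F} {s : T} (h1 : ¬ (blk s = b ∧ s ≠ o₁)) :
    col blk b Z o₁ s = 0 := if_neg h1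

theorem col_vecMul (H : Hyp blk b E ε w h 𝔤 o₁) {o₂ : T} (D : Dual blk b E w h o₁ o₂)
    {Z : Matrix T T F} (hZ : Z ∈ 𝔤) (t : T) (ht : blk t = b) (hto : t ≠ o₂) :
    (col blk b Z o₁ ᵥ* E) t = -(E o₁ o₂ * Z o₂ t) := by
  classical
  obtain ⟨c, hc⟩ := H.sim Z hZ
  have h1 := hc o₁ t H.ob
  rw [Matrix.add_apply, mul_apply, mul_apply, H.row₁ D hto, mul_zero] at h1
  have h2 : ∑ j, E o₁ j * Z j t = E o₁ o₂ * Z o₂ t := by
    refine Finset.sum_eq_single o₂ (fun j _ hj => ?_) (fun h => absurd (Finset.mem_univ _) h)
    rw [H.row₁ D hj, zero_mul]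
  have h3 : (col blk b Z o₁ ᵥ* E) t = ∑ j, Zᵀ o₁ j * E j t := by
    simp only [vecMul, dotProduct]
    refine Finset.sum_congr rfl fun j _ => ?_
    rw [transpose_apply]
    by_cases hj : blk j = b ∧ j ≠ o₁
    · rw [col_pos hj.1 hj.2]
    · rw [col_neg hj]
      by_cases h4 : j = o₁
      · rw [h4, H.row₁ D hto, mul_zero, mul_zero]
      · have h5 : blk j ≠ b := fun h5 => hj ⟨h5, h4⟩
        rw [H.blkg Z hZ j o₁ (by rw [H.ob]; exact h5)]
  rw [h3]
  rw [h2] at h1
  linear_combination h1

theorem col_vecMul₂ (H : Hyp blk b E ε w h 𝔤 o₁) {o₂ : T} (D : Dual blk b E w h o₁ o₂)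
    (Z : Matrix T T F) : (col blk b Z o₁ ᵥ* E) o₂ = 0 := by
  classical
  simp only [vecMul, dotProduct]
  refine Finset.sum_eq_zero fun j _ => ?_
  by_cases hj : j = o₁
  · rw [col_neg (fun h => h.2 hj), zero_mul]
  · rw [H.col₂ D hj, mul_zero]

theorem col_vecMul₃ (H : Hyp blk b E ε w h 𝔤 o₁) (Z : Matrix T T F) (t : T) (ht : blk t ≠ b) :
    (col blk b Z o₁ ᵥ* E) t = 0 := by
  classical
  simp only [vecMul, dotProduct]
  refine Finset.sum_eq_zero fun j _ => ?_
  by_cases hj : blk j = b
  · rw [H.blkE j t (by rw [hj]; exact fun h => ht h.symm), mul_zero]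
  · rw [col_neg (fun h => hj h.1), zero_mul]

/-- **Step A**: the operators of rank two in `𝔤` -/
theorem stepA (H : Hyp blk b E ε w h 𝔤 o₁) {o₂ : T} (D : Dual blk b E w h o₁ o₂)
    {Z : Matrix T T F} (hZ : Z ∈ 𝔤) :
    R E ε (col blk b Z o₁) (Pi.single o₂ 1) ∈ 𝔤 := by
  classical
  let f : F → F := fun l => if ∃ t', blk t' = b ∧ t' ≠ o₁ ∧ l = h t' - h o₁ then
    (if l = w - 2 * h o₁ then 2 else 1) else 0
  have hf : (Matrix.of fun s t => f (h s - h t) * Z s t) ∈ 𝔤 := H.fn f hZ
  have hκ : E o₁ o₂ = ε * E o₂ o₁ := by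
    rw [H.sym o₁ o₂ H.ob, ← mul_assoc, H.eps2, one_mul]
  have key : R E ε (col blk b Z o₁) (Pi.single o₂ 1) =
      E o₂ o₁ • (Matrix.of fun s t => f (h s - h t) * Z s t) := by
    ext s t
    rw [R_apply, Matrix.smul_apply, of_apply, smul_eq_mul, single_one_vecMul, row_apply]
    by_cases ht : t = o₁
    · subst ht
      by_cases hs : blk s = b
      · by_cases hso : s = t
        · subst hso
          have h1 : f (h s - h s) = 0 := by
            simp only [f]
            rw [if_neg]
            rintro ⟨t', h1, h2, h3⟩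
            exact h2 (H.iso1 t' h1 (by linear_combination -h3))
          have h2 : col blk b Z s s = 0 := col_neg (fun h => h.2 rfl)
          rw [h1, h2]
          by_cases h3 : o₂ = s
          · subst h3
            rw [H.col_vecMul₂ D]
            ring
          · rw [Pi.single_apply, if_neg (fun h => h3 h.symm)]
            ring
        · have h1 : col blk b Z t s = Z s t := col_pos hs hso
          have hex : ∃ t', blk t' = b ∧ t' ≠ t ∧ h s - h t = h t' - h t := ⟨s, hs, hso, rfl⟩
          rw [h1]
          by_cases h3 : s = o₂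
          · subst h3
            have h2 : f (h s - h t) = 2 := by
              simp only [f]
              rw [if_pos hex, if_pos (by rw [D.ho]; ring)]
            rw [h2, Pi.single_eq_same, H.col_vecMul D hZ t H.ob (fun h => hso h.symm), hκ]
            linear_combination (E s t * Z s t) * H.eps2
          · have h2 : f (h s - h t) = 1 := by
              simp only [f]
              rw [if_pos hex, if_neg]
              intro h4
              exact h3 (D.uniq s hs (by rw [D.ho]; linear_combination h4))
            rw [h2, Pi.single_eq_of_ne h3]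
            ring
      · have h1 : col blk b Z t s = 0 := col_neg (fun h => hs h.1)
        have h2 : s ≠ o₂ := by
          rintro rfl
          exact hs D.ob
        rw [h1, H.blkg Z hZ s t (by rw [H.ob]; exact hs), Pi.single_eq_of_ne h2]
        ring
    · rw [H.row₂ D ht, mul_zero, zero_sub]
      by_cases hs : s = o₂
      · subst hs
        rw [Pi.single_eq_same, one_mul]
        by_cases htb : blk t = b
        · by_cases hto : t = s
          · subst hto
            have h1 : f (h t - h t) = 0 := by
              simp only [f]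
              rw [if_neg]
              rintro ⟨t', h1, h2, h3⟩
              exact h2 (H.iso1 t' h1 (by linear_combination -h3))
            rw [h1, H.col_vecMul₂ D]
            ring
          · obtain ⟨t', ht1, ht2, -⟩ := H.dual t htb
            have h2 : f (h s - h t) = 1 := by
              simp only [f]
              rw [if_pos, if_neg]
              · intro h4
                rw [D.ho] at h4
                exact ht (H.iso1 t htb (by linear_combination -h4))
              · refine ⟨t', ht1, ?_, ?_⟩
                · rintro rfl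
                  exact hto (D.uniq t htb (by rw [D.ho]; linear_combination ht2))
                · rw [ht2, D.ho]
                  ring
            rw [h2, H.col_vecMul D hZ t htb hto, hκ]
            linear_combination (E s o₁ * Z s t) * H.eps2
        · rw [H.col_vecMul₃ Z t htb, H.blkg Z hZ s t (by rw [D.ob]; exact fun h => htb h.symm)]
          ring
      · rw [Pi.single_eq_of_ne hs]
        have h1 : f (h s - h t) * Z s t = 0 := by
          by_contra h2
          have h3 : f (h s - h t) ≠ 0 := fun h => h2 (by rw [h, zero_mul])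
          have h4 : Z s t ≠ 0 := fun h => h2 (by rw [h, mul_zero])
          have h5 : blk s = blk t := by
            by_contra h6
            exact h4 (H.blkg Z hZ s t h6)
          have h6 : ∃ t', blk t' = b ∧ t' ≠ o₁ ∧ h s - h t = h t' - h o₁ := by
            by_contra h7
            apply h3
            simp only [f]
            rw [if_neg h7]
          obtain ⟨t', h7, h8, h9⟩ := h6
          by_cases h10 : blk s = b
          · rcases H.iso2 s t' t h10 h7 (h5.symm.trans h10) (by linear_combination h9) with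
              h11 | h11 | h11
            · exact h8 h11
            · exact ht h11
            · exact hs (D.uniq s h10 (by rw [D.ho]; linear_combination h11))
          · exact H.across t' s t h7 h8 h5 h10 h9.symm
        rw [h1]
        ring
  rw [key]
  exact 𝔤.smul_mem _ hf

end Hyp

end Pool.Agent.H4.HW
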