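import Pool.Agent.H4.HW.Diag

/-!
# The diagonal case: the Lie algebra contains all skew operators of the block
-/

set_option autoImplicit false
set_option linter.unusedSectionVars false

namespace Pool.Agent.H4.HW

open Matrix

variable {F T B : Type} [Field F] [CharZero F] [Fintype T] [DecidableEq T]

/-- `x` without the coordinates `o₁` and `o₂` -/
def mp (o₁ o₂ : T) : (T → F) →ₗ[F] (T → F) where
  toFun x := fun s => if s = o₁ ∨ s = o₂ then 0 else x s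
  map_add' x y := by
    ext s
    simp only [Pi.add_apply]
    split_ifs <;> simp
  map_smul' c x := by
    ext s
    simp only [Pi.smul_apply, RingHom.id_apply]
    split_ifs <;> simp

theorem mp_apply (o₁ o₂ : T) (x : T → F) (s : T) :
    mp o₁ o₂ x s = if s = o₁ ∨ s = o₂ then 0 else x s := rfl

theorem mp_comm (o₁ o₂ : T) (x : T → F) : mp o₁ o₂ x = mp o₂ o₁ x := by
  ext s
  simp only [mp_apply, or_comm]

/-- `R x y` as a linear function of `x` -/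
def Rl (E : Matrix T T F) (ε : F) (y : T → F) : (T → F) →ₗ[F] Matrix T T F where
  toFun x := R E ε x y
  map_add' x x' := R_add_left E ε x x' y
  map_smul' c x := R_smul_left E ε c x y

/-- the vector of the standard basis -/
def e (o : T) : T → F := Pi.single o 1

theorem e_apply (o s : T) : (e o : T → F) s = if s = o then 1 else 0 := by
  rw [e, Pi.single_apply]

theorem e_self (o : T) : (e o : T → F) o = 1 := by rw [e_apply, if_pos rfl]

theorem e_ne {o s : T} (h : s ≠ o) : (e o : T → F) s = 0 := by rw [e_apply, if_neg h]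

theorem mem_e {blk : T → B} {b : B} {o : T} (h : blk o = b) : (e o : T → F) ∈ space F blk b := by
  intro s hs
  rw [e_ne]
  rintro rfl
  exact hs h

theorem mp_e₁ (o₁ o₂ : T) : mp o₁ o₂ (e o₁ : T → F) = 0 := by
  ext s
  rw [mp_apply]
  split_ifs with h
  · rfl
  · push Not at h
    rw [e_ne h.1]
    rfl

theorem mp_e₂ (o₁ o₂ : T) : mp o₁ o₂ (e o₂ : T → F) = 0 := by
  rw [mp_comm, mp_e₁]

theorem decomp {o₁ o₂ : T} (hne : o₁ ≠ o₂) (x : T → F) :
    x = x o₁ • e o₁ + x o₂ • e o₂ + mp o₁ o₂ x := by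
  ext s
  simp only [Pi.add_apply, Pi.smul_apply, smul_eq_mul, mp_apply, e_apply]
  by_cases h1 : s = o₁
  · subst h1
    simp [hne]
  · by_cases h2 : s = o₂
    · subst h2
      simp [h1]
    · simp [h1, h2]

theorem mp_space {blk : T → B} {b : B} {o₁ o₂ : T} {x : T → F} (h : x ∈ space F blk b) :
    mp o₁ o₂ x ∈ space F blk b := by
  intro s hs
  rw [mp_apply]
  split_ifs
  · rfl
  · exact h s hs

theorem mulVec_e (Z : Matrix T T F) (o s : T) : (Z *ᵥ e o) s = Z s o := by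
  rw [e, mulVec_single_one]
  rfl

/-- a block diagonal matrix acts on the block -/
theorem act_space {blk : T → B} {b : B} {Z : Matrix T T F} (hZ : IsBlock blk Z) {x : T → F}
    (hx : x ∈ space F blk b) : Z *ᵥ x ∈ space F blk b := by
  intro s hs
  simp only [mulVec, dotProduct]
  refine Finset.sum_eq_zero fun t _ => ?_
  by_cases ht : blk t = b
  · rw [hZ s t (by rw [ht]; exact hs), zero_mul]
  · rw [hx t ht, mul_zero]

namespace Hyp

variable {blk : T → B} {b : B} {E : Matrix T T F} {ε w : F} {h : T → F}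
  {𝔤 : Submodule F (Matrix T T F)} {o₁ o₂ : T}

/-- the derivative of the similitude equation, for vectors -/
theorem simv (H : Hyp blk b E ε w h 𝔤 o₁) {Z : Matrix T T F} (hZ : Z ∈ 𝔤) :
    ∃ c : F, ∀ x ∈ space F blk b, x ᵥ* (E * Z) = c • (x ᵥ* E) - (Z *ᵥ x) ᵥ* E := by
  obtain ⟨c, hc⟩ := H.sim Z hZ
  refine ⟨c, fun x hx => ?_⟩
  rw [← Matrix.vecMul_transpose, vecMul_vecMul]
  ext t
  simp only [Pi.sub_apply, Pi.smul_apply, vecMul, dotProduct, smul_eq_mul, Finset.mul_sum]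
  rw [← Finset.sum_sub_distrib]
  refine Finset.sum_congr rfl fun s _ => ?_
  by_cases hs : blk s = b
  · have h1 := hc s t hs
    rw [Matrix.add_apply] at h1
    linear_combination (x s) * h1
  · rw [hx s hs]
    ring

/-- the derivative of the similitude equation, for the form -/
theorem simb (H : Hyp blk b E ε w h 𝔤 o₁) {Z : Matrix T T F} (hZ : Z ∈ 𝔤) :
    ∃ c : F, ∀ x ∈ space F blk b, ∀ y : T → F, bf E (Z *ᵥ x) y + bf E x (Z *ᵥ y) = c * bf E x y := by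
  obtain ⟨c, hc⟩ := H.simv hZ
  refine ⟨c, fun x hx y => ?_⟩
  have h1 := congrArg (fun z => z ⬝ᵥ y) (hc x hx)
  have h2 : bf (E * Z) x y = bf E x (Z *ᵥ y) := by rw [bf, bf, mulVec_mulVec]
  rw [sub_dotProduct, smul_dotProduct, bf_vecMul, bf_vecMul, bf_vecMul, smul_eq_mul, h2] at h1
  linear_combination h1

theorem P2 (H : Hyp blk b E ε w h 𝔤 o₁) {Z : Matrix T T F} (hZ : Z ∈ 𝔤) {x y : T → F}
    (hx : x ∈ space F blk b) (hy : y ∈ space F blk b) (hR : R E ε x y ∈ 𝔤) :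
    R E ε (Z *ᵥ x) y + R E ε x (Z *ᵥ y) ∈ 𝔤 := by
  obtain ⟨c, hc⟩ := H.simv hZ
  have h1 := R_comm E ε Z c x y (hc x hx) (hc y hy)
  have h2 := add_mem (H.brack Z hZ _ hR) (𝔤.smul_mem c hR)
  rw [h1, sub_add_cancel] at h2
  exact h2

theorem Psw (H : Hyp blk b E ε w h 𝔤 o₁) {x y : T → F} (hR : R E ε x y ∈ 𝔤) :
    R E ε y x ∈ 𝔤 := by
  rw [R_swap E ε H.eps2]
  exact 𝔤.smul_mem _ hR

theorem bf_symm (H : Hyp blk b E ε w h 𝔤 o₁) {x : T → F} (hx : x ∈ space F blk b) (y : T → F) :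
    bf E y x = ε * bf E x y := by
  simp only [bf, dotProduct, mulVec, Finset.mul_sum]
  rw [Finset.sum_comm]
  refine Finset.sum_congr rfl fun s _ => Finset.sum_congr rfl fun t _ => ?_
  by_cases hs : blk s = b
  · rw [H.sym s t hs]
    ring
  · rw [hx s hs]
    ring

/-- the operators `R m e₂` in `𝔤` -/
def A (blk : T → B) (b : B) (E : Matrix T T F) (ε : F) (𝔤 : Submodule F (Matrix T T F))
    (o₁ o₂ : T) : Submodule F (T → F) where
  carrier := {x | x ∈ space F blk b ∧ x o₁ = 0 ∧ x o₂ = 0 ∧ R E ε x (e o₂) ∈ 𝔤}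
  add_mem' := by
    rintro x y ⟨h1, h2, h3, h4⟩ ⟨h5, h6, h7, h8⟩
    refine ⟨add_mem h1 h5, by rw [Pi.add_apply, h2, h6, add_zero],
      by rw [Pi.add_apply, h3, h7, add_zero], ?_⟩
    rw [R_add_left]
    exact add_mem h4 h8
  zero_mem' := ⟨zero_mem _, rfl, rfl, by rw [R_zero_left]; exact zero_mem _⟩
  smul_mem' := by
    rintro c x ⟨h1, h2, h3, h4⟩
    refine ⟨Submodule.smul_mem _ _ h1, by rw [Pi.smul_apply, h2, smul_zero],
      by rw [Pi.smul_apply, h3, smul_zero], ?_⟩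
    rw [R_smul_left]
    exact Submodule.smul_mem _ _ h4

theorem mem_A {x : T → F} : x ∈ A blk b E ε 𝔤 o₁ o₂ ↔
    x ∈ space F blk b ∧ x o₁ = 0 ∧ x o₂ = 0 ∧ R E ε x (e o₂) ∈ 𝔤 := Iff.rfl

/-- the part of `Z e₁` outside of `e₁` and `e₂` -/
theorem F1 (H : Hyp blk b E ε w h 𝔤 o₁) (D : Dual blk b E w h o₁ o₂)
    {Z : Matrix T T F} (hZ : Z ∈ 𝔤) : mp o₁ o₂ (Z *ᵥ e o₁) ∈ A blk b E ε 𝔤 o₁ o₂ := by
  classical
  refine ⟨mp_space (act_space (H.blkg Z hZ) (mem_e H.ob)), ?_, ?_, ?_⟩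
  · rw [mp_apply, if_pos (Or.inl rfl)]
  · rw [mp_apply, if_pos (Or.inr rfl)]
  · let φ : F → F := fun l => if l = w - 2 * h o₁ then 0 else 1
    have h1 : R E ε (col blk b (Matrix.of fun s t => φ (h s - h t) * Z s t) o₁) (e o₂) ∈ 𝔤 :=
      H.stepA D (H.fn φ hZ)
    convert h1 using 2
    ext s
    rw [mp_apply, mulVec_e]
    by_cases hs : blk s = b
    · by_cases hs1 : s = o₁
      · rw [if_pos (Or.inl hs1), col_neg (fun h => h.2 hs1)]
      · rw [col_pos hs hs1, of_apply]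
        by_cases hs2 : s = o₂
        · have h2 : φ (h s - h o₁) = 0 := by
            simp only [φ]
            rw [if_pos]
            rw [hs2, D.ho]
            ring
          rw [if_pos (Or.inr hs2), h2, zero_mul]
        · have h2 : φ (h s - h o₁) = 1 := by
            simp only [φ]
            rw [if_neg]
            intro h3
            exact hs2 (D.uniq s hs (by rw [D.ho]; linear_combination h3))
          rw [if_neg (by push Not; exact ⟨hs1, hs2⟩), h2, one_mul]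
    · rw [col_neg (fun h => hs h.1), H.blkg Z hZ s o₁ (by rw [H.ob]; exact hs), ite_self]

/-- the coordinate `o₂` of `Z e₁` -/
theorem F3 (H : Hyp blk b E ε w h 𝔤 o₁) (D : Dual blk b E w h o₁ o₂) (hne : o₁ ≠ o₂)
    {Z : Matrix T T F} (hZ : Z ∈ 𝔤) (h0 : Z o₂ o₁ ≠ 0) : R E ε (e o₂) (e o₂) ∈ 𝔤 := by
  classical
  let φ : F → F := fun l => if l = w - 2 * h o₁ then 1 else 0
  have h1 := H.stepA D (H.fn φ hZ)
  have h2 : col blk b (Matrix.of fun s t => φ (h s - h t) * Z s t) o₁ = Z o₂ o₁ • e o₂ := by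
    ext s
    rw [Pi.smul_apply, e_apply, smul_eq_mul]
    by_cases hs : blk s = b ∧ s ≠ o₁
    · rw [col_pos hs.1 hs.2, of_apply]
      by_cases hs2 : s = o₂
      · have h2 : φ (h s - h o₁) = 1 := by
          simp only [φ]
          rw [if_pos]
          rw [hs2, D.ho]
          ring
        rw [h2, if_pos hs2, hs2]
        ring
      · have h2 : φ (h s - h o₁) = 0 := by
          simp only [φ]
          rw [if_neg]
          intro h3
          exact hs2 (D.uniq s hs.1 (by rw [D.ho]; linear_combination h3))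
        rw [if_neg hs2, h2]
        ring
    · rw [col_neg hs, if_neg, mul_zero]
      rintro rfl
      exact hs ⟨D.ob, fun h => hne h.symm⟩
  rw [h2] at h1
  have h3 : R E ε (Z o₂ o₁ • e o₂) (e o₂) ∈ 𝔤 := h1
  rw [R_smul_left] at h3
  exact (𝔤.smul_mem_iff h0).1 h3

theorem bf_e₁ (H : Hyp blk b E ε w h 𝔤 o₁) (D : Dual blk b E w h o₁ o₂) (x : T → F) :
    bf E (e o₁) x = E o₁ o₂ * x o₂ := by
  rw [← bf_vecMul, e, single_one_vecMul]
  refine (Finset.sum_eq_single o₂ (fun j _ hj => ?_) (fun h => absurd (Finset.mem_univ _) h)).trans rfl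
  rw [row_apply, H.row₁ D hj, zero_mul]

theorem bf_e₂ (H : Hyp blk b E ε w h 𝔤 o₁) (D : Dual blk b E w h o₁ o₂) (x : T → F) :
    bf E (e o₂) x = E o₂ o₁ * x o₁ := by
  rw [← bf_vecMul, e, single_one_vecMul]
  refine (Finset.sum_eq_single o₁ (fun j _ hj => ?_) (fun h => absurd (Finset.mem_univ _) h)).trans rfl
  rw [row_apply, H.row₂ D hj, zero_mul]

theorem bf_e₁' (H : Hyp blk b E ε w h 𝔤 o₁) (D : Dual blk b E w h o₁ o₂) (x : T → F) :
    bf E x (e o₁) = E o₂ o₁ * x o₂ := by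
  rw [H.bf_symm (mem_e H.ob), H.bf_e₁ D, H.sym o₁ o₂ H.ob]
  ring

theorem bf_e₂' (H : Hyp blk b E ε w h 𝔤 o₁) (D : Dual blk b E w h o₁ o₂) (x : T → F) :
    bf E x (e o₂) = E o₁ o₂ * x o₁ := by
  rw [H.bf_symm (mem_e D.ob), H.bf_e₂ D, H.sym o₂ o₁ D.ob]
  ring

theorem F2 (H : Hyp blk b E ε w h 𝔤 o₁) (D : Dual blk b E w h o₁ o₂)
    {Z : Matrix T T F} (hZ : Z ∈ 𝔤) {m : T → F} (hm : m ∈ A blk b E ε 𝔤 o₁ o₂) :
    mp o₁ o₂ (Z *ᵥ m) ∈ A blk b E ε 𝔤 o₁ o₂ := by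
  have h1 := H.P2 hZ hm.1 (mem_e D.ob) hm.2.2.2
  have h2 := H.F1 D h1
  have h3 : (R E ε (Z *ᵥ m) (e o₂) + R E ε m (Z *ᵥ e o₂)) *ᵥ e o₁ =
      E o₂ o₁ • (Z *ᵥ m) - (ε * (E o₂ o₁ * (Z *ᵥ m) o₂)) • e o₂ +
        (E o₂ o₁ * (Z *ᵥ e o₂) o₂) • m := by
    rw [add_mulVec, R_mulVec, R_mulVec, H.bf_e₁' D, H.bf_e₁' D, H.bf_e₁' D, H.bf_e₁' D, e_self,
      hm.2.2.1, mul_one, mul_zero, mul_zero, zero_smul, sub_zero]
  rw [h3, map_add, map_sub, map_smul, map_smul, map_smul, mp_e₂, smul_zero, sub_zero] at h2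
  have h4 : mp o₁ o₂ m = m := by
    ext s
    rw [mp_apply]
    split_ifs with h5
    · rcases h5 with rfl | rfl
      · rw [hm.2.1]
      · rw [hm.2.2.1]
    · rfl
  rw [h4] at h2
  have h5 := sub_mem h2 (Submodule.smul_mem _ (E o₂ o₁ * (Z *ᵥ e o₂) o₂) hm)
  rw [add_sub_cancel_right] at h5
  exact (Submodule.smul_mem_iff _ D.ne).1 h5

theorem mp_self {m : T → F} (h1 : m o₁ = 0) (h2 : m o₂ = 0) : mp o₁ o₂ m = m := by
  ext s
  rw [mp_apply]
  split_ifs with h5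
  · rcases h5 with rfl | rfl
    · rw [h1]
    · rw [h2]
  · rfl

/-- the block is `F e₁ + F e₂ + A + A'` -/
theorem sup (H : Hyp blk b E ε w h 𝔤 o₁) (D : Dual blk b E w h o₁ o₂) (hne : o₁ ≠ o₂)
    (x : T → F) (hx : x ∈ space F blk b) :
    mp o₁ o₂ x ∈ A blk b E ε 𝔤 o₁ o₂ ⊔ A blk b E ε 𝔤 o₂ o₁ := by
  have H' : Hyp blk b E ε w h 𝔤 o₂ := H.symm D.ob D.ho D.uniq
  have D' : Dual blk b E w h o₂ o₁ := D.symm H
  obtain ⟨W, hW⟩ : ∃ W, W = space F blk b ⊓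
      (A blk b E ε 𝔤 o₁ o₂ ⊔ A blk b E ε 𝔤 o₂ o₁).comap (mp o₁ o₂) := ⟨_, rfl⟩
  have hst : ∀ Z ∈ 𝔤, ∀ x ∈ W, Z *ᵥ x ∈ W := by
    intro Z hZ x hx
    rw [hW] at hx ⊢
    refine ⟨act_space (H.blkg Z hZ) hx.1, ?_⟩
    obtain ⟨m, hm, m', hm', he⟩ := Submodule.mem_sup.1 hx.2
    rw [SetLike.mem_coe, Submodule.mem_comap]
    rw [decomp hne x, ← he, mulVec_add, mulVec_add, mulVec_add, mulVec_smul, mulVec_smul]
    simp only [map_add, map_smul]
    refine add_mem (add_mem (Submodule.smul_mem _ _ ?_) (Submodule.smul_mem _ _ ?_)) (add_mem ?_ ?_)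
    · exact Submodule.mem_sup_left (H.F1 D hZ)
    · refine Submodule.mem_sup_right ?_
      rw [mp_comm]
      exact H'.F1 D' hZ
    · exact Submodule.mem_sup_left (H.F2 D hZ hm)
    · refine Submodule.mem_sup_right ?_
      rw [mp_comm]
      exact H'.F2 D' hZ hm'
  rcases H.irr W (by rw [hW]; exact inf_le_left) hst with h1 | h1
  · exfalso
    have h2 : (e o₁ : T → F) ∈ W := by
      rw [hW]
      refine ⟨mem_e H.ob, ?_⟩
      rw [SetLike.mem_coe, Submodule.mem_comap, mp_e₁]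
      exact zero_mem _
    rw [h1] at h2
    have h3 := congrFun ((Submodule.mem_bot F).1 h2) o₁
    rw [e_self] at h3
    exact one_ne_zero h3
  · have h2 : x ∈ W := by rw [h1]; exact hx
    rw [hW] at h2
    exact h2.2

/-- if `A` is not isotropic, then `A' ⊆ A` -/
theorem nonis (H : Hyp blk b E ε w h 𝔤 o₁) (D : Dual blk b E w h o₁ o₂) (hne : o₁ ≠ o₂)
    {m x m' : T → F} (hm : m ∈ A blk b E ε 𝔤 o₁ o₂) (hx : x ∈ A blk b E ε 𝔤 o₁ o₂)
    (hmx : bf E m x ≠ 0) (hm' : m' ∈ A blk b E ε 𝔤 o₂ o₁) : m' ∈ A blk b E ε 𝔤 o₁ o₂ := by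
  have hκ : E o₁ o₂ = ε * E o₂ o₁ := by
    rw [H.sym o₁ o₂ H.ob, ← mul_assoc, H.eps2, one_mul]
  -- the first commutator
  have h1 := H.P2 hm.2.2.2 hm'.1 (mem_e H.ob) hm'.2.2.2
  rw [R_mulVec, R_mulVec, H.bf_e₂ D, H.bf_e₂ D, H.bf_e₁' D, hm.2.2.1, hm'.2.2.1, e_self, mul_zero,
    mul_zero, zero_smul, zero_smul, zero_sub, mul_one, sub_zero] at h1
  -- the second commutator
  have h2 := H.P2 h1 hx.1 (mem_e D.ob) hx.2.2.2
  have h3 : (R E ε (-((ε * bf E m m') • e o₂)) (e o₁) + R E ε m' (E o₂ o₁ • m)) *ᵥ x =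
      (E o₂ o₁ * bf E m x) • m' - (E o₂ o₁ * (ε * bf E m' x)) • m := by
    rw [add_mulVec, R_mulVec, R_mulVec, H.bf_e₁ D, ← neg_smul, bf_smul_left, H.bf_e₂ D,
      bf_smul_left, hx.2.1, hx.2.2.1]
    ext s
    simp only [Pi.add_apply, Pi.sub_apply, Pi.smul_apply, smul_eq_mul]
    ring
  have h4 : (R E ε (-((ε * bf E m m') • e o₂)) (e o₁) + R E ε m' (E o₂ o₁ • m)) *ᵥ e o₂ =
      (-(E o₂ o₁ * bf E m m')) • e o₂ := by
    rw [add_mulVec, R_mulVec, R_mulVec, H.bf_e₁ D, ← neg_smul, bf_smul_left, H.bf_e₂' D,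
      bf_smul_left, H.bf_e₂' D, H.bf_e₂' D, hm.2.1, hm'.2.2.1, e_self, e_ne hne, hκ]
    ext s
    simp only [Pi.add_apply, Pi.sub_apply, Pi.smul_apply, smul_eq_mul]
    linear_combination (-(bf E m m' * E o₂ o₁ * (e o₂ : T → F) s)) * H.eps2
  rw [h3, h4, R_smul_right] at h2
  have h5 : R E ε ((E o₂ o₁ * bf E m x) • m' - (E o₂ o₁ * (ε * bf E m' x)) • m) (e o₂) ∈ 𝔤 := by
    have := sub_mem h2 (𝔤.smul_mem (-(E o₂ o₁ * bf E m m')) hx.2.2.2)
    rwa [add_sub_cancel_right] at this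
  have h6 : R E ε ((E o₂ o₁ * bf E m x) • m') (e o₂) ∈ 𝔤 := by
    have := add_mem h5 (𝔤.smul_mem (E o₂ o₁ * (ε * bf E m' x)) hm.2.2.2)
    rw [← R_smul_left, ← R_add_left, sub_add_cancel] at this
    exact this
  rw [R_smul_left] at h6
  exact ⟨hm'.1, hm'.2.2.1, hm'.2.1, (𝔤.smul_mem_iff (mul_ne_zero D.ne hmx)).1 h6⟩

theorem claim1 (H : Hyp blk b E ε w h 𝔤 o₁) (D : Dual blk b E w h o₁ o₂) (hne : o₁ ≠ o₂) :
    (ε = -1 ∨ ∃ m x : T → F, m ∈ A blk b E ε 𝔤 o₁ o₂ ∧ x ∈ A blk b E ε 𝔤 o₁ o₂ ∧ bf E m x ≠ 0) ∧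
    R E ε (e o₂) (e o₂) ∈ 𝔤 ∧ ∀ x ∈ space F blk b, mp o₁ o₂ x ∈ A blk b E ε 𝔤 o₁ o₂ := by
  have hκ : E o₁ o₂ = ε * E o₂ o₁ := by
    rw [H.sym o₁ o₂ H.ob, ← mul_assoc, H.eps2, one_mul]
  have hfin : (∀ m' ∈ A blk b E ε 𝔤 o₂ o₁, m' ∈ A blk b E ε 𝔤 o₁ o₂) →
      ∀ x ∈ space F blk b, mp o₁ o₂ x ∈ A blk b E ε 𝔤 o₁ o₂ := by
    intro h1 x hx
    obtain ⟨m, hm, m', hm', he⟩ := Submodule.mem_sup.1 (H.sup D hne x hx)
    rw [← he]
    exact add_mem hm (h1 m' hm')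
  by_cases hA : ∃ m x : T → F, m ∈ A blk b E ε 𝔤 o₁ o₂ ∧ x ∈ A blk b E ε 𝔤 o₁ o₂ ∧ bf E m x ≠ 0
  · refine ⟨Or.inr hA, ?_, ?_⟩
    · obtain ⟨m, x, hm, hx, hmx⟩ := hA
      have h1 := H.P2 hm.2.2.2 hx.1 (mem_e D.ob) hx.2.2.2
      rw [R_mulVec, R_mulVec, H.bf_e₂ D, H.bf_e₂ D, H.bf_e₂' D, hm.2.1, hx.2.1, e_ne hne] at h1
      simp only [mul_zero, zero_smul, zero_sub, sub_zero] at h1
      rw [R_zero_right, add_zero, ← neg_smul, R_smul_left] at h1
      exact (𝔤.smul_mem_iff (neg_ne_zero.2 (mul_ne_zero H.eps0 hmx))).1 h1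
    · obtain ⟨m, x, hm, hx, hmx⟩ := hA
      exact hfin fun m' hm' => H.nonis D hne hm hx hmx hm'
  · by_cases hZ : ∃ Z ∈ 𝔤, Z o₂ o₁ ≠ 0
    · obtain ⟨Z, hZ, h0⟩ := hZ
      have hR := H.F3 D hne hZ h0
      have hε : ε = -1 := by
        rcases H.eps with h1 | h1
        · exfalso
          obtain ⟨c, hc⟩ := H.simb hZ
          have h2 := hc (e o₁) (mem_e H.ob) (e o₁)
          rw [H.bf_e₁' D, H.bf_e₁ D, H.bf_e₁ D, mulVec_e, e_ne hne.symm, hκ, h1] at h2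
          have h3 : 2 * (E o₂ o₁ * Z o₂ o₁) = 0 := by linear_combination h2
          rcases mul_eq_zero.1 h3 with h4 | h4
          · exact two_ne_zero h4
          · exact (mul_ne_zero D.ne h0) h4
        · exact h1
      refine ⟨Or.inl hε, hR, hfin fun m' hm' => ?_⟩
      have h1 := H.P2 hR hm'.1 (mem_e H.ob) hm'.2.2.2
      rw [R_mulVec, R_mulVec, H.bf_e₂ D, H.bf_e₂ D, hm'.2.2.1, e_self, hε, mul_zero,
        mul_zero, zero_smul, sub_zero, R_zero_left, zero_add] at h1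
      have h2 : (E o₂ o₁ * 1) • (e o₂ : T → F) - (-1 * (E o₂ o₁ * 1)) • e o₂ =
          (2 * E o₂ o₁) • e o₂ := by
        ext s
        simp only [Pi.sub_apply, Pi.smul_apply, smul_eq_mul]
        ring
      rw [h2, R_smul_right] at h1
      refine ⟨hm'.1, hm'.2.2.1, hm'.2.1, ?_⟩
      rw [hε]
      exact (𝔤.smul_mem_iff (mul_ne_zero two_ne_zero D.ne)).1 h1
    · exfalso
      push Not at hZ hA
      obtain ⟨W, hW⟩ : ∃ W, W = space F blk b ⊓ LinearMap.ker (LinearMap.proj (R := F)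
        (φ := fun _ : T => F) o₂) ⊓
        (A blk b E ε 𝔤 o₁ o₂).comap (mp o₁ o₂) := ⟨_, rfl⟩
      have hmem : ∀ x : T → F, x ∈ W ↔ x ∈ space F blk b ∧ x o₂ = 0 ∧
          mp o₁ o₂ x ∈ A blk b E ε 𝔤 o₁ o₂ := by
        intro x
        rw [hW]
        simp only [Submodule.mem_inf, LinearMap.mem_ker, LinearMap.proj_apply,
          Submodule.mem_comap, and_assoc]
      have hst : ∀ Z ∈ 𝔤, ∀ x ∈ W, Z *ᵥ x ∈ W := by
        intro Z hZ' x hx
        rw [hmem] at hx ⊢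
        obtain ⟨hx1, hx2, hx3⟩ := hx
        have hx4 : x = x o₁ • e o₁ + mp o₁ o₂ x := by
          conv_lhs => rw [decomp hne x, hx2, zero_smul, add_zero]
        refine ⟨act_space (H.blkg Z hZ') hx1, ?_, ?_⟩
        · rw [hx4, mulVec_add, mulVec_smul, Pi.add_apply, Pi.smul_apply, mulVec_e, hZ Z hZ',
            smul_zero, zero_add]
          obtain ⟨c, hc⟩ := H.simb hZ'
          have h1 := hc (e o₁) (mem_e H.ob) (mp o₁ o₂ x)
          have h2 : bf E (Z *ᵥ e o₁) (mp o₁ o₂ x) = 0 := by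
            rw [decomp hne (Z *ᵥ e o₁), mulVec_e, mulVec_e, hZ Z hZ', zero_smul, add_zero,
              bf_add_left, bf_smul_left, H.bf_e₁ D, hx3.2.2.1,
              hA _ _ (H.F1 D hZ') hx3]
            ring
          rw [h2, H.bf_e₁ D, H.bf_e₁ D, hx3.2.2.1, mul_zero, mul_zero, zero_add] at h1
          rcases mul_eq_zero.1 h1 with h3 | h3
          · exfalso
            rw [hκ] at h3
            exact mul_ne_zero H.eps0 D.ne h3
          · exact h3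
        · rw [hx4, mulVec_add, mulVec_smul, map_add, map_smul]
          exact add_mem (Submodule.smul_mem _ _ (H.F1 D hZ')) (H.F2 D hZ' hx3)
      have hW1 : W ≤ space F blk b := fun x hx => ((hmem x).1 hx).1
      have h1 : (e o₁ : T → F) ∈ W := by
        rw [hmem]
        refine ⟨mem_e H.ob, e_ne hne.symm, ?_⟩
        rw [mp_e₁]
        exact zero_mem _
      rcases H.irr W hW1 hst with h2 | h2
      · rw [h2] at h1
        have h3 := congrFun ((Submodule.mem_bot F).1 h1) o₁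
        rw [e_self] at h3
        exact one_ne_zero h3
      · have h3 : (e o₂ : T → F) ∈ W := by
          rw [h2]
          exact mem_e D.ob
        have h4 := ((hmem _).1 h3).2.1
        rw [e_self] at h4
        exact one_ne_zero h4

/-- from one vector to all vectors -/
theorem spread (H : Hyp blk b E ε w h 𝔤 o₁) (z : T → F) (hz : z ∈ space F blk b) (hz0 : z ≠ 0)
    (hzR : ∀ x ∈ space F blk b, R E ε x z ∈ 𝔤) :
    ∀ x ∈ space F blk b, ∀ y ∈ space F blk b, R E ε x y ∈ 𝔤 := by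
  obtain ⟨W, hW⟩ : ∃ W : Submodule F (T → F), ∀ x, x ∈ W ↔ x ∈ space F blk b ∧
      ∀ y ∈ space F blk b, R E ε x y ∈ 𝔤 := by
    refine ⟨{ carrier := {x | x ∈ space F blk b ∧ ∀ y ∈ space F blk b, R E ε x y ∈ 𝔤}
              add_mem' := ?_
              zero_mem' := ?_
              smul_mem' := ?_ }, fun x => Iff.rfl⟩
    · rintro x x' ⟨h1, h2⟩ ⟨h3, h4⟩
      refine ⟨add_mem h1 h3, fun y hy => ?_⟩
      rw [R_add_left]
      exact add_mem (h2 y hy) (h4 y hy)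
    · refine ⟨zero_mem _, fun y _ => ?_⟩
      rw [R_zero_left]
      exact zero_mem _
    · rintro c x ⟨h1, h2⟩
      refine ⟨Submodule.smul_mem _ _ h1, fun y hy => ?_⟩
      rw [R_smul_left]
      exact 𝔤.smul_mem _ (h2 y hy)
  have hst : ∀ Z ∈ 𝔤, ∀ x ∈ W, Z *ᵥ x ∈ W := by
    intro Z hZ x hx
    rw [hW] at hx ⊢
    refine ⟨act_space (H.blkg Z hZ) hx.1, fun y hy => ?_⟩
    have h1 := H.P2 hZ hx.1 hy (hx.2 y hy)
    have h2 := sub_mem h1 (hx.2 (Z *ᵥ y) (act_space (H.blkg Z hZ) hy))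
    rwa [add_sub_cancel_right] at h2
  have hzW : z ∈ W := (hW z).2 ⟨hz, fun y hy => H.Psw (hzR y hy)⟩
  rcases H.irr W (fun x hx => ((hW x).1 hx).1) hst with h1 | h1
  · rw [h1] at hzW
    exact absurd ((Submodule.mem_bot F).1 hzW) hz0
  · intro x hx y hy
    rw [← h1] at hx
    exact ((hW x).1 hx).2 y hy

theorem e_ne_zero (o : T) : (e o : T → F) ≠ 0 := by
  intro h1
  have h2 := congrFun h1 o
  rw [e_self] at h2
  exact one_ne_zero h2

/-- the case where the isolated eigenvalue is not self-dual -/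
theorem all₁ (H : Hyp blk b E ε w h 𝔤 o₁) (D : Dual blk b E w h o₁ o₂) (hne : o₁ ≠ o₂) :
    ∀ x ∈ space F blk b, ∀ y ∈ space F blk b, R E ε x y ∈ 𝔤 := by
  have hκ : E o₁ o₂ = ε * E o₂ o₁ := by
    rw [H.sym o₁ o₂ H.ob, ← mul_assoc, H.eps2, one_mul]
  have H' : Hyp blk b E ε w h 𝔤 o₂ := H.symm D.ob D.ho D.uniq
  have D' : Dual blk b E w h o₂ o₁ := D.symm H
  obtain ⟨h1, h2, h3⟩ := H.claim1 D hne
  obtain ⟨-, h5, h6⟩ := H'.claim1 D' hne.symm
  -- the operator `R e₁ e₂`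
  have h7 : R E ε (e o₁) (e o₂) ∈ 𝔤 := by
    by_cases hε : ε = -1
    · have h8 := H.P2 h5 (mem_e D.ob) (mem_e D.ob) h2
      rw [R_mulVec, H.bf_e₁ D, e_self, hκ, ← sub_smul, R_smul_left, R_smul_right,
        R_swap E ε H.eps2 (e o₁) (e o₂), smul_smul, ← add_smul, hε] at h8
      have h9 : (-1 * E o₂ o₁ * 1 - -1 * (-1 * E o₂ o₁ * 1)) +
          (-1 * E o₂ o₁ * 1 - -1 * (-1 * E o₂ o₁ * 1)) * (- -1) ≠ 0 := by
        have h10 : (-1 * E o₂ o₁ * 1 - -1 * (-1 * E o₂ o₁ * 1)) +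
          (-1 * E o₂ o₁ * 1 - -1 * (-1 * E o₂ o₁ * 1)) * (- -1) = (-4) * E o₂ o₁ := by ring
        rw [h10]
        exact mul_ne_zero (by norm_num) D.ne
      rw [hε]
      exact (𝔤.smul_mem_iff h9).1 h8
    · rcases h1 with h1 | ⟨m, x, hm, hx, hmx⟩
      · exact absurd h1 hε
      · -- both orders of the first commutator
        have hm' : m ∈ A blk b E ε 𝔤 o₂ o₁ := by
          have := h6 m hm.1
          rwa [mp_self hm.2.2.1 hm.2.1] at this
        have hx' : x ∈ A blk b E ε 𝔤 o₂ o₁ := by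
          have := h6 x hx.1
          rwa [mp_self hx.2.2.1 hx.2.1] at this
        have h8 := H.P2 hm.2.2.2 hx'.1 (mem_e H.ob) hx'.2.2.2
        have h9 := H.P2 hx.2.2.2 hm'.1 (mem_e H.ob) hm'.2.2.2
        rw [R_mulVec, R_mulVec, H.bf_e₂ D, H.bf_e₂ D, H.bf_e₁' D, hm.2.2.1, hx.2.1, e_self,
          mul_zero, mul_zero, zero_smul, zero_smul, zero_sub, mul_one, sub_zero, ← neg_smul,
          R_smul_left, R_smul_right] at h8
        rw [R_mulVec, R_mulVec, H.bf_e₂ D, H.bf_e₂ D, H.bf_e₁' D, hx.2.2.1, hm.2.1, e_self,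
          mul_zero, mul_zero, zero_smul, zero_smul, zero_sub, mul_one, sub_zero, ← neg_smul,
          R_smul_left, R_smul_right] at h9
        have h10 := add_mem h8 (𝔤.smul_mem ε h9)
        have h11 : (-(ε * bf E m x)) • R E ε (e o₂) (e o₁) + E o₂ o₁ • R E ε x m +
            ε • ((-(ε * bf E x m)) • R E ε (e o₂) (e o₁) + E o₂ o₁ • R E ε m x) =
            (-(2 * ε * bf E m x)) • R E ε (e o₂) (e o₁) := by
          rw [R_swap E ε H.eps2 m x, H.bf_symm hm.1 x]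
          ext s t
          simp only [Matrix.add_apply, Matrix.smul_apply, smul_eq_mul]
          linear_combination (-(ε * bf E m x * R E ε (e o₂) (e o₁) s t)) * H.eps2
        rw [h11] at h10
        have h12 : -(2 * ε * bf E m x) ≠ 0 :=
          neg_ne_zero.2 (mul_ne_zero (mul_ne_zero two_ne_zero H.eps0) hmx)
        exact H.Psw ((𝔤.smul_mem_iff h12).1 h10)
  refine H.spread (e o₂) (mem_e D.ob) (e_ne_zero _) fun x hx => ?_
  rw [decomp hne x, R_add_left, R_add_left, R_smul_left, R_smul_left]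
  exact add_mem (add_mem (𝔤.smul_mem _ h7) (𝔤.smul_mem _ h2)) (h3 x hx).2.2.2

/-- the case where the isolated eigenvalue is self-dual -/
theorem all₂ (H : Hyp blk b E ε w h 𝔤 o₁) (D : Dual blk b E w h o₁ o₁) :
    ∀ x ∈ space F blk b, ∀ y ∈ space F blk b, R E ε x y ∈ 𝔤 := by
  have hε : ε = 1 := by
    rcases H.eps with h1 | h1
    · exact h1
    · exfalso
      have h2 := H.sym o₁ o₁ H.ob
      rw [h1] at h2
      have h3 : 2 * E o₁ o₁ = 0 := by linear_combination h2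
      rcases mul_eq_zero.1 h3 with h4 | h4
      · exact two_ne_zero h4
      · exact D.ne h4
  have hee : R E ε (e o₁) (e o₁) = 0 := by
    ext s t
    rw [R_apply, hε, Matrix.zero_apply]
    ring
  obtain ⟨W, hW⟩ : ∃ W : Submodule F (T → F), ∀ x, x ∈ W ↔ x ∈ space F blk b ∧
      R E ε x (e o₁) ∈ 𝔤 := by
    refine ⟨{ carrier := {x | x ∈ space F blk b ∧ R E ε x (e o₁) ∈ 𝔤}
              add_mem' := ?_
              zero_mem' := ?_
              smul_mem' := ?_ }, fun x => Iff.rfl⟩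
    · rintro x x' ⟨h1, h2⟩ ⟨h3, h4⟩
      refine ⟨add_mem h1 h3, ?_⟩
      rw [R_add_left]
      exact add_mem h2 h4
    · refine ⟨zero_mem _, ?_⟩
      rw [R_zero_left]
      exact zero_mem _
    · rintro c x ⟨h1, h2⟩
      refine ⟨Submodule.smul_mem _ _ h1, ?_⟩
      rw [R_smul_left]
      exact 𝔤.smul_mem _ h2
  -- the image of `e₁`
  have hcol : ∀ Z ∈ 𝔤, R E ε (Z *ᵥ e o₁) (e o₁) ∈ 𝔤 := by
    intro Z hZ
    have h1 : Z *ᵥ e o₁ = col blk b Z o₁ + Z o₁ o₁ • e o₁ := by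
      ext s
      rw [mulVec_e, Pi.add_apply, Pi.smul_apply, smul_eq_mul]
      by_cases hs : blk s = b
      · by_cases hs1 : s = o₁
        · rw [hs1, col_neg (fun h => h.2 rfl), e_self]
          ring
        · rw [col_pos hs hs1, e_ne hs1]
          ring
      · rw [col_neg (fun h => hs h.1), H.blkg Z hZ s o₁ (by rw [H.ob]; exact hs), e_ne]
        · ring
        · rintro rfl
          exact hs H.ob
    rw [h1, R_add_left, R_smul_left, hee, smul_zero, add_zero]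
    exact H.stepA D hZ
  have hst : ∀ Z ∈ 𝔤, ∀ x ∈ W, Z *ᵥ x ∈ W := by
    intro Z hZ x hx
    rw [hW] at hx ⊢
    refine ⟨act_space (H.blkg Z hZ) hx.1, ?_⟩
    have h1 := hcol _ (H.P2 hZ hx.1 (mem_e H.ob) hx.2)
    have h2 : (R E ε (Z *ᵥ x) (e o₁) + R E ε x (Z *ᵥ e o₁)) *ᵥ e o₁ =
        E o₁ o₁ • (Z *ᵥ x) - (E o₁ o₁ * (Z *ᵥ x) o₁) • e o₁ + (E o₁ o₁ * (Z *ᵥ e o₁) o₁) • x -
          (E o₁ o₁ * x o₁) • (Z *ᵥ e o₁) := by
      rw [add_mulVec, R_mulVec, R_mulVec, H.bf_e₁' D, H.bf_e₁' D, H.bf_e₁' D, H.bf_e₁' D, e_self,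
        hε]
      ext s
      simp only [Pi.add_apply, Pi.sub_apply, Pi.smul_apply, smul_eq_mul]
      ring
    rw [h2, sub_eq_add_neg, sub_eq_add_neg, ← neg_smul, ← neg_smul, R_add_left, R_add_left,
      R_add_left, R_smul_left, R_smul_left, R_smul_left, R_smul_left, hee, smul_zero,
      add_zero] at h1
    have h3 := sub_mem (sub_mem h1 (𝔤.smul_mem (-(E o₁ o₁ * x o₁)) (hcol Z hZ)))
      (𝔤.smul_mem (E o₁ o₁ * (Z *ᵥ e o₁) o₁) hx.2)
    rw [add_sub_cancel_right, add_sub_cancel_right] at h3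
    exact (𝔤.smul_mem_iff D.ne).1 h3
  have h1 : (e o₁ : T → F) ∈ W := (hW _).2 ⟨mem_e H.ob, by rw [hee]; exact zero_mem _⟩
  rcases H.irr W (fun x hx => ((hW x).1 hx).1) hst with h2 | h2
  · rw [h2] at h1
    exact absurd ((Submodule.mem_bot F).1 h1) (e_ne_zero _)
  · refine H.spread (e o₁) (mem_e H.ob) (e_ne_zero _) fun x hx => ?_
    rw [← h2] at hx
    exact ((hW x).1 hx).2

/-- **The core theorem, diagonal case.** -/
theorem all (H : Hyp blk b E ε w h 𝔤 o₁) :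
    ∀ x ∈ space F blk b, ∀ y ∈ space F blk b, R E ε x y ∈ 𝔤 := by
  obtain ⟨o₂, h1, h2, h3, h4⟩ := H.exists_o₂
  by_cases hne : o₁ = o₂
  · subst hne
    exact H.all₂ ⟨h1, h2, h3, h4⟩
  · exact H.all₁ ⟨h1, h2, h3, h4⟩ hne

end Hyp

end Pool.Agent.H4.HW
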