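import Pool.Agent.H4.HW.Base

/-!
# The Lie algebra of the Mumford-Tate group
-/

set_option autoImplicit false
set_option linter.unusedSectionVars false

namespace Pool.Agent.H4.HW

open Matrix

variable {T : Type} [Fintype T] [DecidableEq T]

/-- the rational components of a complex matrix -/
theorem exists_comp (D : Matrix T T ℂ) : ∃ (r : ℕ) (c : Fin r → ℂ) (Dk : Fin r → Matrix T T ℚ),
    LinearIndependent ℚ c ∧ D = ∑ k, c k • (Dk k).map (algebraMap ℚ ℂ) := by
  obtain ⟨E, hE⟩ : ∃ E : Submodule ℚ ℂ, E = Submodule.span ℚ (Set.range fun ij : T × T =>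
    D ij.1 ij.2) := ⟨_, rfl⟩
  have hfin : Module.Finite ℚ E := by
    rw [hE]
    exact Module.Finite.span_of_finite ℚ (Set.finite_range _)
  obtain ⟨r, ⟨c⟩⟩ : ∃ r : ℕ, Nonempty (Module.Basis (Fin r) ℚ E) :=
    ⟨_, ⟨Module.finBasis ℚ E⟩⟩
  have hmem : ∀ i j, D i j ∈ E := fun i j => by
    rw [hE]
    exact Submodule.subset_span ⟨(i, j), rfl⟩
  refine ⟨r, fun k => (c k : ℂ), fun k => Matrix.of fun i j => c.repr ⟨D i j, hmem i j⟩ k,
    c.linearIndependent.map' E.subtype (Submodule.ker_subtype E), ?_⟩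
  ext i j
  have h1 := c.sum_repr ⟨D i j, hmem i j⟩
  have h2 := congrArg (fun z : E => (z : ℂ)) h1
  simp only [Submodule.coe_sum, Submodule.coe_smul] at h2
  rw [← h2, Matrix.sum_apply]
  refine Finset.sum_congr rfl fun k _ => ?_
  rw [Rat.smul_def, Matrix.smul_apply, map_apply, smul_eq_mul]
  show _ = (c k : ℂ) * algebraMap ℚ ℂ (c.repr ⟨D i j, hmem i j⟩ k)
  rw [mul_comm]
  rfl

/-- a rational functional which kills `D` kills the components -/
theorem comp_zero {r : ℕ} {c : Fin r → ℂ} {Dk : Fin r → Matrix T T ℚ}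
    (hc : LinearIndependent ℚ c) (f : Matrix T T ℚ →ₗ[ℚ] ℚ)
    (h : extf (F := ℂ) f (∑ k, c k • (Dk k).map (algebraMap ℚ ℂ)) = 0) : ∀ k, f (Dk k) = 0 := by
  rw [map_sum] at h
  refine Fintype.linearIndependent_iff.1 hc (fun k => f (Dk k)) ?_
  rw [← h]
  refine Finset.sum_congr rfl fun k _ => ?_
  rw [map_smul, extf_map, smul_eq_mul, Rat.smul_def, mul_comm]
  rfl

/-- `D` is in the extension of `L` if and only if the components of `D` are in `L` -/
theorem mem_extk_iff {r : ℕ} {c : Fin r → ℂ} {Dk : Fin r → Matrix T T ℚ}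
    (hc : LinearIndependent ℚ c) (L : Submodule ℚ (Matrix T T ℚ)) :
    (∑ k, c k • (Dk k).map (algebraMap ℚ ℂ)) ∈ extk ℂ L ↔ ∀ k, Dk k ∈ L := by
  constructor
  · intro h k
    by_contra hk
    obtain ⟨f, hf1, hf2⟩ := Submodule.exists_dual_map_eq_bot_of_notMem hk inferInstance
    have hf : ∀ x ∈ L, f x = 0 := by
      intro x hx
      have : f x ∈ L.map f := Submodule.mem_map_of_mem hx
      rw [hf2] at this
      exact (Submodule.mem_bot ℚ).1 this
    have h1 : extk ℂ L ≤ LinearMap.ker (extf (F := ℂ) f) := by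
      rw [extk, Submodule.span_le]
      rintro _ ⟨x, hx, rfl⟩
      show extf (F := ℂ) f (x.map (algebraMap ℚ ℂ)) = 0
      rw [extf_map, hf x hx, map_zero]
    exact hf1 (comp_zero hc f (h1 h) k)
  · intro h
    exact Submodule.sum_mem _ fun k _ => Submodule.smul_mem _ _ (extk_mem (h k))

/-- the components of `D` are in the Lie algebra of the Mumford-Tate group -/
theorem comp_mem {r : ℕ} {c : Fin r → ℂ} {Dk : Fin r → Matrix T T ℚ}
    (hc : LinearIndependent ℚ c) (k : Fin r) :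
    Dk k ∈ mtLie (∑ k, c k • (Dk k).map (algebraMap ℚ ℂ)) := by
  unfold mtLie
  rw [Submodule.mem_sInf]
  intro L hL
  exact (mem_extk_iff hc L).1 hL.2 k

theorem mtLie_brack (D : Matrix T T ℂ) : ∀ X ∈ mtLie D, ∀ Y ∈ mtLie D, X * Y - Y * X ∈ mtLie D := by
  intro x hx y hy
  unfold mtLie at *
  rw [Submodule.mem_sInf] at *
  intro L hL
  exact hL.1 x (hx L hL) y (hy L hL)

theorem mtLie_ext (D : Matrix T T ℂ) : D ∈ extk ℂ (mtLie D) := by
  obtain ⟨r, c, Dk, hc, rfl⟩ := exists_comp D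
  exact (mem_extk_iff hc _).2 fun k => comp_mem hc k

theorem mtLie_le {D : Matrix T T ℂ} {L : Submodule ℚ (Matrix T T ℚ)}
    (h1 : ∀ X ∈ L, ∀ Y ∈ L, X * Y - Y * X ∈ L) (h2 : D ∈ extk ℂ L) : mtLie D ≤ L :=
  sInf_le ⟨h1, h2⟩

/-- rational equations -/
theorem comp_eq {r : ℕ} {c : Fin r → ℂ} {Dk : Fin r → Matrix T T ℚ}
    (hc : LinearIndependent ℚ c) (u : T → T → ℚ)
    (h : ∑ i, ∑ j, (∑ k, c k • (Dk k).map (algebraMap ℚ ℂ)) i j * (u i j : ℂ) = 0) :
    ∀ k, ∑ i, ∑ j, Dk k i j * u i j = 0 := by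
  let f : Matrix T T ℚ →ₗ[ℚ] ℚ :=
    { toFun := fun X => ∑ i, ∑ j, X i j * u i j
      map_add' := fun X Y => by
        simp only [Matrix.add_apply, add_mul, Finset.sum_add_distrib]
      map_smul' := fun a X => by
        simp only [Matrix.smul_apply, smul_eq_mul, mul_assoc, Finset.mul_sum, RingHom.id_apply] }
  have hf : ∀ i j, f (Matrix.single i j 1) = u i j := by
    intro i j
    show ∑ a, ∑ b, Matrix.single i j (1 : ℚ) a b * u a b = u i j
    rw [Finset.sum_eq_single i, Finset.sum_eq_single j]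
    · rw [Matrix.single_apply_same, one_mul]
    · intro b _ hb
      rw [Matrix.single_apply_of_col_ne i i (fun h => hb h.symm), zero_mul]
    · intro h
      exact absurd (Finset.mem_univ _) h
    · intro a _ ha
      refine Finset.sum_eq_zero fun b _ => ?_
      rw [Matrix.single_apply_of_row_ne (fun h => ha h.symm), zero_mul]
    · intro h
      exact absurd (Finset.mem_univ _) h
  refine comp_zero hc f ?_
  rw [← h]
  show ∑ i, ∑ j, _ * algebraMap ℚ ℂ (f (Matrix.single i j 1)) = _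
  refine Finset.sum_congr rfl fun i _ => Finset.sum_congr rfl fun j _ => ?_
  rw [hf]
  rfl

end Pool.Agent.H4.HW
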