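import Pool.Agent.H4.HW.Fin
import Pool.Agent.H4.HW.Burn

/-!
# Irreducibility of a block after extension of the field, and descent
-/

set_option autoImplicit false
set_option linter.unusedSectionVars false

namespace Pool.Agent.H4.HW

open Matrix

variable {k F T B : Type} [Field k] [CharZero k] [Field F] [CharZero F] [Algebra k F] [Fintype T]
  [DecidableEq T]

/-- the extension of the matrices of a subspace -/
def extk (F : Type) [Field F] [Algebra k F] (𝔤 : Submodule k (Matrix T T k)) :
    Submodule F (Matrix T T F) :=
  Submodule.span F ((fun Z : Matrix T T k => Z.map (algebraMap k F)) '' 𝔤)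

theorem extk_mem {𝔤 : Submodule k (Matrix T T k)} {Z : Matrix T T k} (h : Z ∈ 𝔤) :
    Z.map (algebraMap k F) ∈ extk F 𝔤 := Submodule.subset_span ⟨Z, h, rfl⟩

theorem map_mul' (A C : Matrix T T k) : (A * C).map (algebraMap k F) =
    A.map (algebraMap k F) * C.map (algebraMap k F) := Matrix.map_mul

theorem map_sub' (A C : Matrix T T k) : (A - C).map (algebraMap k F) =
    A.map (algebraMap k F) - C.map (algebraMap k F) := by
  ext s t
  simp

/-- the extension of a functional -/
noncomputable def extf (f : Matrix T T k →ₗ[k] k) : Matrix T T F →ₗ[F] F where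
  toFun M := ∑ i, ∑ j, M i j * algebraMap k F (f (Matrix.single i j 1))
  map_add' M N := by
    simp only [Matrix.add_apply, add_mul, Finset.sum_add_distrib]
  map_smul' c M := by
    simp only [Matrix.smul_apply, smul_eq_mul, mul_assoc, Finset.mul_sum, RingHom.id_apply]

theorem extf_map (f : Matrix T T k →ₗ[k] k) (x : Matrix T T k) :
    extf (F := F) f (x.map (algebraMap k F)) = algebraMap k F (f x) := by
  have h1 : f x = ∑ i, ∑ j, x i j * f (Matrix.single i j 1) := by
    conv_lhs => rw [Matrix.matrix_eq_sum_single x]
    rw [map_sum]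
    refine Finset.sum_congr rfl fun i _ => ?_
    rw [map_sum]
    refine Finset.sum_congr rfl fun j _ => ?_
    have e : Matrix.single i j (x i j) = x i j • Matrix.single i j (1 : k) := by
      rw [Matrix.smul_single, smul_eq_mul, mul_one]
    rw [e, map_smul, smul_eq_mul]
  rw [h1]
  show ∑ i, ∑ j, (x.map (algebraMap k F)) i j * algebraMap k F (f (Matrix.single i j 1)) = _
  simp only [map_sum, map_mul, Matrix.map_apply]

/-- descent: a matrix over `k` in the extension of `𝔤` is in `𝔤` -/
theorem descent {𝔤 : Submodule k (Matrix T T k)} {X : Matrix T T k}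
    (h : X.map (algebraMap k F) ∈ extk F 𝔤) : X ∈ 𝔤 := by
  by_contra hX
  obtain ⟨f, hf1, hf2⟩ := Submodule.exists_dual_map_eq_bot_of_notMem hX inferInstance
  have hf : ∀ x ∈ 𝔤, f x = 0 := by
    intro x hx
    have : f x ∈ 𝔤.map f := Submodule.mem_map_of_mem hx
    rw [hf2] at this
    exact (Submodule.mem_bot k).1 this
  have h1 : extk F 𝔤 ≤ LinearMap.ker (extf (F := F) f) := by
    rw [extk, Submodule.span_le]
    rintro _ ⟨x, hx, rfl⟩
    show extf (F := F) f (x.map (algebraMap k F)) = 0
    rw [extf_map, hf x hx, map_zero]
  have h2 : extf (F := F) f (X.map (algebraMap k F)) = 0 := h1 h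
  rw [extf_map] at h2
  exact hf1 ((map_eq_zero _).1 h2)

/-- the extension is closed under commutators -/
theorem extk_brack {𝔤 : Submodule k (Matrix T T k)}
    (h : ∀ Z ∈ 𝔤, ∀ Z' ∈ 𝔤, Z * Z' - Z' * Z ∈ 𝔤) :
    ∀ Z ∈ extk F 𝔤, ∀ Z' ∈ extk F 𝔤, Z * Z' - Z' * Z ∈ extk F 𝔤 := by
  intro Z hZ Z' hZ'
  induction hZ using Submodule.span_induction with
  | mem x hx =>
    obtain ⟨x, hx, rfl⟩ := hx
    induction hZ' using Submodule.span_induction with
    | mem y hy =>
      obtain ⟨y, hy, rfl⟩ := hy
      have := extk_mem (F := F) (h x hx y hy)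
      rwa [map_sub', map_mul', map_mul'] at this
    | zero => rw [mul_zero, zero_mul, sub_zero]; exact zero_mem _
    | add y y' _ _ h1 h2 =>
      rw [mul_add, add_mul, add_sub_add_comm]
      exact add_mem h1 h2
    | smul c y _ h1 =>
      rw [mul_smul_comm, smul_mul_assoc, ← smul_sub]
      exact Submodule.smul_mem _ _ h1
  | zero => rw [mul_zero, zero_mul, sub_zero]; exact zero_mem _
  | add y y' _ _ h1 h2 =>
    rw [mul_add, add_mul, add_sub_add_comm]
    exact add_mem h1 h2
  | smul c y _ h1 =>
    rw [mul_smul_comm, smul_mul_assoc, ← smul_sub]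
    exact Submodule.smul_mem _ _ h1

/-- the projection to a block -/
noncomputable def pr (F : Type) [Field F] (blk : T → B) (b : B) : (T → F) →ₗ[F] (T → F) :=
  open scoped Classical in
  { toFun := fun x s => if blk s = b then x s else 0
    map_add' := by
      intro x y
      ext s
      simp only [Pi.add_apply]
      split_ifs <;> simp
    map_smul' := by
      intro c x
      ext s
      simp only [Pi.smul_apply, RingHom.id_apply]
      split_ifs <;> simp }

theorem pr_pos {blk : T → B} {b : B} {s : T} (x : T → F) (h : blk s = b) : pr F blk b x s = x s :=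
  if_pos h

theorem pr_neg {blk : T → B} {b : B} {s : T} (x : T → F) (h : blk s ≠ b) : pr F blk b x s = 0 :=
  if_neg h

theorem pr_mem {blk : T → B} {b : B} (x : T → F) : pr F blk b x ∈ space F blk b :=
  fun _ hs => pr_neg x hs

theorem pr_self {blk : T → B} {b : B} {x : T → F} (h : x ∈ space F blk b) : pr F blk b x = x := by
  ext s
  by_cases hs : blk s = b
  · rw [pr_pos x hs]
  · rw [pr_neg x hs, h s hs]

/-- `pr` with values in the block -/
noncomputable def prV (k : Type) [Field k] [CharZero k] (blk : T → B) (b : B) : (T → k) →ₗ[k] space k blk b :=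
  (pr k blk b).codRestrict _ pr_mem

theorem prV_coe {blk : T → B} {b : B} (x : space k blk b) : prV k blk b (x : T → k) = x := by
  apply Subtype.ext
  exact pr_self x.2

/-- the matrix of an operator on a block -/
noncomputable def mt {blk : T → B} {b : B} (f : Module.End k (space k blk b)) : Matrix T T k :=
  LinearMap.toMatrix' ((space k blk b).subtype ∘ₗ f ∘ₗ prV k blk b)

theorem mt_mulVec {blk : T → B} {b : B} (f : Module.End k (space k blk b)) (x : T → k) :
    mt f *ᵥ x = f (prV k blk b x) := by
  rw [mt, LinearMap.toMatrix'_mulVec]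
  rfl

theorem mt_ext {A C : Matrix T T k} (h : ∀ x : T → k, A *ᵥ x = C *ᵥ x) : A = C :=
  Matrix.toLin'.injective (LinearMap.ext h)

theorem mt_mul {blk : T → B} {b : B} (f g : Module.End k (space k blk b)) :
    mt (f * g) = mt f * mt g := by
  apply mt_ext
  intro x
  rw [← mulVec_mulVec, mt_mulVec, mt_mulVec, mt_mulVec, prV_coe]
  rfl

theorem mt_add {blk : T → B} {b : B} (f g : Module.End k (space k blk b)) :
    mt (f + g) = mt f + mt g := by
  apply mt_ext
  intro x
  rw [add_mulVec, mt_mulVec, mt_mulVec, mt_mulVec]
  rfl

/-- the conditions on a block over the field `k` -/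
structure AbsIrr (blk : T → B) (b : B) (𝔤 : Submodule k (Matrix T T k)) : Prop where
  blkg : ∀ Z ∈ 𝔤, IsBlock blk Z
  irr : ∀ W : Submodule k (T → k), W ≤ space k blk b → (∀ Z ∈ 𝔤, ∀ x ∈ W, Z *ᵥ x ∈ W) →
    W = ⊥ ∨ W = space k blk b
  comm : ∀ C : Matrix T T k, (∀ s t, C s t ≠ 0 → blk s = b ∧ blk t = b) →
    (∀ Z ∈ 𝔤, C * Z = Z * C) → ∃ c : k, ∀ x ∈ space k blk b, C *ᵥ x = c • x

theorem map_mulVec' (Z : Matrix T T k) (x : T → k) :
    (Z *ᵥ x) = fun s => ∑ t, Z s t * x t := rfl

/-- the operators on the block given by elements of `𝔤` -/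
def ops (blk : T → B) (b : B) (𝔤 : Submodule k (Matrix T T k)) :
    Set (Module.End k (space k blk b)) :=
  {f | ∃ Z ∈ 𝔤, ∀ x : space k blk b, (f x : T → k) = Z *ᵥ (x : T → k)}

/-- the operators given by elements of `𝔤` generate all operators -/
theorem AbsIrr.top {blk : T → B} {b : B} {𝔤 : Submodule k (Matrix T T k)} (H : AbsIrr blk b 𝔤)
    (hex : ∃ o, blk o = b) : Algebra.adjoin k (ops blk b 𝔤) = ⊤ := by
  classical
  obtain ⟨o, ho⟩ := hex
  have hnt : Nontrivial (space k blk b) := by
    refine ⟨⟨⟨e o, mem_e ho⟩, 0, ?_⟩⟩
    intro h1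
    have h2 : (e o : T → k) o = 0 := congrFun (congrArg Subtype.val h1) o
    rw [e_self] at h2
    exact one_ne_zero h2
  -- the operators on the block
  obtain ⟨S, hS⟩ : ∃ S : Set (Module.End k (space k blk b)), S = ops blk b 𝔤 := ⟨_, rfl⟩
  have hZS : ∀ Z ∈ 𝔤, ∃ f ∈ S, ∀ x : space k blk b, (f x : T → k) = Z *ᵥ (x : T → k) := by
    intro Z hZ
    refine ⟨(Matrix.toLin' Z).restrict (p := space k blk b) (q := space k blk b) ?_, ?_, ?_⟩
    · intro x hx
      rw [toLin'_apply]
      exact act_space (H.blkg Z hZ) hx
    · rw [hS]
      refine ⟨Z, hZ, fun x => ?_⟩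
      rw [LinearMap.coe_restrict_apply, toLin'_apply]
    · intro x
      rw [LinearMap.coe_restrict_apply, toLin'_apply]
  rw [← hS]
  exact burnside S (by
    intro W' hW'
    rcases H.irr (W'.map (space k blk b).subtype) (by
        rintro _ ⟨x, -, rfl⟩
        exact x.2) (by
        rintro Z hZ _ ⟨x, hx, rfl⟩
        obtain ⟨f, hf, hf2⟩ := hZS Z hZ
        exact ⟨f x, hW' f hf x hx, hf2 x⟩) with h1 | h1
    · left
      rw [eq_bot_iff]
      intro x hx
      have h2 : (x : T → k) ∈ W'.map (space k blk b).subtype := ⟨x, hx, rfl⟩
      rw [h1, Submodule.mem_bot] at h2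
      rw [Submodule.mem_bot]
      exact Subtype.ext h2
    · right
      rw [eq_top_iff]
      intro x _
      have h2 : (x : T → k) ∈ W'.map (space k blk b).subtype := by rw [h1]; exact x.2
      obtain ⟨y, hy, hyx⟩ := h2
      have h3 : y = x := Subtype.ext hyx
      rwa [← h3]) (by
    intro C hC
    obtain ⟨c, hc⟩ := H.comm (mt C) (by
        intro s t hst
        constructor
        · by_contra h1
          apply hst
          have h2 : (mt C *ᵥ e t) s = 0 := by
            rw [mt_mulVec]
            exact (C (prV k blk b (e t))).2 s h1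
          rwa [mulVec_e] at h2
        · by_contra h1
          apply hst
          have h2 : prV k blk b (e t) = 0 := by
            apply Subtype.ext
            ext s
            show pr k blk b (e t) s = 0
            by_cases hs : blk s = b
            · rw [pr_pos _ hs, e_ne]
              rintro rfl
              exact h1 hs
            · rw [pr_neg _ hs]
          have h3 : (mt C *ᵥ e t) s = 0 := by
            rw [mt_mulVec, h2, map_zero]
            rfl
          rwa [mulVec_e] at h3) (by
        intro Z hZ
        obtain ⟨f, hf, hf2⟩ := hZS Z hZ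
        have h1 : mt (C * f) = mt (f * C) := by rw [hC f hf]
        have h2 : ∀ x : T → k, prV k blk b (Z *ᵥ x) = f (prV k blk b x) := by
          intro x
          apply Subtype.ext
          rw [hf2]
          show pr k blk b (Z *ᵥ x) = Z *ᵥ (pr k blk b x)
          ext s
          by_cases hs : blk s = b
          · rw [pr_pos _ hs]
            simp only [mulVec, dotProduct]
            refine Finset.sum_congr rfl fun t _ => ?_
            by_cases ht : blk t = b
            · rw [pr_pos _ ht]
            · rw [H.blkg Z hZ s t (by rw [hs]; exact fun h => ht h.symm), zero_mul, zero_mul]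
          · rw [pr_neg _ hs, act_space (H.blkg Z hZ) (pr_mem x) s hs]
        apply mt_ext
        intro x
        rw [← mulVec_mulVec, ← mulVec_mulVec, mt_mulVec, mt_mulVec, h2, ← hf2]
        exact congrArg (fun g : Module.End k (space k blk b) => (g (prV k blk b x) : T → k))
          (hC f hf))
    refine ⟨c, LinearMap.ext fun x => Subtype.ext ?_⟩
    have h1 := hc x x.2
    rw [mt_mulVec, prV_coe] at h1
    exact h1)

/-- irreducibility over an extension field -/
theorem AbsIrr.ext {blk : T → B} {b : B} {𝔤 : Submodule k (Matrix T T k)} (H : AbsIrr blk b 𝔤)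
    (W : Submodule F (T → F)) (hW : W ≤ space F blk b)
    (hst : ∀ Z ∈ 𝔤, ∀ x ∈ W, Z.map (algebraMap k F) *ᵥ x ∈ W) :
    W = ⊥ ∨ W = space F blk b := by
  classical
  by_cases hex : ∃ o, blk o = b
  swap
  · left
    rw [eq_bot_iff]
    intro x hx
    rw [Submodule.mem_bot]
    ext s
    exact hW hx s fun h => hex ⟨s, h⟩
  obtain ⟨o, ho⟩ := hex
  obtain ⟨S, hS⟩ : ∃ S : Set (Module.End k (space k blk b)), S = ops blk b 𝔤 := ⟨_, rfl⟩
  have hb : Algebra.adjoin k S = ⊤ := by
    rw [hS]
    exact H.top ⟨o, ho⟩
  -- the operators whose extension preserves `W`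
  have hD : ∀ f : Module.End k (space k blk b), ∀ x ∈ W, (mt f).map (algebraMap k F) *ᵥ x ∈ W := by
    intro f
    have hf : f ∈ Algebra.adjoin k S := by rw [hb]; trivial
    induction hf using Algebra.adjoin_induction with
    | mem f hf =>
      intro x hx
      rw [hS] at hf
      obtain ⟨Z, hZ, hZf⟩ := hf
      have h1 : (mt f).map (algebraMap k F) *ᵥ x = Z.map (algebraMap k F) *ᵥ x := by
        ext s
        simp only [mulVec, dotProduct, map_apply]
        refine Finset.sum_congr rfl fun t _ => ?_
        by_cases ht : blk t = b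
        · have h2 : mt f s t = Z s t := by
            rw [← mulVec_e (mt f), mt_mulVec, hZf, ← mulVec_e Z]
            congr 2
            exact pr_self (mem_e ht)
          rw [h2]
        · rw [hW hx t ht, mul_zero, mul_zero]
      rw [h1]
      exact hst Z hZ x hx
    | algebraMap c =>
      intro x hx
      have h1 : (mt (algebraMap k (Module.End k (space k blk b)) c)).map (algebraMap k F) *ᵥ x =
          algebraMap k F c • x := by
        ext s
        simp only [mulVec, dotProduct, map_apply, Pi.smul_apply, smul_eq_mul]
        have h2 : ∀ t, blk t = b → mt (algebraMap k (Module.End k (space k blk b)) c) s t =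
            c * (e t : T → k) s := by
          intro t ht
          rw [← mulVec_e (mt _), mt_mulVec, Module.algebraMap_end_apply]
          show c * (pr k blk b (e t)) s = _
          rw [pr_self (mem_e ht)]
        rw [Finset.sum_eq_single s]
        · by_cases hs : blk s = b
          · rw [h2 s hs, e_self, mul_one]
          · rw [hW hx s hs, mul_zero, mul_zero]
        · intro t _ hts
          by_cases ht : blk t = b
          · rw [h2 t ht, e_ne (fun h => hts h.symm), mul_zero, map_zero, zero_mul]
          · rw [hW hx t ht, mul_zero]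
        · intro h
          exact absurd (Finset.mem_univ _) h
      rw [h1]
      exact W.smul_mem _ hx
    | add f g _ _ h1 h2 =>
      intro x hx
      have h3 : (mt (f + g)).map (algebraMap k F) *ᵥ x =
          (mt f).map (algebraMap k F) *ᵥ x + (mt g).map (algebraMap k F) *ᵥ x := by
        rw [mt_add, Matrix.map_add _ (map_add _), add_mulVec]
      rw [h3]
      exact add_mem (h1 x hx) (h2 x hx)
    | mul f g _ _ h1 h2 =>
      intro x hx
      rw [mt_mul, map_mul', ← mulVec_mulVec]
      exact h1 _ (h2 x hx)
  by_cases hW0 : W = ⊥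
  · exact Or.inl hW0
  right
  apply le_antisymm hW
  obtain ⟨x, hx, hx0⟩ := (Submodule.ne_bot_iff W).1 hW0
  obtain ⟨t, ht⟩ : ∃ t, x t ≠ 0 := by
    by_contra h1
    push Not at h1
    exact hx0 (funext h1)
  have htb : blk t = b := by
    by_contra h1
    exact ht (hW hx t h1)
  have he : ∀ s, blk s = b → (e s : T → F) ∈ W := by
    intro s hs
    have h1 := hD ((prV k blk b ∘ₗ (Matrix.toLin' (Matrix.single s t (1 : k))) ∘ₗ
      (space k blk b).subtype)) x hx
    have h2 : mt (prV k blk b ∘ₗ (Matrix.toLin' (Matrix.single s t (1 : k))) ∘ₗ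
      (space k blk b).subtype) = Matrix.single s t 1 := by
      apply mt_ext
      intro y
      rw [mt_mulVec]
      show pr k blk b (Matrix.toLin' (Matrix.single s t (1 : k)) (pr k blk b y)) = _
      rw [toLin'_apply, pr_self]
      · ext r
        simp only [mulVec, dotProduct]
        refine Finset.sum_congr rfl fun j _ => ?_
        by_cases hj : j = t
        · rw [hj, pr_pos _ htb]
        · rw [Matrix.single_apply_of_col_ne s r (fun h => hj h.symm), zero_mul, zero_mul]
      · intro r hr
        simp only [mulVec, dotProduct]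
        refine Finset.sum_eq_zero fun j _ => ?_
        rw [Matrix.single_apply_of_row_ne, zero_mul]
        rintro rfl
        exact hr hs
    rw [h2] at h1
    have h3 : (Matrix.single s t (1 : k)).map (algebraMap k F) *ᵥ x = x t • e s := by
      ext r
      rw [Pi.smul_apply, e_apply, smul_eq_mul]
      simp only [mulVec, dotProduct, map_apply]
      by_cases hr : r = s
      · subst hr
        rw [Finset.sum_eq_single t]
        · rw [Matrix.single_apply_same, map_one, if_pos rfl]
          ring
        · intro j _ hj
          rw [Matrix.single_apply_of_col_ne r r (fun h => hj h.symm), map_zero, zero_mul]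
        · intro h
          exact absurd (Finset.mem_univ _) h
      · rw [if_neg hr, mul_zero]
        refine Finset.sum_eq_zero fun j _ => ?_
        rw [Matrix.single_apply_of_row_ne (fun h => hr h.symm), map_zero, zero_mul]
    rw [h3] at h1
    exact (W.smul_mem_iff ht).1 h1
  intro y hy
  have h1 : y = ∑ s, y s • (e s : T → F) := by
    ext r
    rw [Finset.sum_apply, Finset.sum_eq_single r]
    · rw [Pi.smul_apply, e_self, smul_eq_mul, mul_one]
    · intro j _ hj
      rw [Pi.smul_apply, e_ne (fun h => hj h.symm), smul_zero]
    · intro h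
      exact absurd (Finset.mem_univ _) h
  rw [h1]
  refine Submodule.sum_mem _ fun s _ => ?_
  by_cases hs : blk s = b
  · exact W.smul_mem _ (he s hs)
  · rw [hy s hs, zero_smul]
    exact zero_mem _

/-- the commutant over an extension field -/
theorem AbsIrr.comm_ext {blk : T → B} {b : B} {𝔤 : Submodule k (Matrix T T k)}
    (H : AbsIrr blk b 𝔤) (C : Matrix T T F) (hC : ∀ s t, C s t ≠ 0 → blk s = b ∧ blk t = b)
    (hcomm : ∀ Z ∈ 𝔤, C * Z.map (algebraMap k F) = Z.map (algebraMap k F) * C) :
    ∃ c : F, ∀ x ∈ space F blk b, C *ᵥ x = c • x := by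
  classical
  by_cases hex : ∃ o, blk o = b
  swap
  · refine ⟨0, fun x hx => ?_⟩
    have h1 : x = 0 := by
      ext s
      exact hx s fun h => hex ⟨s, h⟩
    rw [h1, mulVec_zero, smul_zero]
  have hb := H.top hex
  obtain ⟨o, ho⟩ := hex
  have hCr : ∀ {s t}, blk s ≠ b → C s t = 0 := fun h => by
    by_contra h1
    exact h (hC _ _ h1).1
  have hCc : ∀ {s t}, blk t ≠ b → C s t = 0 := fun h => by
    by_contra h1
    exact h (hC _ _ h1).2
  have hmt : ∀ (f : Module.End k (space k blk b)) {s t} (ht : blk t = b),
      mt f s t = (f ⟨e t, mem_e ht⟩ : T → k) s := by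
    intro f s t ht
    rw [← mulVec_e (mt f), mt_mulVec]
    have h1 : prV k blk b (e t) = ⟨e t, mem_e ht⟩ := prV_coe (⟨e t, mem_e ht⟩ : space k blk b)
    rw [h1]
  have hmt0 : ∀ (f : Module.End k (space k blk b)) {s t}, blk t ≠ b → mt f s t = 0 := by
    intro f s t ht
    rw [← mulVec_e (mt f), mt_mulVec]
    have h2 : prV k blk b (e t) = 0 := by
      apply Subtype.ext
      ext r
      show pr k blk b (e t) r = 0
      by_cases hr : blk r = b
      · rw [pr_pos _ hr, e_ne]
        rintro rfl
        exact ht hr
      · rw [pr_neg _ hr]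
    rw [h2, map_zero]
    rfl
  have key : ∀ f : Module.End k (space k blk b), C * (mt f).map (algebraMap k F) =
      (mt f).map (algebraMap k F) * C := by
    intro f
    have hf : f ∈ Algebra.adjoin k (ops blk b 𝔤) := by rw [hb]; trivial
    induction hf using Algebra.adjoin_induction with
    | mem f hf =>
      obtain ⟨Z, hZ, hZf⟩ := hf
      have h1 : ∀ s t, blk t = b → mt f s t = Z s t := by
        intro s t ht
        rw [hmt f ht, hZf, ← mulVec_e Z]
      have h2 := hcomm Z hZ
      ext s t
      have h3 := congrFun (congrFun h2 s) t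
      rw [mul_apply, mul_apply] at h3 ⊢
      by_cases ht : blk t = b
      · have e1 : ∑ j, C s j * (mt f).map (algebraMap k F) j t =
            ∑ j, C s j * Z.map (algebraMap k F) j t :=
          Finset.sum_congr rfl fun j _ => by rw [map_apply, map_apply, h1 j t ht]
        have e2 : ∑ j, (mt f).map (algebraMap k F) s j * C j t =
            ∑ j, Z.map (algebraMap k F) s j * C j t := by
          refine Finset.sum_congr rfl fun j _ => ?_
          by_cases hj : blk j = b
          · rw [map_apply, map_apply, h1 s j hj]
          · rw [hCr hj, mul_zero, mul_zero]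
        rw [e1, e2, h3]
      · rw [Finset.sum_eq_zero, Finset.sum_eq_zero]
        · intro j _
          rw [hCc ht, mul_zero]
        · intro j _
          rw [map_apply, hmt0 f ht, map_zero, mul_zero]
    | algebraMap c =>
      have h2 : ∀ s t, mt (algebraMap k (Module.End k (space k blk b)) c) s t =
          if blk t = b then c * (if s = t then 1 else 0) else 0 := by
        intro s t
        split_ifs with ht h
        · rw [hmt _ ht, Module.algebraMap_end_apply]
          show c * (e t : T → k) s = _
          rw [e_apply, if_pos h]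
        · rw [hmt _ ht, Module.algebraMap_end_apply]
          show c * (e t : T → k) s = _
          rw [e_apply, if_neg h]
        · exact hmt0 _ ht
      ext s t
      rw [mul_apply, mul_apply, Finset.sum_eq_single t, Finset.sum_eq_single s]
      · rw [map_apply, map_apply, h2, h2]
        by_cases hs : blk s = b
        · by_cases ht : blk t = b
          · rw [if_pos hs, if_pos ht, if_pos rfl, if_pos rfl, mul_comm]
          · rw [hCc ht, zero_mul, mul_zero]
        · rw [hCr hs, zero_mul, mul_zero]
      · intro j _ hj
        rw [map_apply, h2]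
        split_ifs with h3 h4
        · exact absurd h4.symm hj
        · rw [mul_zero, map_zero, zero_mul]
        · rw [map_zero, zero_mul]
      · intro h
        exact absurd (Finset.mem_univ _) h
      · intro j _ hj
        rw [map_apply, h2, if_neg hj, mul_zero, ite_self, map_zero, mul_zero]
      · intro h
        exact absurd (Finset.mem_univ _) h
    | add f g _ _ h1 h2 =>
      rw [mt_add, Matrix.map_add _ (map_add _), mul_add, add_mul, h1, h2]
    | mul f g _ _ h1 h2 =>
      rw [mt_mul, map_mul', ← mul_assoc, h1, mul_assoc, h2, mul_assoc]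
  -- matrix units
  have hun : ∀ s t, blk s = b → blk t = b → C * (Matrix.single s t (1 : k)).map (algebraMap k F) =
      (Matrix.single s t (1 : k)).map (algebraMap k F) * C := by
    intro s t hs ht
    have h2 : mt (prV k blk b ∘ₗ (Matrix.toLin' (Matrix.single s t (1 : k))) ∘ₗ
      (space k blk b).subtype) = Matrix.single s t 1 := by
      apply mt_ext
      intro y
      rw [mt_mulVec]
      show pr k blk b (Matrix.toLin' (Matrix.single s t (1 : k)) (pr k blk b y)) = _
      rw [toLin'_apply, pr_self]
      · ext r
        simp only [mulVec, dotProduct]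
        refine Finset.sum_congr rfl fun j _ => ?_
        by_cases hj : j = t
        · rw [hj, pr_pos _ ht]
        · rw [Matrix.single_apply_of_col_ne s r (fun h => hj h.symm), zero_mul, zero_mul]
      · intro r hr
        simp only [mulVec, dotProduct]
        refine Finset.sum_eq_zero fun j _ => ?_
        rw [Matrix.single_apply_of_row_ne, zero_mul]
        rintro rfl
        exact hr hs
    have h3 := key (prV k blk b ∘ₗ (Matrix.toLin' (Matrix.single s t (1 : k))) ∘ₗ
      (space k blk b).subtype)
    rwa [h2] at h3
  have hent : ∀ s t, blk s = b → blk t = b → ∀ r q, (if q = t then C r s else 0) =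
      (if r = s then C t q else 0) := by
    intro s t hs ht r q
    have h1 := congrFun (congrFun (hun s t hs ht) r) q
    have h2 : (Matrix.single s t (1 : k)).map (algebraMap k F) = Matrix.single s t (1 : F) := by
      ext a c
      rw [map_apply, Matrix.single_apply, Matrix.single_apply]
      split_ifs <;> simp
    rw [h2, mul_apply, mul_apply] at h1
    have h3 : ∑ j, C r j * Matrix.single s t (1 : F) j q = if q = t then C r s else 0 := by
      rw [Finset.sum_eq_single s]
      · rw [Matrix.single_apply]
        split_ifs with h4 h5 h5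
        · rw [mul_one]
        · exact absurd h4.2.symm h5
        · exact absurd ⟨rfl, h5.symm⟩ h4
        · rw [mul_zero]
      · intro j _ hj
        rw [Matrix.single_apply_of_row_ne (fun h => hj h.symm), mul_zero]
      · intro h
        exact absurd (Finset.mem_univ _) h
    have h4 : ∑ j, Matrix.single s t (1 : F) r j * C j q = if r = s then C t q else 0 := by
      rw [Finset.sum_eq_single t]
      · rw [Matrix.single_apply]
        split_ifs with h5 h6 h6
        · rw [one_mul]
        · exact absurd h5.1.symm h6
        · exact absurd ⟨h6.symm, rfl⟩ h5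
        · rw [zero_mul]
      · intro j _ hj
        rw [Matrix.single_apply_of_col_ne s r (fun h => hj h.symm), zero_mul]
      · intro h
        exact absurd (Finset.mem_univ _) h
    rw [h3, h4] at h1
    exact h1
  refine ⟨C o o, fun x hx => ?_⟩
  ext r
  rw [Pi.smul_apply, smul_eq_mul]
  by_cases hr : blk r = b
  · simp only [mulVec, dotProduct]
    rw [Finset.sum_eq_single r]
    · have h1 := hent r o hr ho r o
      rw [if_pos rfl, if_pos rfl] at h1
      rw [h1]
    · intro j _ hj
      by_cases hjb : blk j = b
      · have h1 := hent j r hjb hr r r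
        rw [if_pos rfl, if_neg (fun h => hj h.symm)] at h1
        rw [h1, zero_mul]
      · rw [hx j hjb, mul_zero]
    · intro h
      exact absurd (Finset.mem_univ _) h
  · rw [hx r hr, mul_zero]
    simp only [mulVec, dotProduct]
    refine Finset.sum_eq_zero fun j _ => ?_
    rw [hCr hr, zero_mul]

end Pool.Agent.H4.HW
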