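import Pool.Graph.R_pool_sql_team_seeded_3dad9d7b.NH56.HY.Log
import Pool.Graph.R_pool_sql_team_seeded_3dad9d7b.NH56.HY.Cnv
import Pool.Agent.H4.HW.Base

/-!
# The Lie algebra of the image of a compact group
-/

set_option autoImplicit false
set_option linter.unusedSectionVars false

namespace Pool.Agent.H4.HW

open Matrix Filter Topology
open scoped Matrix.Norms.Elementwise

variable {ℓ : ℕ} [Fact ℓ.Prime] {Γ T : Type} [Group Γ] [Fintype T] [DecidableEq T]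

namespace Lie

theorem l_ne (k : ℕ) : (ℓ : ℚ_[ℓ]) ^ k ≠ 0 :=
  pow_ne_zero _ (Nat.cast_ne_zero.2 (Fact.out : ℓ.Prime).ne_zero)

theorem l_lim : Tendsto (fun k : ℕ => (ℓ : ℚ_[ℓ]) ^ k) atTop (𝓝 0) :=
  tendsto_pow_atTop_nhds_zero_of_norm_lt_one Padic.norm_p_lt_one

/-- `M k = 1 + ℓ ^ k Z + o (ℓ ^ k)` -/
def D {n : Type} [Fintype n] [DecidableEq n] (M : ℕ → Matrix n n ℚ_[ℓ])
    (Z : Matrix n n ℚ_[ℓ]) : Prop :=
  Tendsto (fun k : ℕ => ((ℓ : ℚ_[ℓ]) ^ k)⁻¹ • (M k - 1)) atTop (𝓝 Z)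

theorem D.lim {M : ℕ → Matrix T T ℚ_[ℓ]} {Z : Matrix T T ℚ_[ℓ]} (h : D M Z) :
    Tendsto M atTop (𝓝 1) := by
  have h1 := (l_lim (ℓ := ℓ)).smul h
  rw [zero_smul] at h1
  have h2 := h1.add_const (1 : Matrix T T ℚ_[ℓ])
  rw [zero_add] at h2
  refine h2.congr fun k => ?_
  rw [smul_smul, mul_inv_cancel₀ (l_ne k), one_smul, sub_add_cancel]

theorem D.inv {M M' : ℕ → Matrix T T ℚ_[ℓ]} {Z : Matrix T T ℚ_[ℓ]} (h : D M Z)
    (hM : ∀ k, M k * M' k = 1) : Tendsto M' atTop (𝓝 1) := by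
  have h2 : ∀ k, M' k = ((M k).det)⁻¹ • (M k).adjugate := by
    intro k
    have h3 : (M k)⁻¹ = M' k := Matrix.inv_eq_right_inv (hM k)
    rw [← h3, Matrix.inv_def, Ring.inverse_eq_inv']
  have h4 : Tendsto (fun k => ((M k).det)⁻¹ • (M k).adjugate) atTop
      (𝓝 (((1 : Matrix T T ℚ_[ℓ]).det)⁻¹ • (1 : Matrix T T ℚ_[ℓ]).adjugate)) := by
    apply Tendsto.smul
    · apply Tendsto.inv₀
      · exact ((Continuous.matrix_det continuous_id).tendsto _).comp h.lim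
      · rw [det_one]; exact one_ne_zero
    · exact ((Continuous.matrix_adjugate continuous_id).tendsto _).comp h.lim
  rw [det_one, inv_one, one_smul, adjugate_one] at h4
  exact h4.congr fun k => (h2 k).symm

theorem mem_iff (ρ : Γ → Matrix T T ℚ_[ℓ]) (Z : Matrix T T ℚ_[ℓ]) :
    Z ∈ LieImage ρ ↔ ∃ σ : ℕ → Γ, D (fun k => ρ (σ k)) Z := Iff.rfl

variable (ρ : Γ →* Matrix T T ℚ_[ℓ])

theorem add_mem' {Z W : Matrix T T ℚ_[ℓ]} (hZ : Z ∈ LieImage ρ) (hW : W ∈ LieImage ρ) :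
    Z + W ∈ LieImage ρ := by
  obtain ⟨σ, hσ⟩ := (mem_iff ρ Z).1 hZ
  obtain ⟨τ, hτ⟩ := (mem_iff ρ W).1 hW
  refine ⟨fun k => σ k * τ k, ?_⟩
  have h1 : Tendsto (fun k : ℕ => ((ℓ : ℚ_[ℓ]) ^ k)⁻¹ • (ρ (σ k) - 1) +
      ρ (σ k) * (((ℓ : ℚ_[ℓ]) ^ k)⁻¹ • (ρ (τ k) - 1))) atTop (𝓝 (Z + 1 * W)) :=
    Tendsto.add hσ (Tendsto.mul hσ.lim hτ)
  rw [one_mul] at h1
  refine h1.congr fun k => ?_
  rw [map_mul, mul_smul_comm, ← smul_add, mul_sub, mul_one]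
  congr 1
  abel

theorem zero_mem' : (0 : Matrix T T ℚ_[ℓ]) ∈ LieImage ρ := by
  refine ⟨fun _ => 1, ?_⟩
  simp only [map_one, sub_self, smul_zero]
  exact tendsto_const_nhds

theorem nsmul_mem' {Z : Matrix T T ℚ_[ℓ]} (hZ : Z ∈ LieImage ρ) (n : ℕ) :
    (n : ℚ_[ℓ]) • Z ∈ LieImage ρ := by
  induction n with
  | zero =>
    rw [Nat.cast_zero, zero_smul]
    exact zero_mem' ρ
  | succ n ih =>
    rw [Nat.cast_succ, add_smul, one_smul]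
    exact add_mem' ρ ih hZ

theorem linv_mem' {Z : Matrix T T ℚ_[ℓ]} (hZ : Z ∈ LieImage ρ) :
    ((ℓ : ℚ_[ℓ])⁻¹) • Z ∈ LieImage ρ := by
  obtain ⟨σ, hσ⟩ := (mem_iff ρ Z).1 hZ
  refine ⟨fun k => σ (k - 1), ?_⟩
  rw [← tendsto_add_atTop_iff_nat 1]
  have h1 : Tendsto (fun k : ℕ => ((ℓ : ℚ_[ℓ])⁻¹) • (((ℓ : ℚ_[ℓ]) ^ k)⁻¹ • (ρ (σ k) - 1))) atTop
    (𝓝 (((ℓ : ℚ_[ℓ])⁻¹) • Z)) := Tendsto.const_smul hσ _
  refine h1.congr fun k => ?_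
  show _ = ((ℓ : ℚ_[ℓ]) ^ (k + 1))⁻¹ • (ρ (σ (k + 1 - 1)) - 1)
  rw [Nat.add_sub_cancel, smul_smul, ← mul_inv, pow_succ']

/-- the Lie algebra is closed -/
theorem closed : IsClosed (LieImage ρ) := by
  have : SequentialSpace (Matrix T T ℚ_[ℓ]) := inferInstanceAs (SequentialSpace (T → T → ℚ_[ℓ]))
  rw [← isSeqClosed_iff_isClosed]
  intro Z Z0 hZ hlim
  choose σ hσ using hZ
  have hσ' : ∀ j : ℕ, ∃ K : ℕ, ∀ k ≥ K,
      ‖((ℓ : ℚ_[ℓ]) ^ k)⁻¹ • (ρ (σ j k) - 1) - Z j‖ < 1 / ((j : ℝ) + 1) := by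
    intro j
    have h1 := (Metric.tendsto_atTop.1 (hσ j)) (1 / ((j : ℝ) + 1)) (by positivity)
    obtain ⟨K, hK⟩ := h1
    refine ⟨K, fun k hk => ?_⟩
    have h2 := hK k hk
    rwa [dist_eq_norm] at h2
  choose K hK using hσ'
  -- the index used for `k`: the largest `j ≤ k` with `K i ≤ k` for all `i ≤ j`
  classical
  let J : ℕ → ℕ := fun k => Nat.findGreatest (fun j => K j ≤ k) k
  have hJ : Tendsto J atTop atTop := by
    rw [tendsto_atTop_atTop]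
    intro j
    refine ⟨max j (K j), fun k hk => ?_⟩
    exact Nat.le_findGreatest ((le_max_left _ _).trans hk) ((le_max_right _ _).trans hk)
  have hKJ : ∀ᶠ k in atTop, K (J k) ≤ k := by
    filter_upwards [eventually_ge_atTop (K 0)] with k hk
    exact Nat.findGreatest_spec (P := fun j => K j ≤ k) (Nat.zero_le k) hk
  refine ⟨fun k => σ (J k) k, ?_⟩
  refine tendsto_iff_norm_sub_tendsto_zero.2 ?_
  have h1 : Tendsto (fun k => 1 / ((J k : ℝ) + 1) + ‖Z (J k) - Z0‖) atTop (𝓝 (0 + 0)) := by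
    refine Tendsto.add ?_ ?_
    · exact tendsto_one_div_add_atTop_nhds_zero_nat.comp hJ
    · exact (tendsto_iff_norm_sub_tendsto_zero.1 hlim).comp hJ
  rw [add_zero] at h1
  refine squeeze_zero' (Eventually.of_forall fun k => norm_nonneg _) ?_ h1
  filter_upwards [hKJ] with k hk
  have h2 := (hK (J k) k hk).le
  calc ‖((ℓ : ℚ_[ℓ]) ^ k)⁻¹ • (ρ (σ (J k) k) - 1) - Z0‖ =
      ‖(((ℓ : ℚ_[ℓ]) ^ k)⁻¹ • (ρ (σ (J k) k) - 1) - Z (J k)) + (Z (J k) - Z0)‖ := by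
        rw [sub_add_sub_cancel]
    _ ≤ _ := (norm_add_le _ _).trans (add_le_add h2 le_rfl)

theorem smul_mem' {Z : Matrix T T ℚ_[ℓ]} (hZ : Z ∈ LieImage ρ) (c : ℚ_[ℓ]) :
    c • Z ∈ LieImage ρ := by
  have hint : ∀ u : ℤ_[ℓ], (u : ℚ_[ℓ]) • Z ∈ LieImage ρ := by
    intro u
    have h1 : IsClosed {u : ℤ_[ℓ] | (u : ℚ_[ℓ]) • Z ∈ LieImage ρ} := by
      refine (closed ρ).preimage ?_
      exact (continuous_subtype_val).smul continuous_const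
    have h2 : DenseRange (Nat.cast : ℕ → ℤ_[ℓ]) := PadicInt.denseRange_natCast
    refine h2.induction_on (p := fun u : ℤ_[ℓ] => (u : ℚ_[ℓ]) • Z ∈ LieImage ρ) u h1 fun n => ?_
    have := nsmul_mem' ρ hZ n
    simpa using this
  -- `c = u / ℓ ^ m`
  obtain ⟨m, hm⟩ : ∃ m : ℕ, ‖(ℓ : ℚ_[ℓ]) ^ m * c‖ ≤ 1 := by
    have h1 : Tendsto (fun m : ℕ => ‖(ℓ : ℚ_[ℓ]) ^ m * c‖) atTop (𝓝 0) := by
      have := ((l_lim (ℓ := ℓ)).mul_const c).norm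
      rwa [zero_mul, norm_zero] at this
    exact (h1.eventually (ge_mem_nhds zero_lt_one)).exists
  have h2 : ∀ m : ℕ, ∀ W ∈ LieImage ρ, (((ℓ : ℚ_[ℓ]) ^ m)⁻¹) • W ∈ LieImage ρ := by
    intro m W hW
    induction m with
    | zero => rwa [pow_zero, inv_one, one_smul]
    | succ m ih =>
      have := linv_mem' ρ ih
      rwa [smul_smul, ← mul_inv, ← pow_succ'] at this
  have h3 := h2 m _ (hint ⟨(ℓ : ℚ_[ℓ]) ^ m * c, hm⟩)
  rwa [smul_smul, inv_mul_cancel_left₀ (l_ne m)] at h3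

/-- the Lie algebra as a subspace -/
def sub : Submodule ℚ_[ℓ] (Matrix T T ℚ_[ℓ]) where
  carrier := LieImage ρ
  add_mem' := add_mem' ρ
  zero_mem' := zero_mem' ρ
  smul_mem' c _ hZ := smul_mem' ρ hZ c

theorem mem_sub {Z : Matrix T T ℚ_[ℓ]} : Z ∈ sub ρ ↔ Z ∈ LieImage ρ := Iff.rfl

theorem inv1 (g : Γ) : ρ g * ρ g⁻¹ = 1 := by rw [← map_mul, mul_inv_cancel, map_one]

theorem inv2 (g : Γ) : ρ g⁻¹ * ρ g = 1 := by rw [← map_mul, inv_mul_cancel, map_one]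

theorem brack {Z W : Matrix T T ℚ_[ℓ]} (hZ : Z ∈ sub ρ) (hW : W ∈ sub ρ) :
    Z * W - W * Z ∈ sub ρ := by
  obtain ⟨σ, hσ⟩ := (mem_iff ρ Z).1 hZ
  obtain ⟨τ, hτ⟩ := (mem_iff ρ W).1 hW
  -- the indices
  have hi : Tendsto (fun k : ℕ => k / 2) atTop atTop := Nat.tendsto_div_const_atTop (by norm_num)
  have hj : Tendsto (fun k : ℕ => k - k / 2) atTop atTop := by
    refine tendsto_atTop_mono (fun k => ?_) hi
    omega
  have h1 := Tendsto.comp hσ hi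
  have h2 := Tendsto.comp hτ hj
  have h3 := (hσ.inv (fun k => inv1 ρ (σ k))).comp hi
  have h4 := (hτ.inv (fun k => inv1 ρ (τ k))).comp hj
  refine ⟨fun k => σ (k / 2) * τ (k - k / 2) * (σ (k / 2))⁻¹ * (τ (k - k / 2))⁻¹, ?_⟩
  have h5 := ((h1.mul h2).sub (h2.mul h1)).mul (h3.mul h4)
  rw [mul_one, mul_one] at h5
  refine h5.congr fun k => ?_
  simp only [Function.comp_apply, map_mul]
  have hk : (ℓ : ℚ_[ℓ]) ^ k = (ℓ : ℚ_[ℓ]) ^ (k / 2) * (ℓ : ℚ_[ℓ]) ^ (k - k / 2) := by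
    rw [← pow_add]
    congr 1
    omega
  rw [hk, mul_inv]
  generalize ((ℓ : ℚ_[ℓ]) ^ (k / 2))⁻¹ = a
  generalize ((ℓ : ℚ_[ℓ]) ^ (k - k / 2))⁻¹ = a'
  have e1 := inv1 ρ (σ (k / 2))
  have e2 := inv1 ρ (τ (k - k / 2))
  generalize ρ (σ (k / 2)) = A at *
  generalize ρ ((σ (k / 2))⁻¹) = A' at *
  generalize ρ (τ (k - k / 2)) = C at *
  generalize ρ ((τ (k - k / 2))⁻¹) = C' at *
  have e3 : A * C * A' * C' - 1 = (A * C - C * A) * (A' * C') := by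
    have : C * A * (A' * C') = 1 := by
      calc C * A * (A' * C') = C * (A * A') * C' := by noncomm_ring
        _ = 1 := by rw [e1, mul_one, e2]
    rw [sub_mul, this]
    noncomm_ring
  rw [e3]
  simp only [smul_mul_assoc, mul_smul_comm, smul_smul]
  rw [mul_comm a' a, ← smul_sub, smul_mul_assoc]
  congr 1
  noncomm_ring

theorem conj_mem {Z : Matrix T T ℚ_[ℓ]} (hZ : Z ∈ sub ρ) (g : Γ) : ρ g * Z * ρ g⁻¹ ∈ sub ρ := by
  obtain ⟨σ, hσ⟩ := (mem_iff ρ Z).1 hZ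
  refine ⟨fun k => g * σ k * g⁻¹, ?_⟩
  have h1 : Tendsto (fun k : ℕ => ρ g * (((ℓ : ℚ_[ℓ]) ^ k)⁻¹ • (ρ (σ k) - 1)) * ρ g⁻¹) atTop
      (𝓝 (ρ g * Z * ρ g⁻¹)) := (tendsto_const_nhds.mul hσ).mul tendsto_const_nhds
  refine h1.congr fun k => ?_
  rw [mul_smul_comm, smul_mul_assoc, mul_sub, sub_mul, mul_one, inv1, map_mul, map_mul]

end Lie

end Pool.Agent.H4.HW
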