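import Pool.Agent.H4.HW.Lie

/-!
# The Lie algebra of the image: logarithms, irreducibility
-/

set_option autoImplicit false
set_option linter.unusedSectionVars false

namespace Pool.Agent.H4.HW

open Matrix Filter Topology
open scoped Matrix.Norms.Elementwise

namespace Lie

variable {ℓ : ℕ} [Fact ℓ.Prime] {Γ T : Type} [Group Γ] [Fintype T] [DecidableEq T]
  (ρ : Γ →* Matrix T T ℚ_[ℓ])

/-- the logarithm of an element of the image close to `1` -/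
theorem log_mem (g : Γ) (hg : ∀ i j, ‖(ρ g - 1) i j‖ ≤ ((ℓ : ℝ) ^ 2)⁻¹) :
    ∃ L ∈ sub ρ,
      Tendsto (fun k : ℕ => ((ℓ : ℚ_[ℓ]) ^ k)⁻¹ • (ρ g ^ (ℓ ^ k) - 1)) atTop (𝓝 L) ∧
      ∀ B, L * B = B * L → ρ g * B = B * ρ g := by
  obtain ⟨L, h1, -, h3⟩ := Pool.Agent.NH56.HY.t_LOG ℓ T (ρ g) _ le_rfl hg
  refine ⟨L, ?_, h1, h3⟩
  refine ⟨fun k => g ^ (ℓ ^ k), ?_⟩
  refine h1.congr fun k => ?_
  rw [map_pow]

/-- the elements which are congruent to `1` modulo `ℓ ^ 2` -/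
def small : Subgroup Γ where
  carrier := {g | ‖ρ g - 1‖ ≤ ((ℓ : ℝ) ^ 2)⁻¹}
  mul_mem' := by
    intro g g' hg hg'
    have h1 : ((ℓ : ℝ) ^ 2)⁻¹ ≤ 1 := by
      have := Pool.Agent.NH56.HY.LogP.two_le (ℓ := ℓ)
      exact inv_le_one_of_one_le₀ (by nlinarith)
    have h2 : ρ (g * g') - 1 = ρ g * (ρ g' - 1) + (ρ g - 1) := by
      rw [map_mul, mul_sub, mul_one]
      abel
    have h3 : ‖ρ g‖ ≤ 1 := by
      have h4 : ρ g = (ρ g - 1) + 1 := by abel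
      rw [h4]
      exact Pool.Agent.NH56.HY.LogP.nadd_le (le_trans hg h1) Pool.Agent.NH56.HY.LogP.none
    show ‖ρ (g * g') - 1‖ ≤ _
    rw [h2]
    refine Pool.Agent.NH56.HY.LogP.nadd_le ((Pool.Agent.NH56.HY.LogP.nmul _ _).trans ?_) hg
    calc ‖ρ g‖ * ‖ρ g' - 1‖ ≤ 1 * ((ℓ : ℝ) ^ 2)⁻¹ :=
          mul_le_mul h3 hg' (norm_nonneg _) zero_le_one
      _ = _ := one_mul _
  one_mem' := by
    show ‖ρ 1 - 1‖ ≤ _
    rw [map_one, sub_self, norm_zero]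
    positivity
  inv_mem' := by
    intro g hg
    have h1 : ((ℓ : ℝ) ^ 2)⁻¹ < 1 := by
      have := Pool.Agent.NH56.HY.LogP.two_le (ℓ := ℓ)
      exact inv_lt_one_of_one_lt₀ (by nlinarith)
    have hg' : ‖ρ g - 1‖ ≤ ((ℓ : ℝ) ^ 2)⁻¹ := hg
    have h2 : ρ g⁻¹ = 1 - ρ g⁻¹ * (ρ g - 1) := by
      rw [mul_sub, inv2, mul_one]
      abel
    have h3 : ‖ρ g⁻¹ * (ρ g - 1)‖ ≤ ‖ρ g⁻¹‖ * ((ℓ : ℝ) ^ 2)⁻¹ :=
      (Pool.Agent.NH56.HY.LogP.nmul _ _).trans (mul_le_mul_of_nonneg_left hg' (norm_nonneg _))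
    have h4 : ‖ρ g⁻¹‖ ≤ 1 := by
      by_contra h5
      push Not at h5
      have h6 : ‖ρ g⁻¹‖ ≤ max 1 (‖ρ g⁻¹‖ * ((ℓ : ℝ) ^ 2)⁻¹) := by
        conv_lhs => rw [h2]
        exact Pool.Agent.NH56.HY.LogP.nsub_le
          (Pool.Agent.NH56.HY.LogP.none.trans (le_max_left _ _)) (h3.trans (le_max_right _ _))
      rcases le_max_iff.1 h6 with h7 | h7
      · linarith
      · nlinarith
    have h5 : ρ g⁻¹ - 1 = -(ρ g⁻¹ * (ρ g - 1)) := by
      rw [mul_sub, inv2, mul_one]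
      abel
    show ‖ρ g⁻¹ - 1‖ ≤ _
    rw [h5, norm_neg]
    refine h3.trans ?_
    have h6 : (0 : ℝ) ≤ ((ℓ : ℝ) ^ 2)⁻¹ := by positivity
    nlinarith

theorem mem_small {g : Γ} : g ∈ small ρ ↔ ‖ρ g - 1‖ ≤ ((ℓ : ℝ) ^ 2)⁻¹ := Iff.rfl

theorem small_entry {g : Γ} (hg : g ∈ small ρ) (i j : T) :
    ‖(ρ g - 1) i j‖ ≤ ((ℓ : ℝ) ^ 2)⁻¹ :=
  (Matrix.norm_entry_le_entrywise_sup_norm _).trans hg

/-- the set of the elements close to `1` is a neighbourhood of `1` -/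
theorem nhd [TopologicalSpace Γ] (hρ : Continuous ρ) :
    ∃ V : Set Γ, IsOpen V ∧ 1 ∈ V ∧ ∀ g ∈ V, g ∈ small ρ := by
  refine ⟨{g | ∀ a b, ‖(ρ g - 1) a b‖ < ((ℓ : ℝ) ^ 2)⁻¹}, ?_, ?_, ?_⟩
  · have : {g | ∀ a b, ‖(ρ g - 1) a b‖ < ((ℓ : ℝ) ^ 2)⁻¹} =
        ⋂ a, ⋂ b, {g | ‖(ρ g - 1) a b‖ < ((ℓ : ℝ) ^ 2)⁻¹} := by
      ext g
      simp only [Set.mem_ofPred_eq, Set.mem_iInter]
    rw [this]
    refine isOpen_iInter_of_finite fun a => isOpen_iInter_of_finite fun b => ?_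
    refine isOpen_lt ?_ continuous_const
    refine Continuous.norm ?_
    have h1 : Continuous fun g : Γ => ρ g - 1 := hρ.sub continuous_const
    exact h1.matrix_elem a b
  · intro a b
    rw [map_one, sub_self, Matrix.zero_apply, norm_zero]
    have := Pool.Agent.NH56.HY.LogP.l_pos (ℓ := ℓ)
    positivity
  · intro g hg
    exact (Matrix.norm_le_iff (by positivity)).2 fun i j => (hg i j).le

theorem small_open [TopologicalSpace Γ] [IsTopologicalGroup Γ] (hρ : Continuous ρ) :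
    IsOpen (small ρ : Set Γ) := by
  obtain ⟨V, hV, h1, h2⟩ := nhd ρ hρ
  refine Subgroup.isOpen_of_mem_nhds _ (g := 1) ?_
  exact Filter.mem_of_superset (hV.mem_nhds h1) h2

/-- what commutes with the Lie algebra commutes with an open subgroup -/
theorem comm_small {B : Matrix T T ℚ_[ℓ]} (h : ∀ Z ∈ sub ρ, B * Z = Z * B) :
    ∀ g ∈ small ρ, B * ρ g = ρ g * B := by
  intro g hg
  obtain ⟨L, hL, -, h3⟩ := log_mem ρ g (small_entry ρ hg)
  exact (h3 B (h L hL).symm).symm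

/-- the representation on the block `b` is irreducible, and only scalars commute with an open
subgroup -/
structure StrongIrr {T B : Type} [Fintype T] [DecidableEq T] [TopologicalSpace Γ] (blk : T → B)
    (b : B) (ρ : Γ →* Matrix T T ℚ_[ℓ]) : Prop where
  irr : ∀ W : Submodule ℚ_[ℓ] (T → ℚ_[ℓ]), W ≤ space ℚ_[ℓ] blk b →
    (∀ g, ∀ x ∈ W, ρ g *ᵥ x ∈ W) → W = ⊥ ∨ W = space ℚ_[ℓ] blk b
  comm : ∀ U : Subgroup Γ, IsOpen (U : Set Γ) → ∀ C : Matrix T T ℚ_[ℓ],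
    (∀ s t, C s t ≠ 0 → blk s = b ∧ blk t = b) → (∀ g ∈ U, C * ρ g = ρ g * C) →
    ∃ c : ℚ_[ℓ], ∀ x ∈ space ℚ_[ℓ] blk b, C *ᵥ x = c • x

theorem block {B : Type} {blk : T → B} (hb : ∀ g, IsBlock blk (ρ g)) :
    ∀ Z ∈ sub ρ, IsBlock blk Z := by
  intro Z hZ s t hst
  obtain ⟨σ, hσ⟩ := (mem_iff ρ Z).1 hZ
  have h1 : Tendsto (fun k : ℕ => (((ℓ : ℚ_[ℓ]) ^ k)⁻¹ • (ρ (σ k) - 1)) s t) atTop
      (𝓝 (Z s t)) := ((continuous_id.matrix_elem s t).tendsto _).comp hσ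
  have h2 : ∀ k : ℕ, (((ℓ : ℚ_[ℓ]) ^ k)⁻¹ • (ρ (σ k) - 1)) s t = 0 := by
    intro k
    have hne : s ≠ t := by
      rintro rfl
      exact hst rfl
    rw [Matrix.smul_apply, Matrix.sub_apply, hb _ s t hst, Matrix.one_apply_ne hne, sub_zero,
      smul_zero]
  simp only [h2] at h1
  exact tendsto_nhds_unique h1 tendsto_const_nhds

/-- stable subspaces have stable complements in a block -/
theorem complement {B : Type} {blk : T → B} {b : B} (hb : ∀ g, IsBlock blk (ρ g))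
    (hirr : ∀ W : Submodule ℚ_[ℓ] (T → ℚ_[ℓ]), W ≤ space ℚ_[ℓ] blk b →
      (∀ g, ∀ x ∈ W, ρ g *ᵥ x ∈ W) → W = ⊥ ∨ W = space ℚ_[ℓ] blk b)
    (W : Submodule ℚ_[ℓ] (T → ℚ_[ℓ])) (hW : W ≤ space ℚ_[ℓ] blk b)
    (hWs : ∀ Z ∈ sub ρ, ∀ x ∈ W, Z *ᵥ x ∈ W) :
    ∃ W' : Submodule ℚ_[ℓ] (T → ℚ_[ℓ]), W' ≤ space ℚ_[ℓ] blk b ∧
      (∀ Z ∈ sub ρ, ∀ x ∈ W', Z *ᵥ x ∈ W') ∧ W ⊓ W' = ⊥ ∧ W ⊔ W' = space ℚ_[ℓ] blk b := by
  classical
  let St : Submodule ℚ_[ℓ] (T → ℚ_[ℓ]) → Prop := fun W =>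
    W ≤ space ℚ_[ℓ] blk b ∧ ∀ Z ∈ sub ρ, ∀ x ∈ W, Z *ᵥ x ∈ W
  have hSt : ∀ W, St W ↔ W ≤ space ℚ_[ℓ] blk b ∧ ∀ Z ∈ sub ρ, ∀ x ∈ W, Z *ᵥ x ∈ W :=
    fun _ => Iff.rfl
  by_cases hV0 : space ℚ_[ℓ] blk b = ⊥
  · refine ⟨⊥, bot_le, ?_, inf_bot_eq _, ?_⟩
    · intro Z _ x hx
      rw [(Submodule.mem_bot _).1 hx, mulVec_zero]
      exact zero_mem _
    · rw [sup_bot_eq, hV0, ← le_bot_iff, ← hV0]
      exact hW
  have hVst : St (space ℚ_[ℓ] blk b) :=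
    ⟨le_rfl, fun Z hZ x hx => act_space (block ρ hb Z hZ) hx⟩
  -- a minimal stable subspace
  obtain ⟨W₀, hW₀, hW₀0, hmin⟩ : ∃ W₀, St W₀ ∧ W₀ ≠ ⊥ ∧ ∀ W, St W → W ≠ ⊥ →
      Module.finrank ℚ_[ℓ] W₀ ≤ Module.finrank ℚ_[ℓ] W := by
    have hex : ∃ n, ∃ W, St W ∧ W ≠ ⊥ ∧ Module.finrank ℚ_[ℓ] W = n :=
      ⟨_, _, hVst, hV0, rfl⟩
    obtain ⟨W₀, h1, h2, h3⟩ := Nat.find_spec hex
    refine ⟨W₀, h1, h2, fun W hW hW0 => ?_⟩
    rw [h3]
    exact Nat.find_min' hex ⟨W, hW, hW0, rfl⟩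
  -- a maximal stable subspace with trivial intersection
  obtain ⟨W', hW', hWW', hmax⟩ : ∃ W', St W' ∧ W ⊓ W' = ⊥ ∧ ∀ W'', St W'' → W ⊓ W'' = ⊥ →
      Module.finrank ℚ_[ℓ] W'' ≤ Module.finrank ℚ_[ℓ] W' := by
    let P : ℕ → Prop := fun n => ∃ W', St W' ∧ W ⊓ W' = ⊥ ∧ Module.finrank ℚ_[ℓ] W' = n
    have hbd : ∀ n, P n → n ≤ Module.finrank ℚ_[ℓ] (T → ℚ_[ℓ]) := by
      rintro n ⟨W', -, -, h⟩
      rw [← h]
      exact Submodule.finrank_le _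
    have h0 : P 0 := by
      refine ⟨⊥, ⟨bot_le, ?_⟩, inf_bot_eq _, finrank_bot _ _⟩
      intro Z _ x hx
      rw [(Submodule.mem_bot _).1 hx, mulVec_zero]
      exact zero_mem _
    obtain ⟨W', h1, h2, h3⟩ := Nat.findGreatest_spec (P := P) (Nat.zero_le _) h0
      (n := Module.finrank ℚ_[ℓ] (T → ℚ_[ℓ]))
    refine ⟨W', h1, h2, fun W'' h4 h5 => ?_⟩
    rw [h3]
    exact Nat.le_findGreatest (hbd _ ⟨W'', h4, h5, rfl⟩) ⟨W'', h4, h5, rfl⟩
  refine ⟨W', hW'.1, hW'.2, hWW', ?_⟩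
  by_contra hne
  have hsup : St (W ⊔ W') := by
    refine ⟨sup_le hW hW'.1, fun Z hZ x hx => ?_⟩
    obtain ⟨y, hy, z, hz, rfl⟩ := Submodule.mem_sup.1 hx
    rw [mulVec_add]
    exact add_mem (Submodule.mem_sup_left (hWs Z hZ y hy))
      (Submodule.mem_sup_right (hW'.2 Z hZ z hz))
  -- the translates of `W₀`
  let tr : Γ → Submodule ℚ_[ℓ] (T → ℚ_[ℓ]) := fun g => W₀.map (Matrix.toLin' (ρ g))
  have htr : ∀ g x, x ∈ tr g ↔ ρ g⁻¹ *ᵥ x ∈ W₀ := by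
    intro g x
    constructor
    · rintro ⟨y, hy, rfl⟩
      rw [toLin'_apply, mulVec_mulVec, inv2, one_mulVec]
      exact hy
    · intro hx
      refine ⟨_, hx, ?_⟩
      rw [toLin'_apply, mulVec_mulVec, inv1, one_mulVec]
  have htrst : ∀ g, St (tr g) := by
    intro g
    refine ⟨?_, fun Z hZ x hx => ?_⟩
    · rintro _ ⟨y, hy, rfl⟩
      rw [toLin'_apply]
      exact act_space (hb g) (hW₀.1 hy)
    · rw [htr] at hx ⊢
      have h1 := conj_mem ρ hZ g⁻¹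
      rw [inv_inv] at h1
      have h2 := hW₀.2 _ h1 _ hx
      rw [mulVec_mulVec] at h2
      have h3 : ρ g⁻¹ * Z * ρ g * ρ g⁻¹ = ρ g⁻¹ * Z := by
        rw [mul_assoc, inv1, mul_one]
      rw [h3] at h2
      rwa [mulVec_mulVec]
  have hfr : ∀ g, Module.finrank ℚ_[ℓ] (tr g) ≤ Module.finrank ℚ_[ℓ] W₀ := fun g =>
    Submodule.finrank_map_le _ _
  obtain ⟨g, hg⟩ : ∃ g, ¬ tr g ≤ W ⊔ W' := by
    by_contra hall
    push Not at hall
    have h1 : (⨆ g, tr g) ≤ W ⊔ W' := iSup_le hall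
    rcases hirr (⨆ g, tr g) (iSup_le fun g => (htrst g).1) (by
      intro g x hx
      have h2 : (⨆ g, tr g) ≤ (⨆ g, tr g).comap (Matrix.toLin' (ρ g)) := by
        refine iSup_le fun g' y hy => ?_
        rw [Submodule.mem_comap, toLin'_apply]
        have h3 : ρ g *ᵥ y ∈ tr (g * g') := by
          rw [htr] at hy ⊢
          rw [_root_.mul_inv_rev, map_mul, ← mulVec_mulVec, mulVec_mulVec _ (ρ g⁻¹), inv2, one_mulVec]
          exact hy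
        exact Submodule.mem_iSup_of_mem _ h3
      have h3 := h2 hx
      rwa [Submodule.mem_comap, toLin'_apply] at h3) with h2 | h2
    · apply hW₀0
      rw [eq_bot_iff, ← h2]
      refine le_trans ?_ (le_iSup tr 1)
      intro x hx
      rw [htr, inv_one, map_one, one_mulVec]
      exact hx
    · rw [h2] at h1
      exact hne (le_antisymm hsup.1 h1)
  -- the translate meets the sum trivially
  have hint : tr g ⊓ (W ⊔ W') = ⊥ := by
    by_contra h0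
    have h1 : St (tr g ⊓ (W ⊔ W')) :=
      ⟨inf_le_left.trans (htrst g).1, fun Z hZ x hx => ⟨(htrst g).2 Z hZ x hx.1,
        hsup.2 Z hZ x hx.2⟩⟩
    have h2 := hmin _ h1 h0
    have h3 : tr g ⊓ (W ⊔ W') = tr g :=
      Submodule.eq_of_le_of_finrank_le inf_le_left ((hfr g).trans h2)
    exact hg (by rw [← h3]; exact inf_le_right)
  have hnew : W ⊓ (W' ⊔ tr g) = ⊥ := by
    rw [eq_bot_iff]
    rintro x ⟨hx1, hx2⟩
    obtain ⟨y, hy, z, hz, hyz⟩ := Submodule.mem_sup.1 hx2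
    have h1 : z ∈ tr g ⊓ (W ⊔ W') := by
      refine ⟨hz, ?_⟩
      have h2 : z = x + -y := by rw [← hyz]; abel
      rw [h2]
      exact add_mem (Submodule.mem_sup_left hx1) (Submodule.mem_sup_right (neg_mem hy))
    rw [hint, Submodule.mem_bot] at h1
    rw [h1, add_zero] at hyz
    have h2 : x ∈ W ⊓ W' := ⟨hx1, by rw [← hyz]; exact hy⟩
    rwa [hWW'] at h2
  have h1 := hmax _ (show St (W' ⊔ tr g) from
    ⟨sup_le hW'.1 (htrst g).1, fun Z hZ x hx => by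
      obtain ⟨y, hy, z, hz, rfl⟩ := Submodule.mem_sup.1 hx
      rw [mulVec_add]
      exact add_mem (Submodule.mem_sup_left (hW'.2 Z hZ y hy))
        (Submodule.mem_sup_right ((htrst g).2 Z hZ z hz))⟩) hnew
  have h2 : W' = W' ⊔ tr g := Submodule.eq_of_le_of_finrank_le le_sup_left h1
  apply hg
  calc tr g ≤ W' ⊔ tr g := le_sup_right
    _ = W' := h2.symm
    _ ≤ W ⊔ W' := le_sup_right

/-- the Lie algebra of the image is absolutely irreducible on the block -/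
theorem absIrr [TopologicalSpace Γ] [IsTopologicalGroup Γ] (hρ : Continuous ρ)
    {B : Type} {blk : T → B} {b : B} (hb : ∀ g, IsBlock blk (ρ g)) (H : StrongIrr blk b ρ) :
    AbsIrr blk b (sub ρ) := by
  refine ⟨block ρ hb, ?_, ?_⟩
  · intro W hW hWs
    obtain ⟨W', hW', hWs', hinf, hsup⟩ := complement ρ hb H.irr W hW hWs
    -- the projector, as an operator on the block
    have hc : IsCompl (W.comap (space ℚ_[ℓ] blk b).subtype)
        (W'.comap (space ℚ_[ℓ] blk b).subtype) := by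
      constructor
      · rw [Submodule.disjoint_def]
        intro x hx hx'
        have h1 : (x : T → ℚ_[ℓ]) ∈ W ⊓ W' := ⟨hx, hx'⟩
        rw [hinf, Submodule.mem_bot] at h1
        exact Subtype.ext h1
      · rw [codisjoint_iff, eq_top_iff]
        intro x _
        have h1 : (x : T → ℚ_[ℓ]) ∈ W ⊔ W' := by rw [hsup]; exact x.2
        obtain ⟨y, hy, z, hz, hyz⟩ := Submodule.mem_sup.1 h1
        refine Submodule.mem_sup.2 ⟨⟨y, hW hy⟩, hy, ⟨z, hW' hz⟩, hz, Subtype.ext hyz⟩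
    obtain ⟨f, hf⟩ : ∃ f : Module.End ℚ_[ℓ] (space ℚ_[ℓ] blk b),
        (∀ x : space ℚ_[ℓ] blk b, (x : T → ℚ_[ℓ]) ∈ W → f x = x) ∧
        (∀ x : space ℚ_[ℓ] blk b, (x : T → ℚ_[ℓ]) ∈ W' → f x = 0) := by
      refine ⟨Submodule.projection _ _ hc, ?_, ?_⟩
      · intro x hx
        exact Submodule.projection_apply_left hc ⟨x, hx⟩
      · intro x hx
        exact (Submodule.projection_apply_eq_zero_iff hc).2 hx
    have hdec : ∀ x : space ℚ_[ℓ] blk b, ∃ y z : space ℚ_[ℓ] blk b, (y : T → ℚ_[ℓ]) ∈ W ∧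
        (z : T → ℚ_[ℓ]) ∈ W' ∧ x = y + z := by
      intro x
      have h1 : (x : T → ℚ_[ℓ]) ∈ W ⊔ W' := by rw [hsup]; exact x.2
      obtain ⟨y, hy, z, hz, hyz⟩ := Submodule.mem_sup.1 h1
      exact ⟨⟨y, hW hy⟩, ⟨z, hW' hz⟩, hy, hz, Subtype.ext hyz.symm⟩
    have hsupp : ∀ s t, mt f s t ≠ 0 → blk s = b ∧ blk t = b := by
      intro s t hst
      constructor
      · by_contra h1
        apply hst
        rw [← mulVec_e (mt f), mt_mulVec]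
        exact (f (prV ℚ_[ℓ] blk b (e t))).2 s h1
      · by_contra h1
        apply hst
        have h2 : prV ℚ_[ℓ] blk b (e t) = 0 := by
          apply Subtype.ext
          ext s
          show pr ℚ_[ℓ] blk b (e t) s = 0
          by_cases hs : blk s = b
          · rw [pr_pos _ hs, e_ne]
            rintro rfl
            exact h1 hs
          · rw [pr_neg _ hs]
        rw [← mulVec_e (mt f), mt_mulVec, h2, map_zero]
        rfl
    have hcomm : ∀ Z ∈ sub ρ, mt f * Z = Z * mt f := by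
      intro Z hZ
      have hZb := block ρ hb Z hZ
      have h2 : ∀ x : T → ℚ_[ℓ], pr ℚ_[ℓ] blk b (Z *ᵥ x) = Z *ᵥ (pr ℚ_[ℓ] blk b x) := by
        intro x
        ext s
        by_cases hs : blk s = b
        · rw [pr_pos _ hs]
          simp only [mulVec, dotProduct]
          refine Finset.sum_congr rfl fun t _ => ?_
          by_cases ht : blk t = b
          · rw [pr_pos _ ht]
          · rw [hZb s t (by rw [hs]; exact fun h => ht h.symm), zero_mul, zero_mul]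
        · rw [pr_neg _ hs, act_space hZb (pr_mem x) s hs]
      apply mt_ext
      intro x
      rw [← mulVec_mulVec, ← mulVec_mulVec, mt_mulVec, mt_mulVec]
      obtain ⟨y, z, hy, hz, hyz⟩ := hdec (prV ℚ_[ℓ] blk b x)
      have h3 : prV ℚ_[ℓ] blk b (Z *ᵥ x) = ⟨Z *ᵥ (y : T → ℚ_[ℓ]), hW (hWs Z hZ _ hy)⟩ +
          ⟨Z *ᵥ (z : T → ℚ_[ℓ]), hW' (hWs' Z hZ _ hz)⟩ := by
        apply Subtype.ext
        show pr ℚ_[ℓ] blk b (Z *ᵥ x) = Z *ᵥ (y : T → ℚ_[ℓ]) + Z *ᵥ (z : T → ℚ_[ℓ])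
        rw [h2, ← mulVec_add]
        congr 1
        exact congrArg Subtype.val hyz
      rw [h3, map_add, hyz, map_add, hf.1 _ (hWs Z hZ _ hy), hf.2 _ (hWs' Z hZ _ hz), hf.1 y hy,
        hf.2 z hz, add_zero, add_zero]
    obtain ⟨c, hc'⟩ := H.comm (small ρ) (small_open ρ hρ) (mt f) hsupp
      (comm_small ρ hcomm)
    by_cases hW0 : W = ⊥
    · exact Or.inl hW0
    right
    obtain ⟨x, hx, hx0⟩ := (Submodule.ne_bot_iff W).1 hW0
    have h1 := hc' x (hW hx)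
    have h2 : prV ℚ_[ℓ] blk b x = ⟨x, hW hx⟩ := prV_coe (⟨x, hW hx⟩ : space ℚ_[ℓ] blk b)
    rw [mt_mulVec, h2, hf.1 ⟨x, hW hx⟩ hx] at h1
    have h3 : c = 1 := by
      have h4 : (1 - c) • x = 0 := by
        rw [sub_smul, one_smul, ← h1, sub_self]
      rcases smul_eq_zero.1 h4 with h5 | h5
      · exact (sub_eq_zero.1 h5).symm
      · exact absurd h5 hx0
    have hW'0 : W' = ⊥ := by
      rw [eq_bot_iff]
      intro z hz
      have h4 := hc' z (hW' hz)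
      have h5 : prV ℚ_[ℓ] blk b z = ⟨z, hW' hz⟩ := prV_coe (⟨z, hW' hz⟩ : space ℚ_[ℓ] blk b)
      rw [mt_mulVec, h5, hf.2 ⟨z, hW' hz⟩ hz, h3, one_smul] at h4
      rw [Submodule.mem_bot, ← h4]
      rfl
    rw [hW'0, sup_bot_eq] at hsup
    exact hsup
  · intro C hC hCZ
    exact H.comm (small ρ) (small_open ρ hρ) C hC (comm_small ρ hCZ)

end Lie

end Pool.Agent.H4.HW
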