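import Pool.Agent.H4.HW.Str

/-!
# The structure of the Lie algebra of the Mumford-Tate group
-/

set_option autoImplicit false
set_option linter.unusedSectionVars false

namespace Pool.Agent.H4.HW

open Matrix

/-- the coordinate on a block with one vector -/
theorem diag_oo {T B F : Type} [Fintype T] [DecidableEq T] [Field F] [CharZero F] {blk : T → B}
    {Q : Matrix T T F} (hu : IsUnit Q.det) (hQ : IsBlock blk Q) {o : T}
    (ho : ∀ t, blk t = blk o → t = o) (d : T → F) : (Q * diagonal d * Q⁻¹) o o = d o := by
  have h1 : ∀ A C : Matrix T T F, IsBlock blk A → (A * C) o o = A o o * C o o := by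
    intro A C hA
    rw [mul_apply, Finset.sum_eq_single o]
    · intro r _ hr
      rw [hA o r (fun h => hr (ho r h.symm)), zero_mul]
    · intro h
      exact absurd (Finset.mem_univ _) h
  have h2 := congrFun (congrFun (Matrix.mul_nonsing_inv Q hu) o) o
  rw [h1 _ _ hQ, Matrix.one_apply_eq] at h2
  rw [h1 _ _ (hQ.mul (IsBlock.diagonal d)), h1 _ _ hQ, diagonal_apply_eq]
  linear_combination (d o) * h2

namespace Betti

variable {T B : Type} [Fintype T] [DecidableEq T] (M : Betti T B)

theorem D_block (hP : IsUnit M.P.det ∧ IsBlock M.blk M.P) : IsBlock M.blk M.D :=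
  (hP.2.mul (IsBlock.diagonal _)).mul (hP.2.inv hP.1)

/-- the similitude equation is compatible with commutators -/
theorem Pol.brack {S : Set B} {F : Type} [Field F] [CharZero F] (ho : ∀ t, M.blk t = M.blk M.o → t = M.o)
    {X Y : Matrix T T F} (hXb : IsBlock M.blk X) (hYb : IsBlock M.blk Y)
    (hX : M.Pol S X) (hY : M.Pol S Y) : M.Pol S (X * Y - Y * X) := by
  classical
  intro b hb
  have hoo : (X * Y - Y * X) M.o M.o = 0 := by
    have h1 : ∀ A C : Matrix T T F, IsBlock M.blk A → (A * C) M.o M.o = A M.o M.o * C M.o M.o := by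
      intro A C hA
      rw [mul_apply, Finset.sum_eq_single M.o]
      · intro r _ hr
        rw [hA M.o r (fun h => hr (ho r h.symm)), zero_mul]
      · intro h
        exact absurd (Finset.mem_univ _) h
    rw [Matrix.sub_apply, h1 _ _ hXb, h1 _ _ hYb]
    ring
  obtain ⟨p, hp⟩ : ∃ p : Matrix T T F, p = Matrix.diagonal fun r => if M.blk r = b then 1 else 0 :=
    ⟨_, rfl⟩
  have hpc : ∀ {A : Matrix T T F}, IsBlock M.blk A → p * A = A * p := by
    intro A hA
    ext a c
    rw [hp, diagonal_mul, mul_diagonal]
    by_cases hac : M.blk a = M.blk c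
    · rw [hac, mul_comm]
    · rw [hA a c hac, mul_zero, zero_mul]
  have hrow : ∀ {A : Matrix T T F} {c : F}, (∀ s t, M.blk s = b → A s t = c * M.EF F s t) ↔
      p * A = c • (p * M.EF F) := by
    intro A c
    constructor
    · intro h
      ext s t
      rw [Matrix.smul_apply, hp, diagonal_mul, diagonal_mul, smul_eq_mul]
      by_cases hs : M.blk s = b
      · rw [if_pos hs, h s t hs]
        ring
      · rw [if_neg hs]
        ring
    · intro h s t hs
      have h1 := congrFun (congrFun h s) t
      rw [Matrix.smul_apply, hp, diagonal_mul, diagonal_mul, smul_eq_mul, if_pos hs] at h1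
      linear_combination h1
  have h1 := hrow.1 (hX b hb)
  have h2 := hrow.1 (hY b hb)
  rw [hoo, mul_zero]
  refine hrow.2 ?_
  have hXt := hpc hXb.transpose
  have hYt := hpc hYb.transpose
  rw [transpose_sub, transpose_mul, transpose_mul, zero_smul]
  generalize Xᵀ = x' at *
  generalize Yᵀ = y' at *
  generalize M.EF F = E at *
  generalize (M.wt b : F) * X M.o M.o = a at *
  generalize (M.wt b : F) * Y M.o M.o = c at *
  have h3 : p * (x' * E) = a • (p * E) - p * (E * X) := by
    rw [mul_add] at h1
    rw [← h1, add_sub_cancel_right]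
  have h4 : p * (y' * E) = c • (p * E) - p * (E * Y) := by
    rw [mul_add] at h2
    rw [← h2, add_sub_cancel_right]
  have h5 : p * (y' * x' * E) = a • (c • (p * E) - p * (E * Y)) -
      (c • (p * E) - p * (E * Y)) * X := by
    calc p * (y' * x' * E) = (p * y') * x' * E := by noncomm_ring
      _ = y' * (p * (x' * E)) := by rw [hYt]; noncomm_ring
      _ = a • ((y' * p) * E) - ((y' * p) * E) * X := by
        rw [h3, mul_sub, mul_smul_comm]
        noncomm_ring
      _ = a • (p * (y' * E)) - (p * (y' * E)) * X := by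
        rw [← hYt]
        noncomm_ring
      _ = _ := by rw [h4]
  have h6 : p * (x' * y' * E) = c • (a • (p * E) - p * (E * X)) -
      (a • (p * E) - p * (E * X)) * Y := by
    calc p * (x' * y' * E) = (p * x') * y' * E := by noncomm_ring
      _ = x' * (p * (y' * E)) := by rw [hXt]; noncomm_ring
      _ = c • ((x' * p) * E) - ((x' * p) * E) * Y := by
        rw [h4, mul_sub, mul_smul_comm]
        noncomm_ring
      _ = c • (p * (x' * E)) - (p * (x' * E)) * Y := by
        rw [← hXt]
        noncomm_ring
      _ = _ := by rw [h3]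
  have h7 : p * ((y' * x' - x' * y') * E + E * (X * Y - Y * X)) =
      p * (y' * x' * E) - p * (x' * y' * E) + (p * (E * X) * Y - p * (E * Y) * X) := by
    noncomm_ring
  rw [h7, h5, h6]
  simp only [smul_sub, sub_mul, smul_mul_assoc, smul_smul, mul_comm c a, mul_assoc]
  abel

/-- the Hodge operator satisfies the similitude equation -/
theorem pol_D {S : Set B} (hM : M.IsBetti S) : M.Pol S M.D := by
  intro b hb s t hs
  obtain ⟨v, hv⟩ := hM.isolated b hb
  rw [hv.polar s t hs]
  have h1 : M.D M.o M.o = 1 := by
    rw [D, diag_oo hM.basis.1 hM.basis.2 hM.tate.1, hM.tate.2.1, Int.cast_one]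
  rw [h1, mul_one]

/-- the similitudes, as a subspace -/
def simil (S : Set B) : Submodule ℚ (Matrix T T ℚ) where
  carrier := {X | IsBlock M.blk X ∧ M.Pol S X}
  add_mem' := by
    rintro X Y ⟨h1, h2⟩ ⟨h3, h4⟩
    refine ⟨fun s t hst => by rw [Matrix.add_apply, h1 s t hst, h3 s t hst, add_zero], h2.add M h4⟩
  zero_mem' := ⟨fun _ _ _ => rfl, Pol.zero M⟩
  smul_mem' := by
    rintro c X ⟨h1, h2⟩
    exact ⟨fun s t hst => by rw [Matrix.smul_apply, h1 s t hst, smul_zero], h2.smul M c⟩

/-- the components of a block diagonal matrix which is a similitude -/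
theorem comp_simil {S : Set B} {r : ℕ} {c : Fin r → ℂ} {Dk : Fin r → Matrix T T ℚ}
    (hc : LinearIndependent ℚ c)
    (hb : IsBlock M.blk (∑ k, c k • (Dk k).map (algebraMap ℚ ℂ)))
    (hp : M.Pol S (∑ k, c k • (Dk k).map (algebraMap ℚ ℂ))) (k : Fin r) :
    Dk k ∈ M.simil S := by
  classical
  constructor
  · intro s t hst
    have h1 := comp_eq hc (fun i j => if i = s ∧ j = t then 1 else 0) (by
      have h2 := hb s t hst
      rw [Finset.sum_eq_single s, Finset.sum_eq_single t, h2, zero_mul]
      · intro j _ hj
        rw [if_neg (fun h => hj h.2)]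
        simp
      · intro h
        exact absurd (Finset.mem_univ _) h
      · intro i _ hi
        refine Finset.sum_eq_zero fun j _ => ?_
        rw [if_neg (fun h => hi h.1)]
        simp
      · intro h
        exact absurd (Finset.mem_univ _) h) k
    rw [Finset.sum_eq_single s, Finset.sum_eq_single t] at h1
    · rwa [if_pos ⟨rfl, rfl⟩, mul_one] at h1
    · intro j _ hj
      rw [if_neg (fun h => hj h.2), mul_zero]
    · intro h
      exact absurd (Finset.mem_univ _) h
    · intro i _ hi
      refine Finset.sum_eq_zero fun j _ => ?_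
      rw [if_neg (fun h => hi h.1), mul_zero]
    · intro h
      exact absurd (Finset.mem_univ _) h
  · intro b hb' s t hs
    -- the equation as a functional
    have key : ∀ {F : Type} [Field F] [CharZero F] (X : Matrix T T F),
        (Xᵀ * M.EF F + M.EF F * X) s t - M.wt b * X M.o M.o * M.EF F s t =
        ∑ i, ∑ j, X i j * (((if j = s then M.E i t else 0) + (if j = t then M.E s i else 0) -
          (if i = M.o ∧ j = M.o then M.wt b * M.E s t else 0) : ℚ) : F) := by
      intro F _ _ X
      have e1 : (Xᵀ * M.EF F) s t = ∑ i, ∑ j, X i j * (((if j = s then M.E i t else 0 : ℚ)) : F) := by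
        rw [mul_apply]
        refine Finset.sum_congr rfl fun i _ => ?_
        rw [Finset.sum_eq_single s]
        · rw [if_pos rfl, transpose_apply, EF, map_apply]
          rfl
        · intro j _ hj
          rw [if_neg hj]
          simp
        · intro h
          exact absurd (Finset.mem_univ _) h
      have e2 : (M.EF F * X) s t = ∑ i, ∑ j, X i j * (((if j = t then M.E s i else 0 : ℚ)) : F) := by
        rw [mul_apply]
        refine Finset.sum_congr rfl fun i _ => ?_
        rw [Finset.sum_eq_single t]
        · rw [if_pos rfl, EF, map_apply, mul_comm]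
          rfl
        · intro j _ hj
          rw [if_neg hj]
          simp
        · intro h
          exact absurd (Finset.mem_univ _) h
      have e3 : M.wt b * X M.o M.o * M.EF F s t =
          ∑ i, ∑ j, X i j * (((if i = M.o ∧ j = M.o then M.wt b * M.E s t else 0 : ℚ)) : F) := by
        rw [Finset.sum_eq_single M.o, Finset.sum_eq_single M.o]
        · rw [if_pos ⟨rfl, rfl⟩, EF, map_apply]
          push_cast
          show _ * _ * ((M.E s t : ℚ) : F) = _
          ring
        · intro j _ hj
          rw [if_neg (fun h => hj h.2)]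
          simp
        · intro h
          exact absurd (Finset.mem_univ _) h
        · intro i _ hi
          refine Finset.sum_eq_zero fun j _ => ?_
          rw [if_neg (fun h => hi h.1)]
          simp
        · intro h
          exact absurd (Finset.mem_univ _) h
      rw [Matrix.add_apply, e1, e2, e3, ← Finset.sum_add_distrib, ← Finset.sum_sub_distrib]
      refine Finset.sum_congr rfl fun i _ => ?_
      rw [← Finset.sum_add_distrib, ← Finset.sum_sub_distrib]
      refine Finset.sum_congr rfl fun j _ => ?_
      push_cast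
      ring
    have h1 := comp_eq hc (fun i j => (if j = s then M.E i t else 0) +
      (if j = t then M.E s i else 0) - (if i = M.o ∧ j = M.o then M.wt b * M.E s t else 0)) (by
      rw [← key]
      rw [hp b hb' s t hs, sub_self]) k
    have h2 := key (F := ℚ) (Dk k)
    simp only [Rat.cast_id] at h2
    rw [h1] at h2
    exact sub_eq_zero.1 h2

theorem mt_simil {S : Set B} (hM : M.IsBetti S) : mtLie M.D ≤ M.simil S := by
  obtain ⟨r, c, Dk, hc, hD⟩ := exists_comp M.D
  refine mtLie_le ?_ ?_
  · rintro X ⟨h1, h2⟩ Y ⟨h3, h4⟩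
    refine ⟨?_, h2.brack M hM.tate.1 h1 h3 h4⟩
    intro s t hst
    rw [Matrix.sub_apply, (h1.mul h3) s t hst, (h3.mul h1) s t hst, sub_zero]
  · rw [hD]
    refine (mem_extk_iff hc _).2 fun k => ?_
    have h1 := M.D_block hM.basis
    have h2 := M.pol_D hM
    rw [hD] at h1 h2
    exact M.comp_simil hc h1 h2 k

/-- the Lie algebra of the Mumford-Tate group is absolutely irreducible on `M_b` -/
theorem mt_absIrr {S : Set B} (hM : M.IsBetti S) {b : B} (hb : b ∈ S) :
    AbsIrr M.blk b (mtLie M.D) := by
  obtain ⟨v, hv⟩ := hM.isolated b hb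
  obtain ⟨r, c, Dk, hc, hD⟩ := exists_comp M.D
  have hDk : ∀ k, Dk k ∈ mtLie M.D := by
    intro k
    rw [hD]
    exact comp_mem hc k
  refine ⟨fun Z hZ => (M.mt_simil hM hZ).1, ?_, ?_⟩
  · intro W hW hst
    refine hv.simple W hW fun x hx => ?_
    have h1 : M.D *ᵥ (fun t => (x t : ℂ)) =
        ∑ k, c k • (fun t => (((Dk k) *ᵥ x) t : ℂ)) := by
      rw [hD]
      ext s
      simp only [mulVec, dotProduct, Matrix.sum_apply, Matrix.smul_apply, map_apply, smul_eq_mul,
        Finset.sum_apply, Pi.smul_apply]
      simp only [Finset.sum_mul]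
      rw [Finset.sum_comm]
      refine Finset.sum_congr rfl fun k _ => ?_
      push_cast
      rw [Finset.mul_sum]
      refine Finset.sum_congr rfl fun t _ => ?_
      show c k * ((Dk k s t : ℚ) : ℂ) * _ = _
      ring
    rw [h1]
    refine Submodule.sum_mem _ fun k _ => Submodule.smul_mem _ _ ?_
    exact Submodule.subset_span ⟨Dk k *ᵥ x, hst _ (hDk k) x hx, rfl⟩
  · intro C hC hcomm
    refine hv.trivialEnd C hC ?_
    rw [hD, Finset.mul_sum, Finset.sum_mul]
    refine Finset.sum_congr rfl fun k _ => ?_
    rw [mul_smul_comm, smul_mul_assoc, ← map_mul', ← map_mul', hcomm _ (hDk k)]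

/-- the Lie algebra of the Mumford-Tate group contains the skew operators of `M_b` -/
theorem mt_str {S : Set B} (hM : M.IsBetti S) : M.Str S (mtLie M.D) := by
  refine ⟨fun X hX => (M.mt_simil hM hX).1, fun X hX => (M.mt_simil hM hX).2, ?_⟩
  intro b hb X hX hsk
  obtain ⟨v, hv⟩ := hM.isolated b hb
  obtain ⟨ε, hε, hsym⟩ := hv.sign
  rw [EF_rat] at hsk
  have H : CoreHyp (F := ℂ) M.blk b M.E ε (mtLie M.D) M.P (fun t => (M.hdg t : ℂ)) (M.wt b) v := by
    refine ⟨hε, hM.form.2, hM.form.1, hsym, mtLie_brack M.D, ?_, M.mt_absIrr hM hb, hM.basis.2,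
      hM.basis.1, mtLie_ext M.D, ?_, hv.mem, ?_, ?_, ?_⟩
    · intro Z hZ
      refine ⟨M.wt b * Z M.o M.o, fun s t hs => ?_⟩
      have := (M.mt_simil hM hZ).2 b hb s t hs
      rwa [EF_rat] at this
    · exact hv.polar
    · intro t ht he
      exact hv.one t ht (by exact_mod_cast he)
    · intro r s t hr hs ht he
      rcases hv.isolated r s t hr hs ht (by exact_mod_cast he) with h | h | h
      · exact Or.inl h
      · exact Or.inr (Or.inl h)
      · right; right
        exact_mod_cast h
    · intro t r s ht hne hrs hr he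
      exact hv.across r s t ht hne hrs hr (by exact_mod_cast he)
  exact H.skew_mem X hX hsk

end Betti

end Pool.Agent.H4.HW
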