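import Pool.Agent.H4.HW.Hodge
import Pool.Agent.H4.HW.Sim

/-!
# The structure of the three Lie algebras
-/

set_option autoImplicit false
set_option linter.unusedSectionVars false

namespace Pool.Agent.H4.HW

open Matrix

namespace Betti

variable {T B : Type} [Fintype T] [DecidableEq T] (M : Betti T B)

/-- the similitude equation, with the multiplier given by the Tate motive -/
def Pol (S : Set B) {F : Type} [Field F] [CharZero F] (X : Matrix T T F) : Prop :=
  ∀ b ∈ S, ∀ s t, M.blk s = b →
    (Xᵀ * M.EF F + M.EF F * X) s t = M.wt b * X M.o M.o * M.EF F s t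

theorem EF_map {k F : Type} [Field k] [CharZero k] [Field F] [CharZero F] [Algebra k F] :
    (M.EF k).map (algebraMap k F) = M.EF F := by
  ext s t
  simp [EF]

theorem EF_rat : M.EF ℚ = M.E := by
  ext s t
  simp [EF]

theorem Pol.add {S : Set B} {F : Type} [Field F] [CharZero F] {X Y : Matrix T T F}
    (hX : M.Pol S X) (hY : M.Pol S Y) : M.Pol S (X + Y) := by
  intro b hb s t hs
  have h1 := hX b hb s t hs
  have h2 := hY b hb s t hs
  rw [Matrix.add_apply] at h1 h2
  rw [transpose_add, add_mul, mul_add]
  simp only [Matrix.add_apply]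
  linear_combination h1 + h2

theorem Pol.smul {S : Set B} {F : Type} [Field F] [CharZero F] {X : Matrix T T F}
    (hX : M.Pol S X) (c : F) : M.Pol S (c • X) := by
  intro b hb s t hs
  have h1 := hX b hb s t hs
  rw [Matrix.add_apply] at h1
  rw [transpose_smul, smul_mul_assoc, mul_smul_comm]
  simp only [Matrix.add_apply, Matrix.smul_apply, smul_eq_mul]
  linear_combination c * h1

theorem Pol.zero {S : Set B} {F : Type} [Field F] [CharZero F] :
    M.Pol S (0 : Matrix T T F) := by
  intro b hb s t hs
  rw [transpose_zero, zero_mul, mul_zero, add_zero, Matrix.zero_apply, Matrix.zero_apply, mul_zero,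
    zero_mul]

theorem Pol.map {S : Set B} {k F : Type} [Field k] [CharZero k] [Field F] [CharZero F]
    [Algebra k F] {X : Matrix T T k} (hX : M.Pol S X) : M.Pol S (X.map (algebraMap k F)) := by
  intro b hb s t hs
  have h1 := congrArg (algebraMap k F) (hX b hb s t hs)
  rw [map_mul, map_mul, map_intCast] at h1
  rw [← M.EF_map (k := k) (F := F)]
  rw [← transpose_map, ← map_mul', ← map_mul', map_apply, map_apply, ← h1, Matrix.add_apply,
    Matrix.add_apply, map_add, map_apply, map_apply]

/-- the Lie algebra is contained in the similitudes, and contains the skew operators -/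
structure Str (S : Set B) {F : Type} [Field F] [CharZero F] (𝔤 : Submodule F (Matrix T T F)) :
    Prop where
  block : ∀ X ∈ 𝔤, IsBlock M.blk X
  pol : ∀ X ∈ 𝔤, M.Pol S X
  full : ∀ b ∈ S, ∀ X, M.ActsOn b X → Xᵀ * M.EF F + M.EF F * X = 0 → X ∈ 𝔤

/-- the part of a block diagonal matrix on one block -/
noncomputable def one (b : B) {F : Type} [Field F] (X : Matrix T T F) : Matrix T T F :=
  open scoped Classical in Matrix.of fun s t => if M.blk s = b ∧ M.blk t = b then X s t else 0

theorem one_apply (b : B) {F : Type} [Field F] (X : Matrix T T F) (s t : T) :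
    M.one b X s t = open scoped Classical in if M.blk s = b ∧ M.blk t = b then X s t else 0 := rfl

/-- a similitude which is zero on the Tate motive and on the other summands is in the Lie algebra -/
theorem Str.mem_of_zero {S : Set B} {F : Type} [Field F] [CharZero F]
    {𝔤 : Submodule F (Matrix T T F)} (h : M.Str S 𝔤) (hE : IsBlock M.blk M.E)
    (ho : M.blk M.o ∉ S) {Z : Matrix T T F} (hZ : IsBlock M.blk Z)
    (hp : M.Pol S Z) (h0 : M.part Sᶜ Z = 0) : Z ∈ 𝔤 := by
  classical
  have hEF : IsBlock M.blk (M.EF F) := by
    intro s t hst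
    rw [EF, map_apply, hE s t hst, map_zero]
  have hz : ∀ s t, M.blk s ∉ S → M.blk t ∉ S → Z s t = 0 := fun s t hs ht =>
    congrFun (congrFun h0 ⟨s, hs⟩) ⟨t, ht⟩
  have h1 : Z = ∑ b ∈ (Finset.univ.image M.blk), M.one b Z := by
    ext s t
    rw [Matrix.sum_apply, Finset.sum_eq_single (M.blk s)]
    · rw [one_apply]
      by_cases hst : M.blk t = M.blk s
      · rw [if_pos ⟨rfl, hst⟩]
      · rw [if_neg (fun h => hst h.2), hZ s t (fun h => hst h.symm)]
    · intro b _ hb
      rw [one_apply, if_neg (fun h => hb h.1.symm)]
    · intro h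
      exact absurd (Finset.mem_image_of_mem _ (Finset.mem_univ s)) h
  rw [h1]
  refine Submodule.sum_mem _ fun b _ => ?_
  by_cases hb : b ∈ S
  · refine h.full b hb _ ?_ ?_
    · intro s t hst
      rw [one_apply] at hst
      by_contra h2
      rw [if_neg h2] at hst
      exact hst rfl
    · ext s t
      rw [Matrix.add_apply, mul_apply, mul_apply, Matrix.zero_apply]
      by_cases hs : M.blk s = b
      · have h2 := hp b hb s t hs
        rw [hz M.o M.o ho ho, mul_zero, zero_mul, Matrix.add_apply, mul_apply, mul_apply] at h2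
        rw [← h2]
        congr 1
        · refine Finset.sum_congr rfl fun r _ => ?_
          rw [transpose_apply, transpose_apply, one_apply]
          by_cases hr : M.blk r = b
          · rw [if_pos ⟨hr, hs⟩]
          · rw [if_neg (fun h => hr h.1), hZ r s (by rw [hs]; exact hr)]
        · refine Finset.sum_congr rfl fun r _ => ?_
          rw [one_apply]
          by_cases hr : M.blk r = b
          · by_cases ht : M.blk t = b
            · rw [if_pos ⟨hr, ht⟩]
            · rw [if_neg (fun h => ht h.2), hZ r t (by rw [hr]; exact fun h => ht h.symm)]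
          · rw [hEF s r (by rw [hs]; exact fun h => hr h.symm), zero_mul, zero_mul]
      · rw [Finset.sum_eq_zero, Finset.sum_eq_zero, add_zero]
        · intro r _
          rw [one_apply]
          by_cases hr : M.blk r = b
          · rw [hEF s r (by rw [hr]; exact hs), zero_mul]
          · rw [if_neg (fun h => hr h.1), mul_zero]
        · intro r _
          rw [transpose_apply, one_apply, if_neg (fun h => hs h.2), zero_mul]
  · have h2 : M.one b Z = 0 := by
      ext s t
      rw [one_apply]
      split_ifs with h3
      · rw [hz s t (by rw [h3.1]; exact hb) (by rw [h3.2]; exact hb)]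
        rfl
      · rfl
    rw [h2]
    exact zero_mem _

theorem part_sub {F : Type} [Field F] (J : Set B) (X Y : Matrix T T F) :
    M.part J (X - Y) = M.part J X - M.part J Y := rfl

/-- two such Lie algebras are equal if their parts are equal -/
theorem Str.le {S : Set B} {F : Type} [Field F] [CharZero F]
    {𝔤 𝔥 : Submodule F (Matrix T T F)} (h : M.Str S 𝔤) (h' : M.Str S 𝔥)
    (hE : IsBlock M.blk M.E) (ho : M.blk M.o ∉ S)
    (hp : M.parts Sᶜ 𝔤 ≤ M.parts Sᶜ 𝔥) : 𝔤 ≤ 𝔥 := by
  intro X hX
  obtain ⟨Y, hY, hXY⟩ := hp ⟨X, hX, rfl⟩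
  have h1 : X - Y ∈ 𝔥 := by
    refine h'.mem_of_zero M hE ho ?_ ?_ ?_
    · intro s t hst
      rw [Matrix.sub_apply, h.block X hX s t hst, h'.block Y hY s t hst, sub_zero]
    · have h2 := (h.pol X hX).add M ((h'.pol Y hY).smul M (-1))
      have h3 : X + (-1 : F) • Y = X - Y := by
        rw [neg_smul, one_smul, sub_eq_add_neg]
      rwa [h3] at h2
    · rw [part_sub, hXY, sub_self]
  have h2 := 𝔥.add_mem h1 hY
  rwa [sub_add_cancel] at h2

/-- extension of the field -/
theorem Str.ext {S : Set B} {k F : Type} [Field k] [CharZero k] [Field F] [CharZero F]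
    [Algebra k F] {𝔤 : Submodule k (Matrix T T k)} (h : M.Str S 𝔤) (hE : IsBlock M.blk M.E)
    (hu : IsUnit M.E.det)
    (hs : ∀ b ∈ S, ∃ ε : ℚ, (ε = 1 ∨ ε = -1) ∧ ∀ s t, M.blk s = b → M.E t s = ε * M.E s t) :
    M.Str S (extk F 𝔤) := by
  have hEk : ∀ (F : Type) [Field F] [CharZero F], IsBlock M.blk (M.EF F) := by
    intro F _ _ s t hst
    rw [EF, map_apply, hE s t hst, map_zero]
  have huk : ∀ (F : Type) [Field F] [CharZero F], IsUnit (M.EF F).det := by
    intro F _ _
    rw [EF, ← RingHom.mapMatrix_apply, ← RingHom.map_det]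
    exact hu.map _
  refine ⟨?_, ?_, ?_⟩
  · intro X hX s t hst
    induction hX using Submodule.span_induction with
    | mem x hx =>
      obtain ⟨x, hx, rfl⟩ := hx
      exact (h.block x hx).map s t hst
    | zero => rfl
    | add x y _ _ h1 h2 => rw [Matrix.add_apply, h1, h2, add_zero]
    | smul c x _ h1 => rw [Matrix.smul_apply, h1, smul_zero]
  · intro X hX
    induction hX using Submodule.span_induction with
    | mem x hx =>
      obtain ⟨x, hx, rfl⟩ := hx
      exact (h.pol x hx).map M
    | zero => exact Pol.zero M
    | add x y _ _ h1 h2 => exact h1.add M h2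
    | smul c x _ h1 => exact h1.smul M c
  · intro b hb X hX hsk
    obtain ⟨ε, hε, hsym⟩ := hs b hb
    have hsymF : ∀ (F : Type) [Field F] [CharZero F], ∀ s t, M.blk s = b →
        M.EF F t s = algebraMap ℚ F ε * M.EF F s t := by
      intro F _ _ s t hst
      rw [EF, map_apply, map_apply, hsym s t hst, map_mul]
    have hεF : ∀ (F : Type) [Field F] [CharZero F], algebraMap ℚ F ε = 1 ∨
        algebraMap ℚ F ε = -1 := by
      intro F _ _
      rcases hε with h1 | h1
      · left; rw [h1, map_one]
      · right; rw [h1, map_neg, map_one]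
    have hε2 : ∀ (F : Type) [Field F] [CharZero F], algebraMap ℚ F ε * algebraMap ℚ F ε = 1 := by
      intro F _ _
      rcases hεF F with h1 | h1 <;> rw [h1] <;> ring
    refine skew_of_R (hεF F) (hEk F) (huk F) (hsymF F) ?_ X hX hsk
    -- the operators of rank two
    have hk : ∀ i j, M.blk i = b → M.blk j = b →
        R (M.EF F) (algebraMap ℚ F ε) (e i) (e j) ∈ extk F 𝔤 := by
      intro i j hi hj
      have h1 : R (M.EF k) (algebraMap ℚ k ε) (e i) (e j) ∈ 𝔤 := by
        have hv : ∀ j t, (e j ᵥ* M.EF k : T → k) t = M.EF k j t := by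
          intro j t
          rw [e, single_one_vecMul, row_apply]
        refine h.full b hb _ ?_ ?_
        · intro s t hst
          rw [R_apply, hv j, hv i] at hst
          by_contra h2
          apply hst
          by_cases hs' : M.blk s = b
          · have ht : M.blk t ≠ b := fun h => h2 ⟨hs', h⟩
            rw [hEk k j t (by rw [hj]; exact fun h => ht h.symm),
              hEk k i t (by rw [hi]; exact fun h => ht h.symm)]
            ring
          · rw [e_ne (fun h => hs' (by rw [h]; exact hi)),
              e_ne (fun h => hs' (by rw [h]; exact hj))]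
            ring
        · ext s t
          have e1 : ∀ (A : Matrix T T k) (x y : T → k), (R A (algebraMap ℚ k ε) x y)ᵀ * A =
              vecMulVec (y ᵥ* A) (x ᵥ* A) - algebraMap ℚ k ε • vecMulVec (x ᵥ* A) (y ᵥ* A) := by
            intro A x y
            rw [R, transpose_sub, transpose_smul, transpose_vecMulVec, transpose_vecMulVec,
              sub_mul, smul_mul_assoc, vecMulVec_mul, vecMulVec_mul]
          have e2 : ∀ (A : Matrix T T k) (x y : T → k), A * (R A (algebraMap ℚ k ε) x y) =
              vecMulVec (A *ᵥ x) (y ᵥ* A) - algebraMap ℚ k ε • vecMulVec (A *ᵥ y) (x ᵥ* A) := by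
            intro A x y
            rw [R, mul_sub, mul_smul_comm, mul_vecMulVec, mul_vecMulVec]
          have e3 : ∀ j, M.blk j = b → ∀ s, (M.EF k *ᵥ e j) s =
              algebraMap ℚ k ε * (e j ᵥ* M.EF k) s := by
            intro j hj s
            rw [mulVec_e, hsymF k j s hj, e, single_one_vecMul, row_apply]
          rw [Matrix.add_apply, e1, e2]
          simp only [Matrix.sub_apply, Matrix.smul_apply, vecMulVec_apply, smul_eq_mul,
            Matrix.zero_apply, e3 i hi, e3 j hj]
          linear_combination (-((e j ᵥ* M.EF k) s * (e i ᵥ* M.EF k) t)) * hε2 k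
      have h2 := extk_mem (F := F) h1
      convert h2 using 1
      ext s t
      rw [map_apply, R_apply, R_apply, map_sub, map_mul, map_mul, map_mul]
      have hv : ∀ (F : Type) [Field F] [CharZero F] (j : T), ∀ t,
          (e j ᵥ* M.EF F : T → F) t = M.EF F j t := by
        intro F _ _ j t
        rw [e, single_one_vecMul, row_apply]
      have he : ∀ i s, algebraMap k F ((e i : T → k) s) = (e i : T → F) s := by
        intro i s
        rw [e_apply, e_apply]
        split_ifs <;> simp
      rw [hv, hv, hv, hv, he, he, ← M.EF_map (k := k) (F := F), map_apply, map_apply]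
      congr 2
      simp
    have hsum : ∀ x : T → F, x = ∑ i, x i • (e i : T → F) := by
      intro x
      ext r
      rw [Finset.sum_apply, Finset.sum_eq_single r]
      · rw [Pi.smul_apply, e_self, smul_eq_mul, mul_one]
      · intro j _ hj
        rw [Pi.smul_apply, e_ne (fun h => hj h.symm), smul_zero]
      · intro h
        exact absurd (Finset.mem_univ _) h
    -- bilinearity
    have hl : ∀ j, M.blk j = b → ∀ x ∈ space F M.blk b,
        R (M.EF F) (algebraMap ℚ F ε) x (e j) ∈ extk F 𝔤 := by
      intro j hj x hx
      have h1 : R (M.EF F) (algebraMap ℚ F ε) x (e j) =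
          ∑ i, x i • R (M.EF F) (algebraMap ℚ F ε) (e i) (e j) := by
        have h2 := congrArg (Rl (M.EF F) (algebraMap ℚ F ε) (e j)) (hsum x)
        rw [map_sum] at h2
        simp only [map_smul] at h2
        exact h2
      rw [h1]
      refine Submodule.sum_mem _ fun i _ => ?_
      by_cases hi : M.blk i = b
      · exact Submodule.smul_mem _ _ (hk i j hi hj)
      · rw [hx i hi, zero_smul]
        exact zero_mem _
    intro x hx y hy
    have h1 : R (M.EF F) (algebraMap ℚ F ε) y x =
        ∑ i, y i • R (M.EF F) (algebraMap ℚ F ε) (e i) x := by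
      have h2 := congrArg (Rl (M.EF F) (algebraMap ℚ F ε) x) (hsum y)
      rw [map_sum] at h2
      simp only [map_smul] at h2
      exact h2
    have h2 : R (M.EF F) (algebraMap ℚ F ε) y x ∈ extk F 𝔤 := by
      rw [h1]
      refine Submodule.sum_mem _ fun i _ => ?_
      by_cases hi : M.blk i = b
      · refine Submodule.smul_mem _ _ ?_
        rw [R_swap _ _ (hε2 F)]
        exact Submodule.smul_mem _ _ (hl i hi x hx)
      · rw [hy i hi, zero_smul]
        exact zero_mem _
    rw [R_swap _ _ (hε2 F)]
    exact Submodule.smul_mem _ _ h2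

end Betti

end Pool.Agent.H4.HW
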